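import Pool.Agent.Work.MP_c2f093_al.Gen.H

/-!
Structure of the word `sw x p q` obtained by inserting the two loops.

`ins_struct`: the vertex `P` of `ins x p G` (with `G.length = 4`, `tot θ G = 0`) lies over the vertex
`if P ≤ p then P else if P ≤ p + 4 then p else P - 4` of `x`, and its height differs by `ht θ G (P - p)` when
`p ≤ P ≤ p + 4` (use `ht_append`, `ht_take`, `ht_drop`).  `sw_struct` is this applied twice; the heights along
`gadB` for `dir k` are `0, -1, -1 - k, -k, 0`, along `gadT` they are `0, 1, 1 + k, k, 0`.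
`sw_cyc`: by `max_signs` the letter before `p` is negative and the letter after `p` is positive, while `gadB` begins
with a negative and ends with a positive letter; dually at `q`.  One may use `cyc_iff`, or the fact that
`ins x p G` is a rotation of `G ++ x.rotate p`.
-/

namespace Pool.Agent.Work.MP_c2f093_al.Gen

open Finset Filter

theorem ins_length (x : List L) (p : ℕ) (G : List L) : (ins x p G).length = x.length + G.length := by
  simp only [ins, List.length_append, List.length_take, List.length_drop]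
  omega

theorem sw_length (x : List L) (p q : ℕ) : (sw x p q).length = x.length + 8 := by
  unfold sw
  split_ifs <;> rw [ins_length, ins_length] <;> rfl

theorem ins_inj {x x' : List L} {p : ℕ} {G : List L} (hp : p ≤ x.length) (hp' : p ≤ x'.length)
    (h : ins x p G = ins x' p G) : x = x' := by
  rw [ins, ins, List.append_assoc, List.append_assoc] at h
  obtain ⟨h1, h2⟩ := List.append_inj h (by rw [List.length_take_of_le hp, List.length_take_of_le hp'])
  rw [← List.take_append_drop p x, h1, List.append_cancel_left h2, List.take_append_drop]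

theorem sw_inj {x x' : List L} {p q : ℕ} (hp : p < x.length) (hq : q < x.length)
    (hl : x.length = x'.length) (h : sw x p q = sw x' p q) : x = x' := by
  unfold sw at h
  split_ifs at h
  · exact ins_inj hq.le (hl ▸ hq.le) (ins_inj (by rw [ins_length]; omega) (by rw [ins_length]; omega) h)
  · exact ins_inj hp.le (hl ▸ hp.le) (ins_inj (by rw [ins_length]; omega) (by rw [ins_length]; omega) h)

theorem B5a_tot (θ : ℤ × ℤ) (x : List L) (p : ℕ) (G : List L) :
    tot θ (ins x p G) = tot θ x + tot θ G := by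
  conv_rhs => rw [← List.take_append_drop p x]
  rw [ins, tot_append, tot_append, tot_append]
  ring

theorem B5a_totB (θ : ℤ × ℤ) : tot θ gadB = 0 := by simp [tot, wt, gadB]

theorem B5a_totT (θ : ℤ × ℤ) : tot θ gadT = 0 := by simp [tot, wt, gadT]

theorem sw_tot (θ : ℤ × ℤ) (x : List L) (p q : ℕ) : tot θ (sw x p q) = tot θ x := by
  unfold sw
  split_ifs <;> rw [B5a_tot, B5a_tot, B5a_totB, B5a_totT, add_zero, add_zero]

theorem B5a_ht (θ : ℤ × ℤ) {x G : List L} {p : ℕ} (hp : p ≤ x.length) (hG : G.length = 4) (P : ℕ) :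
    ht θ (ins x p G) P = ht θ x (min P p + (P - (p + 4))) + ht θ G (P - p) := by
  rw [ins, ht_append, ht_append, ht_drop, List.length_append, List.length_take_of_le hp, hG]
  rcases le_total P p with h | h
  · rw [ht_take _ _ _ _ h, min_eq_left h, show P - (p + 4) = 0 by omega]
    simp
  · have a1 : tot θ (x.take p) = ht θ x p := rfl
    rw [ht_of_le _ _ _ (by rwa [List.length_take_of_le hp]), min_eq_right h, a1]
    ring

theorem B5a_two {a b : ℕ} (hab : a < b) : ∃ π ι : ℕ → ℕ, Monotone π ∧ StrictMono ι ∧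
    (∀ i, ι i ≤ i + 8 ∧ π (ι i) = i ∧ (ι i ≤ a ∨ a + 4 ≤ ι i) ∧ (ι i ≤ b + 4 ∨ b + 8 ≤ ι i)) ∧
    (∀ P, (π P ≤ b ∨ π P + 8 = P) ∧ (a ≤ P → P ≤ a + 4 → π P = a) ∧
      (b + 4 ≤ P → P ≤ b + 8 → π P = b)) ∧
    ∀ (θ : ℤ × ℤ) (x G₁ G₂ : List L), b ≤ x.length → G₁.length = 4 → G₂.length = 4 → ∀ P,
      ht θ (ins (ins x b G₂) a G₁) P = ht θ x (π P) + (ht θ G₁ (P - a) + ht θ G₂ (P - (b + 4))) := by
  refine ⟨fun P => min P a + min (P - (a + 4)) (b - a) + (P - (b + 8)),
    fun i => if i ≤ a then i else if i ≤ b then i + 4 else i + 8, fun P Q h => ?_, fun i j h => ?_,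
    fun i => ?_, fun P => ?_, fun θ x G₁ G₂ hb h1 h2 P => ?_⟩
  · dsimp only
    omega
  · dsimp only
    split_ifs <;> omega
  · dsimp only
    split_ifs <;> omega
  · dsimp only
    omega
  · rw [B5a_ht θ (by rw [ins_length]; omega) h1, B5a_ht θ hb h2]
    have a1 : min P a + (P - (a + 4)) - b = P - (b + 4) := by omega
    have a2 : min (min P a + (P - (a + 4))) b + (min P a + (P - (a + 4)) - (b + 4)) =
        min P a + min (P - (a + 4)) (b - a) + (P - (b + 8)) := by omega
    rw [a1, a2]
    ring

theorem B5a_off (k : ℕ) (hk : 1 ≤ k) (j : ℕ) :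
    ht (dir k) gadT j = -ht (dir k) gadB j ∧ ht (dir k) gadB j ≤ 0 ∧
      (j = 0 ∨ 4 ≤ j → ht (dir k) gadB j = 0) ∧ (j = 2 → ht (dir k) gadB j = -((k : ℤ) + 1)) ∧
      (j ≠ 2 → -((k : ℤ) + 1) < ht (dir k) gadB j) := by
  rcases le_or_gt 4 j with h | h
  · rw [ht_of_le _ gadB j h, ht_of_le _ gadT j h, B5a_totB, B5a_totT]
    omega
  · interval_cases j <;> simp [ht, wt, dir, gadB, gadT] <;> omega

/-- projection `π` of the vertices of `sw x p q` to those of `x`, section `ι`, offset `o` -/
theorem sw_struct (k : ℕ) (hk : 1 ≤ k) (x : List L) (p q : ℕ) (hp : p < x.length) (hq : q < x.length)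
    (hpq : p ≠ q) :
    ∃ (π ι : ℕ → ℕ) (o : ℕ → ℤ), Monotone π ∧ StrictMono ι ∧
      (∀ i < x.length, ι i < x.length + 8 ∧ π (ι i) = i ∧ o (ι i) = 0) ∧
      (∀ P < x.length + 8, π P < x.length ∧
        ht (dir k) (sw x p q) P = ht (dir k) x (π P) + o P ∧
        (π P ≠ p → 0 ≤ o P) ∧ (π P ≠ q → o P ≤ 0) ∧
        (P = (if p < q then p + 2 else p + 6) ∨ -((k : ℤ) + 1) < o P) ∧
        (P = (if p < q then q + 6 else q + 2) ∨ o P < (k : ℤ) + 1)) ∧
      π (if p < q then p + 2 else p + 6) = p ∧ o (if p < q then p + 2 else p + 6) = -((k : ℤ) + 1) ∧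
      π (if p < q then q + 6 else q + 2) = q ∧ o (if p < q then q + 6 else q + 2) = (k : ℤ) + 1 := by
  have hB : gadB.length = 4 := rfl
  have hT : gadT.length = 4 := rfl
  by_cases h : p < q
  · obtain ⟨π, ι, h1, h2, h3, h4, h5⟩ := B5a_two h
    simp only [sw, if_pos h]
    refine ⟨π, ι, fun P => ht (dir k) gadB (P - p) + ht (dir k) gadT (P - (q + 4)), h1, h2,
      fun i hi => ?_, fun P hP => ?_, ?_⟩
    · have := h3 i
      have := B5a_off k hk (ι i - p)
      have := B5a_off k hk (ι i - (q + 4))
      dsimp only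
      omega
    · have := h4 P
      have := h5 (dir k) x _ _ hq.le hB hT P
      have := B5a_off k hk (P - p)
      have := B5a_off k hk (P - (q + 4))
      dsimp only
      omega
    · have := h4 (p + 2)
      have := h4 (q + 6)
      have := B5a_off k hk (p + 2 - p)
      have := B5a_off k hk (p + 2 - (q + 4))
      have := B5a_off k hk (q + 6 - p)
      have := B5a_off k hk (q + 6 - (q + 4))
      dsimp only
      omega
  · obtain ⟨π, ι, h1, h2, h3, h4, h5⟩ := B5a_two (show q < p by omega)
    simp only [sw, if_neg h]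
    refine ⟨π, ι, fun P => ht (dir k) gadT (P - q) + ht (dir k) gadB (P - (p + 4)), h1, h2,
      fun i hi => ?_, fun P hP => ?_, ?_⟩
    · have := h3 i
      have := B5a_off k hk (ι i - q)
      have := B5a_off k hk (ι i - (p + 4))
      dsimp only
      omega
    · have := h4 P
      have := h5 (dir k) x _ _ hp.le hT hB P
      have := B5a_off k hk (P - q)
      have := B5a_off k hk (P - (p + 4))
      dsimp only
      omega
    · have := h4 (q + 2)
      have := h4 (p + 6)
      have := B5a_off k hk (q + 2 - q)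
      have := B5a_off k hk (q + 2 - (p + 4))
      have := B5a_off k hk (p + 6 - q)
      have := B5a_off k hk (p + 6 - (p + 4))
      dsimp only
      omega

theorem B5a_chr {x G : List L} {p : ℕ} (hp : p ≤ x.length) (hG : G.length = 4) :
    (∀ i < p, chr (ins x p G) i = chr x i) ∧ (∀ j < 4, chr (ins x p G) (p + j) = chr G j) ∧
      ∀ i, p ≤ i → i < x.length → chr (ins x p G) (i + 4) = chr x i := by
  have a1 : (x.take p).length = p := List.length_take_of_le hp
  have a2 : (ins x p G).length = x.length + 4 := by rw [ins_length, hG]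
  refine ⟨fun i hi => ?_, fun j hj => ?_, fun i h1 h2 => ?_⟩
  · rw [chr, chr, Nat.mod_eq_of_lt (by omega), Nat.mod_eq_of_lt (by omega), ins, List.append_assoc,
      List.getD_append _ _ _ _ (by omega), List.getD_eq_getElem?_getD, List.getD_eq_getElem?_getD,
      List.getElem?_take_of_lt hi]
  · rw [chr, chr, Nat.mod_eq_of_lt (by omega), Nat.mod_eq_of_lt (by omega), ins, List.append_assoc,
      List.getD_append_right _ _ _ _ (by omega), List.getD_append _ _ _ _ (by omega), a1,
      Nat.add_sub_cancel_left]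
  · rw [chr, chr, Nat.mod_eq_of_lt (by omega), Nat.mod_eq_of_lt h2, ins,
      List.getD_append_right _ _ _ _ (by rw [List.length_append]; omega), List.length_append, a1, hG,
      List.getD_eq_getElem?_getD, List.getD_eq_getElem?_getD, List.getElem?_drop,
      show p + (i + 4 - (p + 4)) = i by omega]

theorem B5a_ne {a b : L} (h : a.2 = b.2) : a ≠ inv b := fun k => by
  have := congrArg Prod.snd k
  rw [h] at this
  simp [inv] at this

theorem B5a_cyc {x G : List L} {p : ℕ} (hx : FreeGroup.IsCyclicallyReduced x) (hp : p < x.length)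
    (hG : G.length = 4) (hG' : ∀ j < 3, chr G (j + 1) ≠ inv (chr G j))
    (h1 : (chr G 0).2 = (chr x (p + x.length - 1)).2) (h2 : (chr x p).2 = (chr G 3).2) :
    FreeGroup.IsCyclicallyReduced (ins x p G) := by
  have a2 : (ins x p G).length = x.length + 4 := by rw [ins_length, hG]
  rw [cyc_iff _ (List.ne_nil_of_length_pos (by omega))] at hx ⊢
  obtain ⟨c1, c2, c3⟩ := B5a_chr hp.le hG
  have key : ∀ i < x.length + 4, chr (ins x p G) (i + 1) ≠ inv (chr (ins x p G) i) := fun i hi => by
    rcases (by omega : i + 1 < p ∨ i + 1 = p ∨ (p ≤ i ∧ i < p + 3) ∨ i = p + 3 ∨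
      (p + 4 ≤ i ∧ i < x.length + 3) ∨ i = x.length + 3) with h | h | h | h | h | h
    · rw [c1 _ h, c1 _ (by omega)]
      exact hx i
    · rw [c1 i (by omega), show i + 1 = p + 0 by omega, c2 0 (by omega), ← chr_add_length x i,
        show i + x.length = p + x.length - 1 by omega]
      exact B5a_ne h1
    · obtain ⟨j, rfl⟩ := Nat.exists_eq_add_of_le h.1
      rw [add_assoc, c2 _ (by omega), c2 _ (by omega)]
      exact hG' j (by omega)
    · rw [h, c2 3 (by omega), c3 p le_rfl hp]
      exact B5a_ne h2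
    · obtain ⟨j, rfl⟩ : ∃ j, i = j + 4 := ⟨i - 4, by omega⟩
      rw [add_right_comm, c3 _ (by omega) (by omega), c3 _ (by omega) (by omega)]
      exact hx j
    · have a3 := chr_add_length (ins x p G) 0
      rw [a2, zero_add] at a3
      rw [h, a3, show x.length + 3 = x.length - 1 + 4 by omega, c3 _ (by omega) (by omega)]
      rcases Nat.eq_zero_or_pos p with k | k
      · have a4 := c2 0 (by omega)
        rw [k] at h1 a4
        rw [k, a4]
        exact B5a_ne (by simpa using h1)
      · have a4 := hx (x.length - 1)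
        rwa [show x.length - 1 + 1 = 0 + x.length by omega, chr_add_length, ← c1 0 k] at a4
  intro i
  have a5 := key (i % (x.length + 4)) (Nat.mod_lt _ (by omega))
  simpa only [chr, a2, Nat.mod_mod, Nat.mod_add_mod] using a5

theorem B5a_keep {x G : List L} {a b : ℕ} (hab : a < b) (hb : b < x.length) (hG : G.length = 4) :
    chr (ins x b G) a = chr x a ∧
      chr (ins x b G) (a + (ins x b G).length - 1) = chr x (a + x.length - 1) := by
  obtain ⟨c1, -, c3⟩ := B5a_chr hb.le hG
  refine ⟨c1 a hab, ?_⟩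
  rcases a with _ | a
  · rw [ins_length, hG, show 0 + (x.length + 4) - 1 = 0 + x.length - 1 + 4 by omega,
      c3 _ (by omega) (by omega)]
  · have e : ∀ n, a + 1 + n - 1 = a + n := fun n => by omega
    rw [e, e, chr_add_length, chr_add_length, c1 a (by omega)]

theorem sw_cyc {θ : ℤ × ℤ} (h1 : 0 < θ.1) (h2 : 0 < θ.2) {x : List L} {p q : ℕ}
    (hx : FreeGroup.IsCyclicallyReduced x) (h : IsMax θ x p q) (hM : Marg θ 1 x) :
    FreeGroup.IsCyclicallyReduced (sw x p q) := by
  obtain ⟨s1, s2, s3, s4⟩ := max_signs h1 h2 h hM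
  obtain ⟨hp, hq, hpq, -⟩ := h
  have hB : ∀ j < 3, chr gadB (j + 1) ≠ inv (chr gadB j) := by decide +kernel
  have hT : ∀ j < 3, chr gadT (j + 1) ≠ inv (chr gadT j) := by decide +kernel
  unfold sw
  split_ifs with k
  · obtain ⟨k1, k2⟩ := B5a_keep (G := gadT) k hq rfl
    exact B5a_cyc (B5a_cyc hx hq rfl hT s4.symm s3) (by rw [ins_length]; omega) rfl hB
      (by rw [k2, s2]; rfl) (by rw [k1, s1]; rfl)
  · obtain ⟨k1, k2⟩ := B5a_keep (G := gadB) (show q < p by omega) hp rfl
    exact B5a_cyc (B5a_cyc hx hp rfl hB s2.symm s1) (by rw [ins_length]; omega) rfl hT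
      (by rw [k2, s4]; rfl) (by rw [k1, s3]; rfl)

end Pool.Agent.Work.MP_c2f093_al.Gen
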