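import Pool.Agent.Work.MP_c2f093_al.Gen.H
import Pool.Agent.Work.MP_c2f093_al.Gen.B5a

-- merged part: Pool.Agent.Work.MP_c2f093_al.Gen.A6a
section
/-!
The expansion of a cyclic word: every letter is replaced by its two halves.
-/

namespace Pool.Agent.Work.MP_c2f093_al.Gen

open Finset

/-- the letter at the position `j` of the expanded word -/
def ex (x : List L) (j : ℕ) : L × Bool := if j % 2 = 0 then fst (chr x (j / 2)) else snd (chr x (j / 2))

/-- the expanded cyclic word -/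
def ey (x : List L) (N : ℕ) : ZMod N → L × Bool := fun j => ex x j.val

lemma A6_chr_congr (x : List L) {i i' : ℕ} (h : i % x.length = i' % x.length) : chr x i = chr x i' := by
  simp only [chr, h]

lemma A6_ex_mod (x : List L) (j : ℕ) : ex x (j % (2 * x.length)) = ex x j := by
  have h1 : j % (2 * x.length) % 2 = j % 2 := Nat.mod_mul_right_mod j 2 x.length
  have h2 : j % (2 * x.length) / 2 = j / 2 % x.length := Nat.mod_mul_right_div_self j 2 x.length
  simp only [ex, h1, h2, H_chr_mod]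

lemma A6_ey_cast (x : List L) (j : ℕ) : ey x (2 * x.length) (j : ZMod (2 * x.length)) = ex x j := by
  simp only [ey, ZMod.val_natCast, A6_ex_mod]

lemma A6_range_chr (x : List L) : (List.range x.length).map (chr x) = x := by
  apply List.ext_getElem (by simp)
  intro i h1 h2
  simp only [List.getElem_map, List.getElem_range]
  exact chr_of_lt x i h2

lemma A6_range_ex (x : List L) (k : ℕ) :
    (List.range (2 * k)).map (ex x) = ((List.range k).map (chr x)).flatMap fun e => [fst e, snd e] := by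
  induction k with
  | zero => simp
  | succ k ih =>
    rw [show 2 * (k + 1) = 2 * k + 1 + 1 by ring, List.range_succ, List.range_succ, List.range_succ,
      List.map_append, List.map_append, ih, List.map_append, List.flatMap_append]
    have h1 : (2 * k + 1) / 2 = k := by omega
    have h2 : (2 * k + 1) % 2 = 1 := by omega
    simp [ex, h1, h2]

lemma A6_word (x : List L) : word (ey x (2 * x.length)) = dbl (FreeGroup.mk x) := by
  rw [dbl_mk, word]
  simp only [A6_ey_cast]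
  have := A6_range_ex x x.length
  rw [A6_range_chr] at this
  rw [← this]

lemma A6_fst_snd (u w : L) (h : (fst u).1 = (snd w).1) : u = inv w := by
  revert u w; decide

lemma A6_fst_ne_snd (u : L) : (fst u).1 ≠ (snd u).1 := by
  revert u; decide

lemma A6_cycRed (x : List L) (hx0 : x ≠ []) (hx : FreeGroup.IsCyclicallyReduced x)
    [NeZero (2 * x.length)] : CycRed (ey x (2 * x.length)) := by
  intro j
  have hc := (cyc_iff x hx0).1 hx
  have e1 : j = ((j.val : ℕ) : ZMod (2 * x.length)) := (ZMod.natCast_zmod_val j).symm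
  have e2 : j + 1 = ((j.val + 1 : ℕ) : ZMod (2 * x.length)) := by
    rw [Nat.cast_add, ← e1, Nat.cast_one]
  rw [e2, A6_ey_cast]
  simp only [ey]
  generalize j.val = m
  intro h
  exfalso
  rcases Nat.mod_two_eq_zero_or_one m with hm | hm
  · have h1 : (m + 1) % 2 = 1 := by omega
    have h2 : (m + 1) / 2 = m / 2 := by omega
    simp only [ex, hm, h1, h2, if_true, one_ne_zero, if_false] at h
    exact A6_fst_ne_snd _ h
  · have h1 : (m + 1) % 2 = 0 := by omega
    have h2 : (m + 1) / 2 = m / 2 + 1 := by omega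
    simp only [ex, hm, h1, h2, if_true, one_ne_zero, if_false] at h
    exact hc _ (A6_fst_snd _ _ h.symm)

/-- two positions with the same generator and the same cut vertex coincide -/
lemma A6_uniq (x : List L) (hx0 : x ≠ []) (hx : FreeGroup.IsCyclicallyReduced x) {j j' : ℕ}
    (hc : (j + 1) / 2 % x.length = (j' + 1) / 2 % x.length) (hg : (ex x j).1 = (ex x j').1) :
    (j : ZMod (2 * x.length)) = (j' : ZMod (2 * x.length)) := by
  have hcr := (cyc_iff x hx0).1 hx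
  have key : ∀ j j' : ℕ, (j + 1) / 2 % x.length = (j' + 1) / 2 % x.length →
      (ex x j).1 = (ex x j').1 → j % 2 = 0 → j' % 2 = 1 → False := by
    intro j j' hc hg h0 h1
    simp only [ex, h0, h1, if_true, one_ne_zero, if_false] at hg
    have e1 : (j + 1) / 2 = j / 2 := by omega
    have e2 : (j' + 1) / 2 = j' / 2 + 1 := by omega
    rw [e1, e2] at hc
    rw [A6_chr_congr x hc] at hg
    exact hcr _ (A6_fst_snd _ _ hg)
  have hpar : j % 2 = j' % 2 := by
    rcases Nat.mod_two_eq_zero_or_one j with h | h <;> rcases Nat.mod_two_eq_zero_or_one j' with h' | h'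
    · omega
    · exact (key j j' hc hg h h').elim
    · exact (key j' j hc.symm hg.symm h' h).elim
    · omega
  have h2 : 2 * ((j + 1) / 2) ≡ 2 * ((j' + 1) / 2) [MOD 2 * x.length] := Nat.ModEq.mul_left' 2 hc
  have h3 : ((2 * ((j + 1) / 2) : ℕ) : ZMod (2 * x.length)) = (2 * ((j' + 1) / 2) : ℕ) :=
    (ZMod.natCast_eq_natCast_iff _ _ _).2 h2
  have e1 : 2 * ((j + 1) / 2) = j + j % 2 := by omega
  have e2 : 2 * ((j' + 1) / 2) = j' + j % 2 := by omega
  rw [e1, e2, Nat.cast_add, Nat.cast_add] at h3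
  exact add_right_cancel h3

lemma A6_sum {N : ℕ} [NeZero N] (f : ZMod N → ℤ) (i : ZMod N) :
    ∑ j, f j = ∑ k ∈ range N, f (i + (k : ZMod N)) := by
  rw [← Equiv.sum_comp (Equiv.addLeft i)]
  symm
  refine Finset.sum_bij (fun t _ => (t : ZMod N)) (fun _ _ => mem_univ _) ?_ ?_ (fun _ _ => rfl)
  · intro a ha b hb hab
    have := congrArg ZMod.val hab
    rwa [ZMod.val_cast_of_lt (mem_range.1 ha), ZMod.val_cast_of_lt (mem_range.1 hb)] at this
  · intro b _
    exact ⟨b.val, mem_range.2 (ZMod.val_lt b), ZMod.natCast_zmod_val b⟩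

lemma A6_dg_arc {ι : Type} {N : ℕ} [NeZero N] (l r : ι → ℤ) (y : ZMod N → ι × Bool) (i : ZMod N)
    (g : ℕ) (hg : g ≤ N) : dg l r y (Arc i g) =
      ∑ k ∈ range g, (rw' l r (y (i + (k : ZMod N))) + lw l r (y (i + (k : ZMod N) + 1))) := by
  rw [dg, sum_add_distrib, ← Equiv.sum_comp (Equiv.addRight 1), ← sum_add_distrib, A6_sum _ i]
  simp only [Equiv.coe_addRight]
  have hsub : range g ⊆ range N := range_subset_range.2 hg
  rw [← sum_subset hsub]
  · refine sum_congr rfl fun k hk => ?_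
    have hk' := mem_range.1 hk
    rw [A3_arc i g (show k < N by omega)]
    simp [hk', add_comm]
  · intro k hk hk'
    rw [A3_arc i g (mem_range.1 hk)]
    have : ¬ k < g := fun h => hk' (mem_range.2 h)
    simp [this]

/-- types of the half generators -/
def tyA : L → Option Bool := fun i => if i = (0, false) then some true else
  if i = (0, true) then some false else none

/-- weights of the half generators -/
def rA (θ : ℤ × ℤ) : L → ℤ := fun i => if i.2 then 0 else if i.1 = 0 then θ.1 else θ.2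

lemma A6_step (θ : ℤ × ℤ) (x : List L) (hx0 : x ≠ []) (j : ℕ) :
    rw' (fun _ => 0) (rA θ) (ex x j) + lw (fun _ => 0) (rA θ) (ex x (j + 1)) =
      hp θ x ((j + 1 + 1) / 2) - hp θ x ((j + 1) / 2) := by
  rcases Nat.mod_two_eq_zero_or_one j with hm | hm
  · have h1 : (j + 1) % 2 = 1 := by omega
    have h2 : (j + 1) / 2 = j / 2 := by omega
    have h3 : (j + 1 + 1) / 2 = j / 2 + 1 := by omega
    rw [h3, hp_succ θ x hx0]
    simp only [ex, hm, h1, h2, if_true, one_ne_zero, if_false]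
    rcases chr x (j / 2) with ⟨a, _ | _⟩ <;> simp [fst, snd, rw', lw, rA, wt]
  · have h1 : (j + 1) % 2 = 0 := by omega
    have h3 : (j + 1 + 1) / 2 = (j + 1) / 2 := by omega
    rw [h3]
    simp only [ex, hm, h1, if_true, one_ne_zero, if_false]
    rcases chr x (j / 2) with ⟨a, _ | _⟩ <;> rcases chr x ((j + 1) / 2) with ⟨b, _ | _⟩ <;>
      simp [fst, snd, rw', lw, rA]

lemma A6_dg (θ : ℤ × ℤ) (x : List L) (hx0 : x ≠ []) [NeZero (2 * x.length)] (j g : ℕ)
    (hg : g ≤ 2 * x.length) :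
    dg (fun _ => 0) (rA θ) (ey x (2 * x.length)) (Arc (j : ZMod (2 * x.length)) g) =
      hp θ x ((j + g + 1) / 2) - hp θ x ((j + 1) / 2) := by
  rw [A6_dg_arc _ _ _ _ _ hg]
  have : ∀ k : ℕ, rw' (fun _ => 0) (rA θ) (ey x (2 * x.length) ((j : ZMod (2 * x.length)) + (k : ℕ))) +
      lw (fun _ => 0) (rA θ) (ey x (2 * x.length) ((j : ZMod (2 * x.length)) + (k : ℕ) + 1)) =
      hp θ x ((j + (k + 1) + 1) / 2) - hp θ x ((j + k + 1) / 2) := by
    intro k
    have e1 : (j : ZMod (2 * x.length)) + (k : ℕ) = ((j + k : ℕ) : ZMod (2 * x.length)) := by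
      push_cast; rfl
    have e2 : ((j + k : ℕ) : ZMod (2 * x.length)) + 1 = ((j + k + 1 : ℕ) : ZMod (2 * x.length)) := by
      push_cast; rfl
    rw [e1, e2, A6_ey_cast, A6_ey_cast, A6_step θ x hx0, add_assoc j k 1]
  simp only [this]
  exact sum_range_sub (fun k => hp θ x ((j + k + 1) / 2)) g

lemma A6_te3 {u v : F2} (h : TE u v) : TE3 (dbl u) (dbl v) := by
  intro ρ
  let e : I3 ≃ Fin 3 := Fintype.equivFinOfCardEq (by simp)
  have htr : ∀ A : N3, (Matrix.reindexAlgEquiv ℂ ℂ e A).trace = A.trace := by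
    intro A
    simp only [Matrix.trace, Matrix.diag, Matrix.coe_reindexAlgEquiv, Matrix.reindex_apply,
      Matrix.submatrix_apply]
    exact Equiv.sum_comp e.symm (fun i => A i i)
  have := h (((Matrix.reindexAlgEquiv ℂ ℂ e).toAlgHom.toMonoidHom.comp ρ).comp dbl)
  rw [← htr, ← htr (ρ (dbl v))]
  exact this

end Pool.Agent.Work.MP_c2f093_al.Gen
end

-- merged part: Pool.Agent.Work.MP_c2f093_al.Gen.A6
section
/-!
A cyclically reduced word with a unique maximal arc is rigid.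
-/

namespace Pool.Agent.Work.MP_c2f093_al.Gen

open Finset

lemma A6_tyA_true {i : L} : tyA i = some true ↔ i = (0, false) := by
  revert i; decide

lemma A6_tyA_false {i : L} : tyA i = some false ↔ i = (0, true) := by
  revert i; decide

lemma A6_start (x : List L) (c : ℕ) (h1 : (chr x (c + 1)).2 = true) (h2 : (chr x c).2 = false)
    (h3 : chr x (c + 1) ≠ inv (chr x c)) :
    ∃ j, (j + 1) / 2 = c + 1 ∧ (ex x j).1 = (0, false) := by
  have key : ∀ u w : L, u.2 = true → w.2 = false → u ≠ inv w →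
      (fst u).1 = (0, false) ∨ (snd w).1 = (0, false) := by decide
  rcases key _ _ h1 h2 h3 with h | h
  · refine ⟨2 * (c + 1), by omega, ?_⟩
    have e1 : 2 * (c + 1) % 2 = 0 := by omega
    have e2 : 2 * (c + 1) / 2 = c + 1 := by omega
    simpa only [ex, e1, e2, if_true] using h
  · refine ⟨2 * c + 1, by omega, ?_⟩
    have e1 : (2 * c + 1) % 2 = 1 := by omega
    have e2 : (2 * c + 1) / 2 = c := by omega
    simpa only [ex, e1, e2, one_ne_zero, if_false] using h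

lemma A6_end (x : List L) (c : ℕ) (h1 : (chr x (c + 1)).2 = false) (h2 : (chr x c).2 = true)
    (h3 : chr x (c + 1) ≠ inv (chr x c)) :
    ∃ j, (j + 1) / 2 = c + 1 ∧ (ex x j).1 = (0, true) := by
  have key : ∀ u w : L, u.2 = false → w.2 = true → u ≠ inv w →
      (fst u).1 = (0, true) ∨ (snd w).1 = (0, true) := by decide
  rcases key _ _ h1 h2 h3 with h | h
  · refine ⟨2 * (c + 1), by omega, ?_⟩
    have e1 : 2 * (c + 1) % 2 = 0 := by omega
    have e2 : 2 * (c + 1) / 2 = c + 1 := by omega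
    simpa only [ex, e1, e2, if_true] using h
  · refine ⟨2 * c + 1, by omega, ?_⟩
    have e1 : (2 * c + 1) % 2 = 1 := by omega
    have e2 : (2 * c + 1) / 2 = c := by omega
    simpa only [ex, e1, e2, one_ne_zero, if_false] using h

lemma A6_mod_ne {n a d : ℕ} (hd : 0 < d) (hdn : d < n) : a % n ≠ (a + d) % n := by
  intro h
  have h1 : n ∣ a + d - a := (Nat.modEq_iff_dvd' (Nat.le_add_right a d)).1 h
  rw [Nat.add_sub_cancel_left] at h1
  exact absurd (Nat.le_of_dvd hd h1) (by omega)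

lemma A6_ext (θ : ℤ × ℤ) (h1 : 0 < θ.1) (h2 : 0 < θ.2) (x : List L)
    (hx : FreeGroup.IsCyclicallyReduced x) (hU : Uniq θ x) (hM : Marg θ 1 x) (ht : tot θ x ≤ 0)
    [NeZero (2 * x.length)] :
    ∃ M X0, Ext tyA (fun _ => 0) (rA θ) (ey x (2 * x.length)) M X0 := by
  obtain ⟨p, q, hp', hq, hpq, hu⟩ := hU
  have hmax : IsMax θ x p q := ⟨hp', hq, hpq, fun p' q' a b c => by
    rcases hu p' q' a b c with ⟨rfl, rfl⟩ | h
    · exact le_rfl
    · exact h.le⟩
  have hx0 : x ≠ [] := by rintro rfl; simp at hp'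
  have hcr := (cyc_iff x hx0).1 hx
  obtain ⟨s1, s2, s3, s4⟩ := max_signs h1 h2 hmax hM
  have hM1 := (hmax.marg hM).1
  obtain ⟨G, hG0, hGn, hGq⟩ : ∃ G, 0 < G ∧ G < x.length ∧ (p + x.length + G) % x.length = q := by
    rcases lt_or_gt_of_ne hpq with h | h
    · refine ⟨q - p, by omega, by omega, ?_⟩
      rw [show p + x.length + (q - p) = q + x.length by omega, Nat.add_mod_right, Nat.mod_eq_of_lt hq]
    · refine ⟨q + x.length - p, by omega, by omega, ?_⟩
      rw [show p + x.length + (q + x.length - p) = q + x.length + x.length by omega,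
        Nat.add_mod_right, Nat.add_mod_right, Nat.mod_eq_of_lt hq]
  have hpp : (p + x.length) % x.length = p := by rw [Nat.add_mod_right, Nat.mod_eq_of_lt hp']
  obtain ⟨j0, hj0, hg0⟩ := A6_start x (p + x.length - 1)
    (by rw [show p + x.length - 1 + 1 = p + x.length by omega, chr_add_length]; exact s1) s2 (hcr _)
  have c1 : chr x (p + x.length + G - 1 + 1) = chr x q := by
    apply A6_chr_congr
    rw [show p + x.length + G - 1 + 1 = p + x.length + G by omega, hGq, Nat.mod_eq_of_lt hq]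
  have c2 : chr x (p + x.length + G - 1) = chr x (q + x.length - 1) := by
    apply A6_chr_congr
    have : p + x.length + G - 1 + 1 ≡ q + x.length - 1 + 1 [MOD x.length] := by
      rw [show p + x.length + G - 1 + 1 = p + x.length + G by omega,
        show q + x.length - 1 + 1 = q + x.length by omega]
      unfold Nat.ModEq
      rw [hGq, Nat.add_mod_right, Nat.mod_eq_of_lt hq]
    exact Nat.ModEq.add_right_cancel' 1 this
  obtain ⟨j1, hj1, hg1⟩ := A6_end x (p + x.length + G - 1) (by rw [c1]; exact s3)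
    (by rw [c2]; exact s4) (hcr _)
  rw [show p + x.length - 1 + 1 = p + x.length by omega] at hj0
  rw [show p + x.length + G - 1 + 1 = p + x.length + G by omega] at hj1
  obtain ⟨g0, rfl⟩ : ∃ g0, j1 = j0 + g0 := ⟨j1 - j0, by omega⟩
  have hval : val θ x p q = hp θ x (p + x.length + G) - hp θ x (p + x.length) := by
    have := val_eq_hp θ x (p + x.length) G hGn
    rwa [hpp, hGq] at this
  refine ⟨val θ x p q, _, ext_of_arcs tyA (fun _ => 0) (rA θ) (ey x (2 * x.length)) (val θ x p q)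
    (by omega) (j0 : ZMod (2 * x.length)) g0 (by omega) (by omega) ?_ ?_ ?_ ?_ ?_⟩
  · rw [A6_ey_cast, A6_tyA_true, hg0]
  · rw [← Nat.cast_add, A6_ey_cast, A6_tyA_false, hg1]
  · rw [A6_dg θ x hx0 _ _ (by omega), hj0, hj1, hval]
  · have e : (fun _ => true) = Arc ((0 : ℕ) : ZMod (2 * x.length)) (2 * x.length) := by
      funext j
      simp [Arc, ZMod.val_lt]
    rw [e, A6_dg θ x hx0 _ _ le_rfl, show (0 + 2 * x.length + 1) / 2 = (0 + 1) / 2 + x.length by omega,
      hp_add_length]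
    linarith only [ht]
  · intro i g hg hgn hs he
    obtain ⟨j, rfl⟩ : ∃ j : ℕ, i = (j : ZMod (2 * x.length)) := ⟨i.val, (ZMod.natCast_zmod_val i).symm⟩
    rw [A6_ey_cast, A6_tyA_true] at hs
    rw [← Nat.cast_add, A6_ey_cast, A6_tyA_false] at he
    rw [A6_dg θ x hx0 _ _ hgn.le]
    obtain ⟨d, hd⟩ : ∃ d, (j + g + 1) / 2 = (j + 1) / 2 + d := ⟨(j + g + 1) / 2 - (j + 1) / 2, by omega⟩
    have hdn : d ≤ x.length := by omega
    rcases Nat.eq_zero_or_pos d with rfl | hd0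
    · right; rw [hd]; simp; omega
    rcases hdn.eq_or_lt with rfl | hdn
    · right; rw [hd, hp_add_length]; omega
    have hv := val_eq_hp θ x ((j + 1) / 2) d hdn
    have hn0 : 0 < x.length := by omega
    rcases hu _ _ (Nat.mod_lt _ hn0) (Nat.mod_lt _ hn0) (A6_mod_ne (a := (j + 1) / 2) hd0 hdn) with
      ⟨a1, a2⟩ | h
    · left
      have b1 := A6_uniq x hx0 hx (j := j) (j' := j0) (by rw [a1, hj0, hpp]) (by rw [hs, hg0])
      have b2 := A6_uniq x hx0 hx (j := j + g) (j' := j0 + g0) (by rw [hd, a2, hj1, hGq])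
        (by rw [he, hg1])
      refine ⟨b1, ?_⟩
      rw [Nat.cast_add, Nat.cast_add, b1] at b2
      have b3 := congrArg ZMod.val (add_left_cancel b2)
      rwa [ZMod.val_cast_of_lt hgn, ZMod.val_cast_of_lt (by omega)] at b3
    · right; rw [hd, ← hv]; exact h

lemma A6_main (θ : ℤ × ℤ) (h1 : 0 < θ.1) (h2 : 0 < θ.2) (x : List L)
    (hx : FreeGroup.IsCyclicallyReduced x) (hU : Uniq θ x) (hM : Marg θ 1 x) (ht : tot θ x ≤ 0) :
    Rigid (FreeGroup.mk x) := by
  have hx0 : x ≠ [] := by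
    obtain ⟨p, q, hp', -⟩ := hU
    rintro rfl; simp at hp'
  have : NeZero (2 * x.length) := ⟨by
    have := List.length_pos_iff.2 hx0
    omega⟩
  obtain ⟨M, X0, hE⟩ := A6_ext θ h1 h2 x hx hU hM ht
  have hy := A6_cycRed x hx0 hx
  intro v hv
  set w := FreeGroup.reduceCyclically v.toWord with hw
  have hwc : FreeGroup.IsCyclicallyReduced w :=
    FreeGroup.reduceCyclically.isCyclicallyReduced FreeGroup.isReduced_toWord
  have hvw : IsConj (FreeGroup.mk w) v := by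
    refine isConj_iff.2 ⟨FreeGroup.mk (FreeGroup.reduceCyclically.conjugator v.toWord), ?_⟩
    rw [FreeGroup.inv_mk, FreeGroup.mul_mk, FreeGroup.mul_mk, hw,
      FreeGroup.reduceCyclically.conj_conjugator_reduceCyclically, FreeGroup.mk_toWord]
  have h3 : TE3 (dbl (FreeGroup.mk x)) (dbl (FreeGroup.mk w)) :=
    A6_te3 (hv.trans (TE.of_isConj hvw).symm)
  rw [← A6_word x] at h3
  by_cases hw0 : w = []
  · exfalso
    rw [hw0, ← FreeGroup.one_eq_mk, map_one] at h3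
    exact not_te_one _ _ _ _ hy hE h3
  have : NeZero (2 * w.length) := ⟨by
    have := List.length_pos_iff.2 hw0
    omega⟩
  rw [← A6_word w] at h3
  have h4 := conj_of_ext _ _ _ _ _ hy (A6_cycRed w hw0 hwc) hE h3
  rw [A6_word, A6_word] at h4
  exact (isConj_of_dbl h4).trans hvw

/-- the automorphism inverting both generators -/
def flip2 : F2 →* F2 := FreeGroup.lift fun i => (FreeGroup.of i)⁻¹

lemma A6_flip_flip (u : F2) : flip2 (flip2 u) = u := by
  have : flip2.comp flip2 = MonoidHom.id _ := by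
    ext i; simp [flip2]
  exact DFunLike.congr_fun this u

lemma A6_flip_mk (x : List L) : flip2 (FreeGroup.mk x) = FreeGroup.mk (x.map inv) := by
  induction x with
  | nil => simp [← FreeGroup.one_eq_mk]
  | cons e x ih =>
    have e1 : ∀ (a : L) (l : List L), FreeGroup.mk (a :: l) = FreeGroup.mk [a] * FreeGroup.mk l :=
      fun a l => by rw [FreeGroup.mul_mk]; rfl
    rw [List.map_cons, e1, e1 (inv e), map_mul, ih]
    congr 1
    rcases e with ⟨a, _ | _⟩
    · simp [flip2, inv, FreeGroup.of]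
    · simp [flip2, inv, FreeGroup.of, FreeGroup.inv_mk, FreeGroup.invRev]

lemma A6_tot_inv (θ : ℤ × ℤ) (x : List L) : tot θ (x.map inv) = - tot θ x := by
  induction x with
  | nil => simp [tot]
  | cons e x ih =>
    simp only [tot, List.map_cons, List.sum_cons, wt_inv] at ih ⊢
    rw [ih]; ring

lemma A6_val_inv (θ : ℤ × ℤ) (x : List L) {p q : ℕ} (h : p ≠ q) :
    val θ (x.map inv) p q = val θ x q p - tot θ x := by
  have e : ∀ i, ht θ (x.map inv) i = - ht θ x i := fun i => by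
    have := A6_tot_inv θ (x.take i)
    rw [List.map_take] at this
    exact this
  simp only [val, e, A6_tot_inv]
  rcases lt_or_gt_of_ne h with h' | h'
  · rw [if_neg (by omega), if_pos h']; ring
  · rw [if_pos h', if_neg (by omega)]; ring

theorem thmA (θ : ℤ × ℤ) (h1 : 0 < θ.1) (h2 : 0 < θ.2) (x : List L)
    (hx : FreeGroup.IsCyclicallyReduced x) (hU : Uniq θ x) (hM : Marg θ 1 x) :
    Rigid (FreeGroup.mk x) := by
  rcases le_or_gt (tot θ x) 0 with ht | ht
  · exact A6_main θ h1 h2 x hx hU hM ht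
  have hx0 : x ≠ [] := by
    obtain ⟨p, q, hp', -⟩ := hU
    rintro rfl; simp at hp'
  have hchr : ∀ i, chr (x.map inv) i = inv (chr x i) := by
    intro i
    have hi : i % x.length < x.length := Nat.mod_lt _ (List.length_pos_iff.2 hx0)
    rw [← H_chr_mod x, ← H_chr_mod (x.map inv), List.length_map, chr_of_lt x _ hi,
      chr_of_lt _ _ (by simpa using hi), List.getElem_map]
  have hx' : FreeGroup.IsCyclicallyReduced (x.map inv) := by
    rw [cyc_iff _ (by simpa using hx0)]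
    intro i h
    rw [hchr, hchr] at h
    have := congrArg inv h
    rw [inv_inv', inv_inv'] at this
    exact (cyc_iff x hx0).1 hx i this
  have hU' : Uniq θ (x.map inv) := by
    obtain ⟨p, q, hp', hq, hpq, hu⟩ := hU
    refine ⟨q, p, by simpa using hq, by simpa using hp', hpq.symm, fun p' q' a b c => ?_⟩
    rw [List.length_map] at a b
    rw [A6_val_inv θ x c, A6_val_inv θ x hpq.symm]
    rcases hu q' p' b a c.symm with ⟨h, h'⟩ | h
    · exact Or.inl ⟨h', h⟩
    · right; linarith only [h]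
  have hM' : Marg θ 1 (x.map inv) := by
    obtain ⟨p, q, hp', hq, hpq, a, b⟩ := hM
    refine ⟨q, p, by simpa using hq, by simpa using hp', hpq.symm, ?_, ?_⟩
    · rw [A6_val_inv θ x hpq.symm]; linarith only [b]
    · rw [A6_val_inv θ x hpq.symm, A6_tot_inv]; linarith only [ht, b]
  have hR := A6_main θ h1 h2 _ hx' hU' hM' (by rw [A6_tot_inv]; linarith only [ht])
  rw [← A6_flip_mk] at hR
  intro v hv
  have := flip2.map_isConj (hR _ (hv.map flip2))
  rwa [A6_flip_flip, A6_flip_flip] at this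

end Pool.Agent.Work.MP_c2f093_al.Gen
end

-- merged part: Pool.Agent.Work.MP_c2f093_al.Gen.B1
section
/-!
Counting reduced words.
-/

namespace Pool.Agent.Work.MP_c2f093_al.Gen

open Finset

theorem mem_words {n : ℕ} {l : List L} : l ∈ words n ↔ l.length = n := by
  induction n generalizing l with
  | zero => simp [words]
  | succ n ih =>
    simp only [words, mem_image, mem_product, mem_univ, true_and, ih]
    constructor
    · rintro ⟨p, hp, rfl⟩
      simp [hp]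
    · intro h
      cases l with
      | nil => simp at h
      | cons a l => exact ⟨(a, l), by simpa using h, rfl⟩

theorem mem_red {n : ℕ} {l : List L} : l ∈ red n ↔ l.length = n ∧ FreeGroup.IsReduced l := by
  simp only [red, mem_filter, mem_words]

theorem mem_cyc {n : ℕ} {l : List L} :
    l ∈ cyc n ↔ l.length = n ∧ FreeGroup.IsCyclicallyReduced l := by
  simp only [cyc, mem_filter, mem_words]

theorem mem_cont {j : ℕ} {d : L} {l : List L} :
    l ∈ cont j d ↔ l.length = j ∧ FreeGroup.IsReduced (d :: l) := by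
  simp only [cont, mem_filter, mem_words]

theorem cyc_subset_red (n : ℕ) : cyc n ⊆ red n := by
  intro l h
  exact mem_red.2 ⟨(mem_cyc.1 h).1, (mem_cyc.1 h).2.1⟩

theorem cnt_le_card (S : Finset (List L)) (P : List L → Prop) : cnt S P ≤ S.card := by
  classical
  exact card_filter_le _ _

theorem cnt_mono {S S' : Finset (List L)} {P Q : List L → Prop} (hS : S ⊆ S')
    (h : ∀ x ∈ S, P x → Q x) : cnt S P ≤ cnt S' Q := by
  classical
  refine card_le_card fun x hx => ?_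
  rw [mem_filter] at hx ⊢
  exact ⟨hS hx.1, h x hx.1 hx.2⟩

theorem cnt_or_le (S : Finset (List L)) (P Q : List L → Prop) :
    cnt S (fun x => P x ∨ Q x) ≤ cnt S P + cnt S Q := by
  classical
  refine le_trans (card_le_card fun x hx => ?_) (card_union_le _ _)
  simp only [mem_filter, mem_union] at hx ⊢
  tauto

theorem cnt_exists_le {α : Type} (S : Finset (List L)) (I : Finset α) (P : α → List L → Prop) :
    cnt S (fun x => ∃ i ∈ I, P i x) ≤ ∑ i ∈ I, cnt S (P i) := by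
  classical
  refine le_trans (card_le_card fun x hx => ?_) card_biUnion_le
  simp only [mem_filter, mem_biUnion] at hx ⊢
  obtain ⟨h1, i, h2, h3⟩ := hx
  exact ⟨i, h2, h1, h3⟩

theorem cnt_cont_zero (d : L) (P : List L → Prop) : cnt (cont 0 d) P ≤ 1 := by
  refine (cnt_le_card _ _).trans (card_le_one.2 fun a ha b hb => ?_)
  rw [List.length_eq_zero_iff.1 (mem_cont.1 ha).1, List.length_eq_zero_iff.1 (mem_cont.1 hb).1]

theorem B1_split {S : Finset (List L)} {I : Finset L} {T : L → Finset (List L)}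
    (h : ∀ l, l ∈ S ↔ ∃ e ∈ I, ∃ l' ∈ T e, e :: l' = l) (P : List L → Prop) :
    cnt S P = ∑ e ∈ I, cnt (T e) fun l => P (e :: l) := by
  classical
  have e1 : S.filter P =
      I.biUnion fun e => ((T e).filter fun l => P (e :: l)).image (List.cons e) := by
    ext l
    simp only [mem_filter, mem_biUnion, mem_image, h]
    constructor
    · rintro ⟨⟨e, h1, l', h2, rfl⟩, h3⟩
      exact ⟨e, h1, l', ⟨h2, h3⟩, rfl⟩
    · rintro ⟨e, h1, l', ⟨h2, h3⟩, rfl⟩
      exact ⟨⟨e, h1, l', h2, rfl⟩, h3⟩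
  unfold cnt
  rw [e1, card_biUnion]
  · exact sum_congr rfl fun e _ => card_image_of_injective _ List.cons_injective
  · intro a _ b _ hab
    refine disjoint_left.2 fun l h1 h2 => hab ?_
    obtain ⟨x, -, rfl⟩ := mem_image.1 h1
    obtain ⟨y, -, h3⟩ := mem_image.1 h2
    exact (List.cons.inj h3).1.symm

theorem B1_nxt (d e : L) : e ∈ nxt d ↔ (d.1 = e.1 → d.2 = e.2) := by
  revert d e
  decide

theorem cnt_cont_succ (j : ℕ) (d : L) (P : List L → Prop) :
    cnt (cont (j + 1) d) P =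
      ∑ e ∈ nxt d, cnt (cont j e) fun l => P (e :: l) := by
  refine B1_split (fun l => ?_) P
  rw [mem_cont]
  constructor
  · rintro ⟨h1, h2⟩
    cases l with
    | nil => simp at h1
    | cons e l =>
      rw [FreeGroup.isReduced_cons_cons] at h2
      exact ⟨e, (B1_nxt d e).2 h2.1, l, mem_cont.2 ⟨by simpa using h1, h2.2⟩, rfl⟩
  · rintro ⟨e, h1, l, h2, rfl⟩
    rw [mem_cont] at h2
    exact ⟨by simp [h2.1], FreeGroup.isReduced_cons_cons.2 ⟨(B1_nxt d e).1 h1, h2.2⟩⟩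

theorem cnt_red_succ (j : ℕ) (P : List L → Prop) :
    cnt (red (j + 1)) P = ∑ e : L, cnt (cont j e) fun l => P (e :: l) := by
  refine B1_split (fun l => ?_) P
  rw [mem_red]
  constructor
  · rintro ⟨h1, h2⟩
    cases l with
    | nil => simp at h1
    | cons e l => exact ⟨e, mem_univ _, l, mem_cont.2 ⟨by simpa using h1, h2⟩, rfl⟩
  · rintro ⟨e, -, l, h2, rfl⟩
    rw [mem_cont] at h2
    exact ⟨by simp [h2.1], h2.2⟩

theorem card_nxt (d : L) : (nxt d).card = 3 := by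
  revert d
  decide

theorem B1_sum {M : Type} [AddCommGroup M] (d : L) (f : L → M) : ∑ e ∈ nxt d, f e =
    f (0, true) + f (0, false) + (f (1, true) + f (1, false)) - f (inv d) := by
  rw [nxt, filter_ne', sum_erase_eq_sub (mem_univ _), Fintype.sum_prod_type, Fin.sum_univ_two,
    Fintype.sum_bool, Fintype.sum_bool]

theorem sum_inc (θ : ℤ × ℤ) (d : L) : ∑ e ∈ nxt d, inc θ d e = 0 := by
  rw [B1_sum]
  obtain ⟨i, b⟩ := d
  fin_cases i <;> cases b <;> simp [inc, wt, inv] <;> ring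

theorem abs_wt_le {θ : ℤ × ℤ} {b : ℤ} (h1 : |θ.1| ≤ b) (h2 : |θ.2| ≤ b) (e : L) : |wt θ e| ≤ b := by
  unfold wt
  split_ifs <;> simpa

theorem abs_inc_le {θ : ℤ × ℤ} {b : ℤ} (h1 : |θ.1| ≤ b) (h2 : |θ.2| ≤ b) (d e : L) :
    |inc θ d e| ≤ 4 * b := by
  have a1 := abs_le.1 (abs_wt_le h1 h2 d)
  have a2 := abs_le.1 (abs_wt_le h1 h2 e)
  rw [inc, abs_le]
  constructor <;> linarith only [a1, a2, a1.1, a1.2, a2.1, a2.2]

/-- the variance of the increment in the direction `u • θ + u' • θ'` -/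
theorem sum_inc_sq (θ θ' : ℤ × ℤ) (u u' : ℝ) (d : L) :
    6 * ((u * θ.1 + u' * θ'.1) ^ 2 + (u * θ.2 + u' * θ'.2) ^ 2) ≤
      ∑ e ∈ nxt d, (u * (inc θ d e : ℝ) + u' * (inc θ' d e : ℝ)) ^ 2 := by
  rw [B1_sum]
  obtain ⟨i, b⟩ := d
  fin_cases i <;> cases b <;> simp [inc, wt, inv] <;>
    linarith only [sq_nonneg (u * θ.1 + u' * θ'.1), sq_nonneg (u * θ.2 + u' * θ'.2), sq_nonneg (u * ↑θ.2 + u' * ↑θ'.2), sq_nonneg (u * ↑θ.1 + u' * ↑θ'.1)]

theorem B1_true (S : Finset (List L)) : cnt S (fun _ => True) = S.card := by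
  simp [cnt]

theorem card_cont (j : ℕ) (d : L) : (cont j d).card = 3 ^ j := by
  induction j generalizing d with
  | zero =>
    have : cont 0 d = {[]} := by
      ext l
      rw [mem_cont, mem_singleton, List.length_eq_zero_iff]
      exact ⟨fun h => h.1, fun h => ⟨h, h ▸ FreeGroup.IsReduced.singleton⟩⟩
    rw [this, card_singleton, pow_zero]
  | succ j ih =>
    rw [← B1_true, cnt_cont_succ]
    simp only [B1_true, ih]
    rw [sum_const, card_nxt, smul_eq_mul, pow_succ']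

theorem card_red (j : ℕ) : (red (j + 1)).card = 4 * 3 ^ j := by
  rw [← B1_true, cnt_red_succ]
  simp [B1_true, card_cont]

theorem card_red_le (j : ℕ) : (red j).card ≤ 2 * 3 ^ j := by
  cases j with
  | zero =>
    refine le_trans (card_le_one.2 fun a ha b hb => ?_) (by norm_num)
    rw [List.length_eq_zero_iff.1 (mem_red.1 ha).1, List.length_eq_zero_iff.1 (mem_red.1 hb).1]
  | succ j =>
    rw [card_red, pow_succ]
    omega

theorem B1_take (j k : ℕ) (d : L) (P : List L → Prop) :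
    cnt (cont (j + k) d) (fun x => P (x.take k)) ≤ cnt (cont k d) P * 3 ^ j := by
  classical
  induction k generalizing d P with
  | zero =>
    by_cases h : P []
    · have h1 : 0 < cnt (cont 0 d) P :=
        card_pos.2 ⟨[], mem_filter.2 ⟨mem_cont.2 ⟨rfl, FreeGroup.IsReduced.singleton⟩, h⟩⟩
      exact ((cnt_le_card _ _).trans_eq (card_cont _ _)).trans (Nat.le_mul_of_pos_left _ h1)
    · simp [cnt, h]
  | succ k ih =>
    rw [← add_assoc, cnt_cont_succ, cnt_cont_succ, sum_mul]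
    exact sum_le_sum fun e _ => ih e fun l => P (e :: l)

theorem cnt_take (n k : ℕ) (h1 : 1 ≤ k) (h : k ≤ n) (P : List L → Prop) :
    cnt (red n) (fun x => P (x.take k)) ≤ cnt (red k) P * 3 ^ (n - k) := by
  obtain ⟨k, rfl⟩ : ∃ k', k = k' + 1 := ⟨k - 1, by omega⟩
  obtain ⟨j, rfl⟩ : ∃ j, n = j + k + 1 := ⟨n - (k + 1), by omega⟩
  rw [cnt_red_succ, cnt_red_succ, sum_mul, show j + k + 1 - (k + 1) = j by omega]
  exact sum_le_sum fun e _ => B1_take j k e fun l => P (e :: l)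

theorem cnt_pair (T : ℕ) (P Q : List L → Prop) :
    cnt (red (2 * T)) (fun x => P (FreeGroup.invRev (x.take T)) ∧ Q (x.drop T)) ≤
      cnt (red T) P * cnt (red T) Q := by
  classical
  unfold cnt
  rw [← card_product]
  refine card_le_card_of_injOn (fun x => (FreeGroup.invRev (x.take T), x.drop T))
    (fun x hx => ?_) fun x _ y _ h => ?_
  · simp only [coe_filter, Set.mem_ofPred_eq, mem_red] at hx
    obtain ⟨⟨h1, h2⟩, h3, h4⟩ := hx
    simp only [mem_coe, mem_product, mem_filter, mem_red]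
    refine ⟨⟨⟨?_, ?_⟩, h3⟩, ⟨?_, List.IsChain.drop h2 T⟩, h4⟩
    · rw [FreeGroup.invRev_length, List.length_take]
      omega
    · rw [FreeGroup.isReduced_iff_reduce_eq, FreeGroup.reduce_invRev,
        FreeGroup.IsReduced.reduce_eq (List.IsChain.take h2 T)]
    · rw [List.length_drop]
      omega
  · obtain ⟨h1, h2⟩ := Prod.mk.inj h
    rw [← List.take_append_drop T x, FreeGroup.invRev_injective h1, h2, List.take_append_drop]

theorem B1_rot (r : ℕ) {l : List L} (h : FreeGroup.IsCyclicallyReduced l) :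
    FreeGroup.IsCyclicallyReduced (l.rotate r) := by
  induction r generalizing l with
  | zero => simpa using h
  | succ r ih =>
    match l, h with
    | [], h => simp
    | [a], h => simp
    | a :: b :: l, h =>
      rw [List.rotate_cons_succ]
      refine ih (FreeGroup.isCyclicallyReduced_cons_append_iff.2 ?_)
      obtain ⟨h1, h2⟩ := h
      rw [FreeGroup.isReduced_cons_cons] at h1
      refine ⟨List.isChain_append.2 ⟨h1.2, List.isChain_singleton _, fun x hx y hy => ?_⟩, h1.1⟩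
      exact h2 x (by rwa [List.getLast?_cons_cons]) y hy

theorem cnt_rotate (n r : ℕ) (P : List L → Prop) :
    cnt (cyc n) (fun x => P (x.rotate r)) = cnt (cyc n) P := by
  classical
  have key : ∀ Q : List L → Prop, cnt (cyc n) (fun x => Q (x.rotate r)) ≤ cnt (cyc n) Q := by
    intro Q
    refine card_le_card_of_injOn (fun x => x.rotate r) (fun x hx => ?_)
      (List.rotate_injective r).injOn
    simp only [coe_filter, Set.mem_ofPred_eq, mem_cyc] at hx ⊢
    exact ⟨⟨(List.length_rotate _ _).trans hx.1.1, B1_rot r hx.1.2⟩, hx.2⟩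
  have tot : ∀ Q : List L → Prop, cnt (cyc n) Q + cnt (cyc n) (fun x => ¬ Q x) = (cyc n).card :=
    fun Q => by
      unfold cnt
      convert card_filter_add_card_filter_not (s := cyc n) Q
  have h1 := key P
  have h2 := key fun x => ¬ P x
  have h3 := tot P
  have h4 := tot fun x => P (x.rotate r)
  omega

end Pool.Agent.Work.MP_c2f093_al.Gen
end

-- merged part: Pool.Agent.Work.MP_c2f093_al.Gen.B5b
section
/-!
The word `sw x p q` has a unique maximal arc exactly in the chosen direction.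

With `π, ι, o` from `sw_struct` and `sw_tot`: for `P ≠ Q`,
`val (sw x p q) P Q = val x (π P) (π Q) + o Q - o P` if `π P ≠ π Q` (monotonicity of `π`), and if `π P = π Q` it is
`o Q - o P` or `tot + o Q - o P`, where `o Q - o P ≤ k + 1` (both offsets have the same sign since `p ≠ q`).
`sw_uniq`: the value at the two extreme vertices is `val x p q + 2 * (k + 1)`.
`sw_not_uniq`: let `V` be the maximal value for `x` (`exists_isMax`).  Since `p` and `q` are not `Near`, every arc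
of `x` with an endpoint in `{p, q}` has value at most `V - c`, so every arc of `sw x p q` has value at most `V`
(`2 * (k + 1) < c`, `IsMax.marg`; offsets vanish over other vertices).  As `x` is not `Uniq` there are two different
maximal arcs of `x`, and their images under `ι` are two different arcs of value `V`.
-/

namespace Pool.Agent.Work.MP_c2f093_al.Gen

open Finset Filter

theorem B5b_ne {θ : ℤ × ℤ} {x y : List L} {π : ℕ → ℕ} (hπ : Monotone π) (ht' : tot θ y = tot θ x)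
    {P Q : ℕ} {a b : ℤ} (hP : ht θ y P = ht θ x (π P) + a) (hQ : ht θ y Q = ht θ x (π Q) + b)
    (h : π P ≠ π Q) : val θ y P Q = val θ x (π P) (π Q) + b - a := by
  have e : Q < P ↔ π Q < π P :=
    ⟨fun h' => lt_of_le_of_ne (hπ h'.le) h.symm, fun h' => hπ.reflect_lt h'⟩
  unfold val
  rw [hP, hQ, ht']
  by_cases h' : Q < P
  · rw [if_pos h', if_pos (e.1 h')]
    ring
  · rw [if_neg h', if_neg fun h'' => h' (e.2 h'')]
    ring

theorem B5b_eq {θ : ℤ × ℤ} {x y : List L} {π : ℕ → ℕ} (ht' : tot θ y = tot θ x)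
    {P Q : ℕ} {a b V : ℤ} (hP : ht θ y P = ht θ x (π P) + a) (hQ : ht θ y Q = ht θ x (π Q) + b)
    (h : π P = π Q) (h0 : 0 ≤ V) (h1 : tot θ x ≤ V) : val θ y P Q ≤ V + b - a := by
  unfold val
  rw [hP, hQ, ht', h]
  split_ifs <;> omega

theorem sw_uniq (k : ℕ) (hk : 1 ≤ k) {x : List L} {p q : ℕ} (h : IsMax (dir k) x p q)
    (hM : Marg (dir k) 1 x) (P Q : ℕ) (hP : P < x.length + 8) (hQ : Q < x.length + 8) (hPQ : P ≠ Q) :
    (P = (if p < q then p + 2 else p + 6) ∧ Q = (if p < q then q + 6 else q + 2)) ∨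
      val (dir k) (sw x p q) P Q <
        val (dir k) (sw x p q) (if p < q then p + 2 else p + 6) (if p < q then q + 6 else q + 2) := by
  obtain ⟨hp, hq, hpq, hmax⟩ := id h
  obtain ⟨π, ι, o, hπ, -, -, hs, e1, e2, e3, e4⟩ := sw_struct k hk x p q hp hq hpq
  obtain ⟨m1, m2⟩ := h.marg hM
  generalize hA : (if p < q then p + 2 else p + 6) = A at *
  generalize hB : (if p < q then q + 6 else q + 2) = B at *
  have hA' : A < x.length + 8 := by rw [← hA]; split_ifs <;> omega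
  have hB' : B < x.length + 8 := by rw [← hB]; split_ifs <;> omega
  have hv := B5b_ne hπ (sw_tot (dir k) x p q) (hs A hA').2.1 (hs B hB').2.1 (by rwa [e1, e3])
  rw [e1, e2, e3, e4] at hv
  obtain ⟨p1, p2, p3, p4, p5, p6⟩ := hs P hP
  obtain ⟨q1, q2, q3, q4, q5, q6⟩ := hs Q hQ
  have a1 : -((k : ℤ) + 1) ≤ o P := by
    rcases p5 with r | r
    · rw [r, e2]
    · exact r.le
  have a2 : o Q ≤ (k : ℤ) + 1 := by
    rcases q6 with r | r
    · rw [r, e4]
    · exact r.le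
  by_cases hne : π P = π Q
  · have h1 := B5b_eq (V := val (dir k) x p q - 1) (sw_tot (dir k) x p q) p2 q2 hne (by omega)
      (by omega)
    exact Or.inr (by omega)
  · have h1 := B5b_ne hπ (sw_tot (dir k) x p q) p2 q2 hne
    have h2 := hmax _ _ p1 q1 hne
    rcases p5 with r | r
    · rcases q6 with r' | r'
      · exact Or.inl ⟨r, r'⟩
      · exact Or.inr (by omega)
    · exact Or.inr (by omega)

theorem sw_not_uniq (k : ℕ) (hk : 1 ≤ k) (c s : ℤ) (hc : 2 * ((k : ℤ) + 1) < c) (hs : (k : ℤ) + 1 ≤ s)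
    {x : List L} {p q : ℕ} (hp : p < x.length) (hq : q < x.length) (hpq : p ≠ q)
    (hM : Marg (dir k) s x) (hU : ¬ Uniq (dir k) x)
    (hnp : ¬ Near (dir k) c x p) (hnq : ¬ Near (dir k) c x q) : ¬ Uniq (dir k) (sw x p q) := by
  obtain ⟨π, ι, o, hπ, hι, hi, hs', -, e2, -, e4⟩ := sw_struct k hk x p q hp hq hpq
  obtain ⟨p₀, q₀, h⟩ := exists_isMax (dir k) x (by omega)
  obtain ⟨m1, m2⟩ := h.marg hM
  obtain ⟨hp₀, hq₀, hpq₀, hmax⟩ := h
  have hn : ∀ z, ¬ Near (dir k) c x z → ∀ a b, a < x.length → b < x.length → a ≠ b →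
      (a = z ∨ b = z) → val (dir k) x a b + c ≤ val (dir k) x p₀ q₀ := fun z hz a b ha hb hab h => by
    by_contra h'
    exact hz ⟨a, b, ha, hb, hab, h, fun p' q' h1 h2 h3 => (hmax p' q' h1 h2 h3).trans_lt (not_le.1 h')⟩
  have hle : ∀ P Q, P < x.length + 8 → Q < x.length + 8 →
      val (dir k) (sw x p q) P Q ≤ val (dir k) x p₀ q₀ := fun P Q hP hQ => by
    obtain ⟨p1, p2, p3, p4, p5, -⟩ := hs' P hP
    obtain ⟨q1, q2, q3, q4, -, q6⟩ := hs' Q hQ
    have a1 : -((k : ℤ) + 1) ≤ o P := by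
      rcases p5 with r | r
      · rw [r, e2]
      · exact r.le
    have a2 : o Q ≤ (k : ℤ) + 1 := by
      rcases q6 with r | r
      · rw [r, e4]
      · exact r.le
    by_cases hne : π P = π Q
    · have h1 := B5b_eq (V := val (dir k) x p₀ q₀ - s) (sw_tot (dir k) x p q) p2 q2 hne (by omega)
        (by omega)
      by_cases hPp : π P = p
      · have := q4 (by rw [← hne, hPp]; exact hpq)
        omega
      · have := p3 hPp
        omega
    · have h1 := B5b_ne hπ (sw_tot (dir k) x p q) p2 q2 hne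
      by_cases hPp : π P = p
      · have := hn p hnp _ _ p1 q1 hne (Or.inl hPp)
        omega
      · by_cases hQq : π Q = q
        · have := hn q hnq _ _ p1 q1 hne (Or.inr hQq)
          omega
        · have := hmax _ _ p1 q1 hne
          have := p3 hPp
          have := q4 hQq
          omega
  have himg : ∀ a b, a < x.length → b < x.length → a ≠ b →
      val (dir k) (sw x p q) (ι a) (ι b) = val (dir k) x a b := fun a b ha hb hab => by
    obtain ⟨a1, a2, a3⟩ := hi a ha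
    obtain ⟨b1, b2, b3⟩ := hi b hb
    have h1 := B5b_ne hπ (sw_tot (dir k) x p q) (hs' _ a1).2.1 (hs' _ b1).2.1 (by rwa [a2, b2])
    rw [h1, a2, b2, a3, b3]
    ring
  rintro ⟨P, Q, hP, hQ, -, hU'⟩
  rw [sw_length] at hP hQ hU'
  have key : ∀ a b, a < x.length → b < x.length → a ≠ b →
      val (dir k) x p₀ q₀ ≤ val (dir k) x a b → ι a = P ∧ ι b = Q := fun a b ha hb hab h => by
    refine (hU' _ _ (hi a ha).1 (hi b hb).1 (hι.injective.ne hab)).resolve_right fun h' => ?_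
    have := hle P Q hP hQ
    rw [himg a b ha hb hab] at h'
    omega
  obtain ⟨k1, k2⟩ := key p₀ q₀ hp₀ hq₀ hpq₀ le_rfl
  refine hU ⟨p₀, q₀, hp₀, hq₀, hpq₀, fun a b ha hb hab => ?_⟩
  rcases lt_or_ge (val (dir k) x a b) (val (dir k) x p₀ q₀) with h | h
  · exact Or.inr h
  · obtain ⟨k3, k4⟩ := key a b ha hb hab h
    exact Or.inl ⟨hι.injective (k3.trans k1.symm), hι.injective (k4.trans k2.symm)⟩

end Pool.Agent.Work.MP_c2f093_al.Gen
end

-- merged part: Pool.Agent.Work.MP_c2f093_al.Gen.B5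
section
/-!
The switching bound.  For `(k, x)` in `Icc 1 m ×ˢ (bad words)` choose a maximal arc `(p, q)` for `dir k`
(`exists_isMax`; `Marg` gives `2 ≤ x.length`) and map `(k, x)` to `sw x p q ∈ cyc (n + 8)` (`sw_cyc`).  The image is
`Uniq` for `dir k` (`sw_uniq`) and not for `dir k'`, `k' ≠ k` (`sw_not_uniq` with `c = 2 * m + 3`: `p` and `q` are
`Near` for `dir k`, so by `Sep` not for `dir k'`).  So the image determines `k`; two strict maximisers coincide, so it
determines the extreme vertices `(P, Q)` and from them `(p, q)` (`P < Q` iff `p < q`), and `sw_inj` gives `x`.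
-/

namespace Pool.Agent.Work.MP_c2f093_al.Gen

open Finset Filter

theorem B5_marg {θ : ℤ × ℤ} {s s' : ℤ} {x : List L} (h : Marg θ s x) (hs : s' ≤ s) :
    Marg θ s' x := by
  obtain ⟨p, q, h1, h2, h3, h4, h5⟩ := h
  exact ⟨p, q, h1, h2, h3, by omega, by omega⟩

theorem B5_ex {θ : ℤ × ℤ} {s : ℤ} {x : List L} (h : Marg θ s x) :
    ∃ z : ℕ × ℕ, IsMax θ x z.1 z.2 := by
  obtain ⟨p, q, h1, h2, h3, -⟩ := h
  obtain ⟨p', q', h⟩ := exists_isMax θ x (by omega)
  exact ⟨(p', q'), h⟩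

theorem B5_near {θ : ℤ × ℤ} {c : ℤ} (hc : 0 < c) {x : List L} {p q : ℕ} (h : IsMax θ x p q) :
    Near θ c x p ∧ Near θ c x q := by
  obtain ⟨h1, h2, h3, h4⟩ := h
  have h5 : ∀ p' q', p' < x.length → q' < x.length → p' ≠ q' →
      val θ x p' q' < val θ x p q + c := fun p' q' a b d => by
    have := h4 p' q' a b d
    omega
  exact ⟨⟨p, q, h1, h2, h3, Or.inl rfl, h5⟩, ⟨p, q, h1, h2, h3, Or.inr rfl, h5⟩⟩

theorem B5_uniq {k : ℕ} (hk : 1 ≤ k) {x : List L} {p q : ℕ} (h : IsMax (dir k) x p q)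
    (hM : Marg (dir k) 1 x) : Uniq (dir k) (sw x p q) := by
  have h1 := h.1
  have h2 := h.2.1
  have h3 := h.2.2.1
  refine ⟨if p < q then p + 2 else p + 6, if p < q then q + 6 else q + 2, ?_, ?_, ?_,
    fun P Q hP hQ hPQ => ?_⟩
  · rw [sw_length]; split_ifs <;> omega
  · rw [sw_length]; split_ifs <;> omega
  · split_ifs <;> omega
  · rw [sw_length] at hP hQ
    exact sw_uniq k hk h hM P Q hP hQ hPQ

theorem B5_same {k : ℕ} (hk : 1 ≤ k) {x x' : List L} {p q p' q' : ℕ} (h : IsMax (dir k) x p q)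
    (hM : Marg (dir k) 1 x) (h' : IsMax (dir k) x' p' q') (hM' : Marg (dir k) 1 x')
    (hl : x.length = x'.length) (e : sw x p q = sw x' p' q') : x = x' := by
  have h1 := h.1
  have h2 := h.2.1
  have h3 := h.2.2.1
  have h1' := h'.1
  have h2' := h'.2.1
  have h3' := h'.2.2.1
  have a := sw_uniq k hk h hM (if p' < q' then p' + 2 else p' + 6)
    (if p' < q' then q' + 6 else q' + 2) (by split_ifs <;> omega) (by split_ifs <;> omega)
    (by split_ifs <;> omega)
  have b := sw_uniq k hk h' hM' (if p < q then p + 2 else p + 6)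
    (if p < q then q + 6 else q + 2) (by split_ifs <;> omega) (by split_ifs <;> omega)
    (by split_ifs <;> omega)
  rw [← e] at b
  have c : p = p' ∧ q = q' := by
    rcases a with a | a
    · split_ifs at a <;> omega
    · rcases b with b | b
      · split_ifs at b <;> omega
      · exact absurd a (not_lt.2 b.le)
  obtain ⟨rfl, rfl⟩ := c
  exact sw_inj h1 h2 hl e

theorem switch (m n : ℕ) :
    cnt (cyc n) (fun x => (∀ k ∈ Icc 1 m, Marg (dir k) (2 * m + 2) x ∧ ¬ Uniq (dir k) x) ∧ Sep m x) * m ≤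
      (cyc (n + 8)).card := by
  classical
  have hch : ∀ (k : ℕ) (x : List L), ∃ z : ℕ × ℕ,
      Marg (dir k) (2 * m + 2) x → IsMax (dir k) x z.1 z.2 := fun k x => by
    by_cases h : Marg (dir k) (2 * m + 2) x
    · obtain ⟨z, hz⟩ := B5_ex h
      exact ⟨z, fun _ => hz⟩
    · exact ⟨(0, 0), fun h' => absurd h' h⟩
  choose z hz using hch
  have hm : (Icc 1 m).card = m := by simp
  rw [cnt, ← hm, ← card_product, hm]
  have h1 : (1 : ℤ) ≤ 2 * m + 2 := by omega
  refine card_le_card_of_injOn (fun u => sw u.1 (z u.2 u.1).1 (z u.2 u.1).2) ?_ ?_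
  · rintro ⟨x, k⟩ hu
    obtain ⟨hx, hk⟩ := mem_product.1 (mem_coe.1 hu)
    obtain ⟨hx, hP, -⟩ := (@mem_filter _ _ (_) _ _).1 hx
    obtain ⟨hl, hc⟩ := mem_cyc.1 hx
    have hk1 := (mem_Icc.1 hk).1
    refine mem_coe.2 (mem_cyc.2 ⟨by rw [sw_length, hl], ?_⟩)
    exact sw_cyc (θ := dir k) (by simp only [dir]; omega) (by simp only [dir]; omega) hc
      (hz k x (hP k hk).1) (B5_marg (hP k hk).1 h1)
  · rintro ⟨x, k⟩ hu ⟨x', k'⟩ hu' e
    obtain ⟨hx, hk⟩ := mem_product.1 (mem_coe.1 hu)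
    obtain ⟨hx, hP, hS⟩ := (@mem_filter _ _ (_) _ _).1 hx
    obtain ⟨hx', hk'⟩ := mem_product.1 (mem_coe.1 hu')
    obtain ⟨hx', hP', -⟩ := (@mem_filter _ _ (_) _ _).1 hx'
    have hl : x.length = x'.length := (mem_cyc.1 hx).1.trans (mem_cyc.1 hx').1.symm
    have a := hz k x (hP k hk).1
    have a' := hz k' x' (hP' k' hk').1
    obtain ⟨b1, b2⟩ := mem_Icc.1 hk'
    simp only at e a a' b1 b2 hk hk' hP hP' hS
    have hkk : k = k' := by
      by_contra hne
      have n := B5_near (c := 2 * m + 3) (by omega) a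
      refine sw_not_uniq k' b1 (2 * m + 3) (2 * m + 2) (by omega) (by omega) a.1 a.2.1 a.2.2.1
        (hP k' hk').1 (hP k' hk').2 (fun h => hS k hk k' hk' hne _ ⟨n.1, h⟩)
        (fun h => hS k hk k' hk' hne _ ⟨n.2, h⟩) ?_
      rw [e]
      exact B5_uniq b1 a' (B5_marg (hP' k' hk').1 h1)
    subst hkk
    rw [B5_same b1 a (B5_marg (hP k hk).1 h1) a' (B5_marg (hP' k hk).1 h1) hl e]

end Pool.Agent.Work.MP_c2f093_al.Gen
end

-- merged part: Pool.Agent.Work.MP_c2f093_al.Gen.B2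
section
/-!
A reduced word has a large draw-up with high probability.

Plan for `draw`.  State: the current draw-up `U : ℤ` (`0 ≤ U`) and the last letter `d`; a step by the letter `e`
replaces `U` by `max (U + wt θ e) 0`.  Put `B = 2 * s + 6 * b`, `V U d = 2 * U + wt θ d + 3 * b`.  Define the event
recursively, `Low U [] = (U < s)`, `Low U (e :: l) = (U < s ∧ Low (max (U + wt θ e) 0) l)`, and prove by induction on
`j` (with `cnt_cont_succ`), for every fixed `N`, all `j ≤ N`, all `0 ≤ U < s + b` and all `d`: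
`cnt (cont j d) (Low U) * (4 * N) ≤ 3 ^ j * (B ^ 2 - (V U d) ^ 2 + 4 * (N - j))`.
The right side is nonnegative since `0 ≤ V ≤ B`; if `s ≤ U` the count is `0`; for the case `j = 0` it is
at least `4 * N`; in the step `V U' e ≥ V U d + inc θ d e = 2 * U + 3 * wt θ e + 3 * b ≥ 0`, `sum_inc` and
`12 ≤ ∑ e ∈ nxt d, (inc θ d e) ^ 2` (`sum_inc_sq` with `u = 1`, `u' = 0`; both coordinates of `θ` are nonzero).
For a word `e :: l` of length `n` with the property, `Low 0 (l.take (n - 2))` holds (invariant: `U` is the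
maximum over `1 ≤ p ≤ q` of `ht q - ht p`); use `cnt_take` with `k = n - 1` and `cnt_red_succ`, `N = n - 2`.

Plan for `not_marg`: if `tot ≤ 0` use the pairs `(p, q)` with `p < q` (event of `draw` for `θ`), if `0 < tot` use the
pairs `(q, p)` (event of `draw` for `(-1) • θ`, `ht_smul`); `cnt_or_le`.
-/

namespace Pool.Agent.Work.MP_c2f093_al.Gen

open Finset Filter

/-- the draw-up, started at `U`, stays below `s` for `j` steps -/
def B2_Low (θ : ℤ × ℤ) (s U : ℤ) (j : ℕ) (l : List L) : Prop :=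
  ∀ q ≤ j, U + ht θ l q < s ∧ ∀ p ≤ q, ht θ l q - ht θ l p < s

theorem B2_step {θ : ℤ × ℤ} {s U : ℤ} {j : ℕ} {e : L} {l : List L}
    (h : B2_Low θ s U (j + 1) (e :: l)) : B2_Low θ s (max (U + wt θ e) 0) j l := by
  intro q hq
  obtain ⟨h1, h2⟩ := h (q + 1) (by omega)
  have h3 := h2 1 (by omega)
  rw [ht_cons_succ] at h1
  rw [ht_cons_succ, ht_cons_succ, ht_zero] at h3
  refine ⟨by omega, fun p hp => ?_⟩
  have h4 := h2 (p + 1) (by omega)
  rw [ht_cons_succ, ht_cons_succ] at h4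
  omega

theorem B2_sq (θ : ℤ × ℤ) (h1 : θ.1 ≠ 0) (h2 : θ.2 ≠ 0) (d : L) :
    12 ≤ ∑ e ∈ nxt d, inc θ d e ^ 2 := by
  have h := sum_inc_sq θ θ 1 0 d
  simp only [one_mul, zero_mul, add_zero] at h
  have h3 : 6 * (θ.1 ^ 2 + θ.2 ^ 2) ≤ ∑ e ∈ nxt d, inc θ d e ^ 2 := by exact_mod_cast h
  have h4 : 0 < θ.1 ^ 2 := by positivity
  have h5 : 0 < θ.2 ^ 2 := by positivity
  omega

theorem B2_main (θ : ℤ × ℤ) (h1 : θ.1 ≠ 0) (h2 : θ.2 ≠ 0) (b : ℤ) (hb1 : |θ.1| ≤ b)
    (hb2 : |θ.2| ≤ b) (s : ℤ) (N j : ℕ) (hj : j ≤ N) (U : ℤ) (h0 : 0 ≤ U) (hU : U < s + b) (d : L) :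
    (cnt (cont j d) (B2_Low θ s U j) : ℤ) * (4 * N) ≤
      3 ^ j * ((2 * s + 6 * b) ^ 2 - (2 * U + wt θ d + 3 * b) ^ 2 + 4 * ((N : ℤ) - j)) := by
  have hb : 0 ≤ b := (abs_nonneg _).trans hb1
  have hw := fun e => abs_le.1 (abs_wt_le hb1 hb2 e)
  induction j generalizing U d with
  | zero =>
    have k1 : (2 * U + wt θ d + 3 * b) ^ 2 ≤ (2 * s + 6 * b) ^ 2 :=
      pow_le_pow_left₀ (by have := hw d; omega) (by have := hw d; omega) 2
    have k2 : (cnt (cont 0 d) (B2_Low θ s U 0) : ℤ) ≤ 1 := by exact_mod_cast cnt_cont_zero d _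
    have k3 : (0 : ℤ) ≤ 4 * N := by positivity
    have k4 := mul_le_mul_of_nonneg_right k2 k3
    rw [pow_zero, Nat.cast_zero]
    linarith only [k1, k4]
  | succ j ih =>
    by_cases hs : s ≤ U
    · have k1 : (2 * U + wt θ d + 3 * b) ^ 2 ≤ (2 * s + 6 * b) ^ 2 :=
        pow_le_pow_left₀ (by have := hw d; omega) (by have := hw d; omega) 2
      have k2 : cnt (cont (j + 1) d) (B2_Low θ s U (j + 1)) = 0 := by
        classical
        unfold cnt
        rw [card_eq_zero]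
        refine filter_eq_empty_iff.2 fun l _ hl => ?_
        have h := (hl 0 (Nat.zero_le _)).1
        rw [ht_zero] at h
        omega
      have k3 : ((j + 1 : ℕ) : ℤ) ≤ N := by exact_mod_cast hj
      rw [k2, Nat.cast_zero, zero_mul]
      exact mul_nonneg (by positivity) (by linarith only [k1, k3])
    · have k1 : ∀ e ∈ nxt d,
          (cnt (cont j e) (fun l => B2_Low θ s U (j + 1) (e :: l)) : ℤ) * (4 * N) ≤
            3 ^ j * ((2 * s + 6 * b) ^ 2 + 4 * ((N : ℤ) - j) - (2 * U + wt θ d + 3 * b) ^ 2) -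
              3 ^ j * (2 * (2 * U + wt θ d + 3 * b)) * inc θ d e - 3 ^ j * inc θ d e ^ 2 := by
        intro e _
        have m1 : (cnt (cont j e) (fun l => B2_Low θ s U (j + 1) (e :: l)) : ℤ) ≤
            cnt (cont j e) (B2_Low θ s (max (U + wt θ e) 0) j) := by
          exact_mod_cast cnt_mono Subset.rfl fun l _ hl => B2_step hl
        have m2 := ih (by omega) (max (U + wt θ e) 0) (le_max_right _ _)
          (by have := hw e; omega) e
        have m3 : (2 * U + wt θ d + 3 * b + inc θ d e) ^ 2 ≤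
            (2 * max (U + wt θ e) 0 + wt θ e + 3 * b) ^ 2 := by
          unfold inc
          exact pow_le_pow_left₀ (by have := hw e; omega) (by omega) 2
        have m4 := mul_le_mul_of_nonneg_right m1 (show (0 : ℤ) ≤ 4 * N by positivity)
        have m5 := mul_le_mul_of_nonneg_left m3 (show (0 : ℤ) ≤ 3 ^ j by positivity)
        linarith only [m2, m4, m5]
      have k2 := sum_le_sum k1
      rw [← sum_mul, sum_sub_distrib, sum_sub_distrib, ← mul_sum, ← mul_sum, ← mul_sum, sum_inc,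
        sum_const, card_nxt, nsmul_eq_mul] at k2
      have k3 := mul_le_mul_of_nonneg_left (B2_sq θ h1 h2 d) (show (0 : ℤ) ≤ 3 ^ j by positivity)
      rw [cnt_cont_succ]
      push_cast at k2 ⊢
      rw [pow_succ]
      linarith only [k2, k3]

theorem draw (θ : ℤ × ℤ) (h1 : θ.1 ≠ 0) (h2 : θ.2 ≠ 0) (b : ℤ) (hb1 : |θ.1| ≤ b) (hb2 : |θ.2| ≤ b)
    (s : ℤ) (hs : 1 ≤ s) (n : ℕ) (hn : 3 ≤ n) :
    (cnt (red n) (fun x => ∀ p q, p < q → q < n → ht θ x q - ht θ x p < s) : ℝ) * ((n : ℝ) - 2) ≤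
      (2 * (s : ℝ) + 6 * b) ^ 2 * 3 ^ n := by
  obtain ⟨N, rfl⟩ : ∃ N, n = N + 2 := ⟨n - 2, by omega⟩
  have hb : 0 ≤ b := (abs_nonneg _).trans hb1
  have k1 : cnt (red (N + 2))
      (fun x => ∀ p q, p < q → q < N + 2 → ht θ x q - ht θ x p < s) ≤
      cnt (red (N + 1)) (B2_Low θ s 0 (N + 1)) * 3 := by
    have h := cnt_take (N + 2) (N + 1) (by omega) (by omega) (B2_Low θ s 0 (N + 1))
    rw [show N + 2 - (N + 1) = 1 by omega, pow_one] at h
    refine le_trans (cnt_mono Subset.rfl fun x _ hx => ?_) h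
    have m : ∀ q ≤ N + 1, ∀ p ≤ q, ht θ (x.take (N + 1)) q - ht θ (x.take (N + 1)) p < s := by
      intro q hq p hp
      rw [ht_take θ x q _ hq, ht_take θ x p _ (hp.trans hq)]
      rcases hp.eq_or_lt with rfl | hp
      · omega
      · exact hx p q hp (by omega)
    intro q hq
    refine ⟨?_, m q hq⟩
    have m1 := m q hq 0 (Nat.zero_le _)
    rw [ht_zero] at m1
    omega
  have k2 : ∀ e ∈ (univ : Finset L),
      (cnt (cont N e) (fun l => B2_Low θ s 0 (N + 1) (e :: l)) : ℤ) * (4 * N) ≤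
        3 ^ N * (2 * s + 6 * b) ^ 2 := by
    intro e _
    have hw := abs_le.1 (abs_wt_le hb1 hb2 e)
    have m1 : (cnt (cont N e) (fun l => B2_Low θ s 0 (N + 1) (e :: l)) : ℤ) ≤
        cnt (cont N e) (B2_Low θ s (max (0 + wt θ e) 0) N) := by
      exact_mod_cast cnt_mono Subset.rfl fun l _ hl => B2_step hl
    have m2 := B2_main θ h1 h2 b hb1 hb2 s N N le_rfl (max (0 + wt θ e) 0) (le_max_right _ _)
      (by omega) e
    have m3 := mul_le_mul_of_nonneg_right m1 (show (0 : ℤ) ≤ 4 * N by positivity)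
    have m4 : (0 : ℤ) ≤ 3 ^ N * (2 * max (0 + wt θ e) 0 + wt θ e + 3 * b) ^ 2 := by positivity
    rw [sub_self] at m2
    linarith only [m2, m3, m4]
  have k3 := sum_le_sum k2
  rw [← sum_mul, ← Nat.cast_sum, ← cnt_red_succ, sum_const, card_univ,
    show Fintype.card L = 4 by decide, nsmul_eq_mul] at k3
  have k4 : (cnt (red (N + 2))
      (fun x => ∀ p q, p < q → q < N + 2 → ht θ x q - ht θ x p < s) : ℤ) * N ≤
      (2 * s + 6 * b) ^ 2 * 3 ^ (N + 2) := by
    have m1 : (cnt (red (N + 2))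
        (fun x => ∀ p q, p < q → q < N + 2 → ht θ x q - ht θ x p < s) : ℤ) ≤
        cnt (red (N + 1)) (B2_Low θ s 0 (N + 1)) * 3 := by exact_mod_cast k1
    have m2 := mul_le_mul_of_nonneg_right m1 (show (0 : ℤ) ≤ N by positivity)
    have m3 : (0 : ℤ) ≤ 3 ^ N * (2 * s + 6 * b) ^ 2 := by positivity
    push_cast at k3
    rw [pow_add]
    linarith only [k3, m2, m3]
  rw [show ((N + 2 : ℕ) : ℝ) - 2 = N by push_cast; ring]
  exact_mod_cast k4

theorem not_marg (θ : ℤ × ℤ) (h1 : θ.1 ≠ 0) (h2 : θ.2 ≠ 0) (b : ℤ) (hb1 : |θ.1| ≤ b)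
    (hb2 : |θ.2| ≤ b) (s : ℤ) (hs : 1 ≤ s) (n : ℕ) (hn : 3 ≤ n) :
    (cnt (red n) (fun x => ¬ Marg θ s x) : ℝ) * ((n : ℝ) - 2) ≤
      2 * (2 * (s : ℝ) + 6 * b) ^ 2 * 3 ^ n := by
  have k1 := draw θ h1 h2 b hb1 hb2 s hs n hn
  have k2 := draw ((-1 : ℤ) • θ) (by simpa using h1) (by simpa using h2) b (by simpa using hb1)
    (by simpa using hb2) s hs n hn
  have k3 : cnt (red n) (fun x => ¬ Marg θ s x) ≤
      cnt (red n) (fun x => ∀ p q, p < q → q < n → ht θ x q - ht θ x p < s) +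
        cnt (red n) (fun x => ∀ p q, p < q → q < n →
          ht ((-1 : ℤ) • θ) x q - ht ((-1 : ℤ) • θ) x p < s) := by
    refine le_trans (cnt_mono Subset.rfl fun x hx hM => ?_) (cnt_or_le _ _ _)
    have hl := (mem_red.1 hx).1
    rcases le_or_gt (tot θ x) 0 with h | h
    · refine Or.inl fun p q hpq hq => ?_
      by_contra hc
      refine hM ⟨p, q, by omega, by omega, hpq.ne, ?_⟩
      unfold val
      rw [if_neg hpq.not_gt]
      omega
    · refine Or.inr fun p q hpq hq => ?_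
      by_contra hc
      rw [ht_smul, ht_smul] at hc
      refine hM ⟨q, p, by omega, by omega, hpq.ne', ?_⟩
      unfold val
      rw [if_pos hpq]
      omega
  have k4 : (0 : ℝ) ≤ (n : ℝ) - 2 := by
    have : (3 : ℝ) ≤ n := by exact_mod_cast hn
    linarith only [this]
  have k5 := mul_le_mul_of_nonneg_right ((Nat.cast_le (α := ℝ)).2 k3) k4
  rw [Nat.cast_add] at k5
  linarith only [k1, k2, k5]

end Pool.Agent.Work.MP_c2f093_al.Gen
end

-- merged part: Pool.Agent.Work.MP_c2f093_al.Gen.B3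
section
/-!
A fourth moment maximal inequality.

Plan for `fast`.  If `r ≤ b` use `card_red_le`.  Otherwise: state = current height `a : ℤ` and last letter `d`,
`M = 2 * a + wt θ d`, `D = 4 * b`.  Prove by induction on `j` (with `cnt_cont_succ`), for all `a`, `d`:
`cnt (cont j d) (fun l => ∃ i ≤ j, r ≤ |a + ht θ l i|) * r ^ 4 ≤ 3 ^ j * (M ^ 2 + 16 * j * D ^ 2) ^ 2`.
If `r ≤ |a|` then `r ≤ |M|` and `card_cont` suffices.  Otherwise `i = 0` is no witness; the new value of `M` after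
the letter `e` is `M + inc θ d e`, and with `Δ = inc θ d e`, `∑ Δ = 0`, `|Δ| ≤ D`, `A = M ^ 2 + 16 * (j + 1) * D ^ 2`:
`((M + Δ) ^ 2 + 16 * j * D ^ 2) ^ 2 = (A + 2 * M * Δ + w) ^ 2` with `w = Δ ^ 2 - 16 * D ^ 2 ∈ [-16 D ^ 2, -15 D ^ 2]`, which is
`≤ A ^ 2 + 4 * A * M * Δ` because `2 A w ≤ -30 A D²`, `4 M² Δ² ≤ 4 A D²`, `w² ≤ 16 A D²`,
`4 M Δ w ≤ 64 |M| D³ ≤ 8 A D²` (from `A ≥ M² + 16 D² ≥ 8 |M| D`).  Start: `cnt_red_succ`, `M = 3 * wt θ e`.

Plan for `not_slow`: `cnt_exists_le` over `j ∈ range (n / T + 1)`, `cnt_rotate`, `cyc_subset_red`, `cnt_take` with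
`k = 2 * T` (`ht_take`), and `fast` with `ℓ = 2 * T` and `r / 2`.
-/

namespace Pool.Agent.Work.MP_c2f093_al.Gen

open Finset Filter

theorem B3_ineq {M Δ D J : ℝ} (hD : |Δ| ≤ D) (hJ : 0 ≤ J) :
    ((M + Δ) ^ 2 + 16 * J * D ^ 2) ^ 2 ≤ (M ^ 2 + 16 * (J + 1) * D ^ 2) ^ 2 +
      4 * (M ^ 2 + 16 * (J + 1) * D ^ 2) * M * Δ := by
  have h1 : Δ ^ 2 ≤ D ^ 2 := by
    rw [← sq_abs Δ]
    exact pow_le_pow_left₀ (abs_nonneg _) hD 2
  obtain ⟨u, hu⟩ : ∃ u, u = 16 * D ^ 2 - Δ ^ 2 := ⟨_, rfl⟩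
  have h2 : 4 * Δ ^ 2 ≤ u := by linarith only [h1, hu, sq_nonneg Δ, sq_nonneg D]
  have h3 : u ≤ 16 * D ^ 2 := by linarith only [hu, sq_nonneg Δ, sq_nonneg Δ]
  have h0 : 0 ≤ u := by linarith only [h1, hu, sq_nonneg Δ, sq_nonneg D]
  have h4 : u * u ≤ u * (16 * D ^ 2) := mul_le_mul_of_nonneg_left h3 h0
  have h5 : M ^ 2 * (4 * Δ ^ 2) ≤ M ^ 2 * u := mul_le_mul_of_nonneg_left h2 (sq_nonneg M)
  have h6 : 0 ≤ J * D ^ 2 * u := mul_nonneg (mul_nonneg hJ (sq_nonneg D)) h0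
  have h7 : (M + Δ) ^ 2 + 16 * J * D ^ 2 = M ^ 2 + 16 * (J + 1) * D ^ 2 + 2 * M * Δ - u := by
    rw [hu]
    ring
  rw [h7]
  linarith only [h4, h5, h6, sq_nonneg (2 * M * Δ + u), sq_nonneg ((2 : ℝ) * M * Δ + u)]

theorem B3_ind (θ : ℤ × ℤ) (b : ℤ) (hb1 : |θ.1| ≤ b) (hb2 : |θ.2| ≤ b) (r : ℝ) (hr : 0 < r)
    (hbr : (b : ℝ) ≤ r) (j : ℕ) : ∀ (a : ℤ) (d : L),
    (cnt (cont j d) (fun l => ∃ i ≤ j, r ≤ |((a + ht θ l i : ℤ) : ℝ)|) : ℝ) * r ^ 4 ≤
      3 ^ j * ((((2 * a + wt θ d : ℤ) : ℝ)) ^ 2 + 16 * j * (4 * (b : ℝ)) ^ 2) ^ 2 := by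
  have big : ∀ (j : ℕ) (a : ℤ) (d : L) (P : List L → Prop), r ≤ |(a : ℝ)| →
      (cnt (cont j d) P : ℝ) * r ^ 4 ≤
        3 ^ j * ((((2 * a + wt θ d : ℤ) : ℝ)) ^ 2 + 16 * j * (4 * (b : ℝ)) ^ 2) ^ 2 := by
    intro j a d P ha
    have h1 : (cnt (cont j d) P : ℝ) ≤ 3 ^ j := by
      exact_mod_cast (cnt_le_card _ P).trans_eq (card_cont j d)
    have h2 : |((wt θ d : ℤ) : ℝ)| ≤ b := by exact_mod_cast abs_wt_le hb1 hb2 d
    have h3 : r ≤ |((2 * a + wt θ d : ℤ) : ℝ)| := by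
      have h4 := abs_sub (((2 * a + wt θ d : ℤ) : ℝ)) ((wt θ d : ℤ) : ℝ)
      have h5 : ((2 * a + wt θ d : ℤ) : ℝ) - ((wt θ d : ℤ) : ℝ) = 2 * a := by
        push_cast
        ring
      rw [h5, abs_mul, abs_two] at h4
      linarith only [hbr, ha, h2, h4]
    have h6 : r ^ 2 ≤ ((2 * a + wt θ d : ℤ) : ℝ) ^ 2 + 16 * j * (4 * (b : ℝ)) ^ 2 := by
      have h7 := pow_le_pow_left₀ hr.le h3 2
      rw [sq_abs] at h7
      exact h7.trans (le_add_of_nonneg_right (by positivity))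
    rw [show r ^ 4 = (r ^ 2) ^ 2 by ring]
    exact mul_le_mul h1 (pow_le_pow_left₀ (sq_nonneg r) h6 2) (by positivity) (by positivity)
  induction j with
  | zero =>
    intro a d
    by_cases ha : r ≤ |(a : ℝ)|
    · exact big 0 a d _ ha
    · have h0 : cnt (cont 0 d) (fun l => ∃ i ≤ 0, r ≤ |((a + ht θ l i : ℤ) : ℝ)|) = 0 := by
        refine Nat.le_zero.1 ((cnt_mono (Q := fun _ => False) Subset.rfl ?_).trans_eq (by simp [cnt]))
        rintro l - ⟨i, h1, h2⟩
        rw [Nat.le_zero.1 h1, ht_zero, add_zero] at h2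
        exact ha h2
      rw [h0, Nat.cast_zero, zero_mul]
      positivity
  | succ j ih =>
    intro a d
    by_cases ha : r ≤ |(a : ℝ)|
    · exact big (j + 1) a d _ ha
    obtain ⟨M, hM⟩ : ∃ M : ℝ, M = ((2 * a + wt θ d : ℤ) : ℝ) := ⟨_, rfl⟩
    obtain ⟨A, hA⟩ : ∃ A : ℝ, A = M ^ 2 + 16 * ((j : ℝ) + 1) * (4 * (b : ℝ)) ^ 2 := ⟨_, rfl⟩
    have h1 : ∀ e ∈ nxt d,
        (cnt (cont j e) (fun l => ∃ i ≤ j + 1, r ≤ |((a + ht θ (e :: l) i : ℤ) : ℝ)|) : ℝ) * r ^ 4 ≤
          3 ^ j * (A ^ 2 + 4 * A * M * (inc θ d e : ℝ)) := by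
      intro e _
      have h2 : cnt (cont j e) (fun l => ∃ i ≤ j + 1, r ≤ |((a + ht θ (e :: l) i : ℤ) : ℝ)|) ≤
          cnt (cont j e) (fun l => ∃ i ≤ j, r ≤ |((a + wt θ e + ht θ l i : ℤ) : ℝ)|) := by
        refine cnt_mono Subset.rfl ?_
        rintro l - ⟨i, h3, h4⟩
        cases i with
        | zero =>
          rw [ht_zero, add_zero] at h4
          exact absurd h4 ha
        | succ i =>
          rw [ht_cons_succ, ← add_assoc] at h4
          exact ⟨i, Nat.le_of_succ_le_succ h3, h4⟩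
      have h3 : ((2 * (a + wt θ e) + wt θ e : ℤ) : ℝ) = M + (inc θ d e : ℝ) := by
        rw [hM, inc]
        push_cast
        ring
      have h4 : |((inc θ d e : ℤ) : ℝ)| ≤ 4 * (b : ℝ) := by exact_mod_cast abs_inc_le hb1 hb2 d e
      have h5 := ih (a + wt θ e) e
      rw [h3] at h5
      refine (mul_le_mul_of_nonneg_right (Nat.cast_le.2 h2) (by positivity)).trans (h5.trans ?_)
      rw [hA]
      exact mul_le_mul_of_nonneg_left (B3_ineq h4 (Nat.cast_nonneg j)) (by positivity)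
    have h6 : ∑ e ∈ nxt d, ((inc θ d e : ℤ) : ℝ) = 0 := by exact_mod_cast sum_inc θ d
    rw [cnt_cont_succ, Nat.cast_sum, sum_mul]
    refine (sum_le_sum h1).trans (le_of_eq ?_)
    rw [← mul_sum, sum_add_distrib, ← mul_sum, h6, sum_const, card_nxt, ← hM, hA]
    push_cast
    ring

theorem fast (θ : ℤ × ℤ) (b : ℤ) (hb : 1 ≤ b) (hb1 : |θ.1| ≤ b) (hb2 : |θ.2| ≤ b)
    (ℓ : ℕ) (hℓ : 1 ≤ ℓ) (r : ℝ) (hr : 0 < r) :
    (cnt (red ℓ) (fun x => ∃ i ≤ ℓ, r ≤ |(ht θ x i : ℝ)|) : ℝ) * r ^ 4 ≤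
      2 ^ 17 * (b : ℝ) ^ 4 * (ℓ : ℝ) ^ 2 * 3 ^ ℓ := by
  have hb' : (1 : ℝ) ≤ b := by exact_mod_cast hb
  have hl' : (1 : ℝ) ≤ ℓ := by exact_mod_cast hℓ
  rcases le_total r b with hbr | hbr
  · have h1 : (cnt (red ℓ) (fun x => ∃ i ≤ ℓ, r ≤ |(ht θ x i : ℝ)|) : ℝ) ≤ 2 * 3 ^ ℓ := by
      exact_mod_cast (cnt_le_card _ _).trans (card_red_le ℓ)
    have h2 : r ^ 4 ≤ (b : ℝ) ^ 4 := pow_le_pow_left₀ hr.le hbr 4
    have h3 : (1 : ℝ) ≤ (ℓ : ℝ) ^ 2 := one_le_pow₀ hl'
    refine (mul_le_mul h1 h2 (by positivity) (by positivity)).trans ?_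
    have h4 : (0 : ℝ) ≤ (b : ℝ) ^ 4 * 3 ^ ℓ := by positivity
    linarith only [h4, h3, mul_le_mul_of_nonneg_left h3 h4]
  obtain ⟨j, rfl⟩ : ∃ j, ℓ = j + 1 := ⟨ℓ - 1, by omega⟩
  have h1 : ∀ e : L,
      (cnt (cont j e) (fun l => ∃ i ≤ j + 1, r ≤ |(ht θ (e :: l) i : ℝ)|) : ℝ) * r ^ 4 ≤
        3 ^ j * (256 * ((j : ℝ) + 1) * (b : ℝ) ^ 2) ^ 2 := by
    intro e
    have h2 : cnt (cont j e) (fun l => ∃ i ≤ j + 1, r ≤ |(ht θ (e :: l) i : ℝ)|) ≤
        cnt (cont j e) (fun l => ∃ i ≤ j, r ≤ |((wt θ e + ht θ l i : ℤ) : ℝ)|) := by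
      refine cnt_mono Subset.rfl ?_
      rintro l - ⟨i, h3, h4⟩
      cases i with
      | zero =>
        rw [ht_zero, Int.cast_zero, abs_zero] at h4
        exact absurd h4 (not_le.2 hr)
      | succ i =>
        rw [ht_cons_succ] at h4
        exact ⟨i, Nat.le_of_succ_le_succ h3, h4⟩
    have h3 : |((wt θ e : ℤ) : ℝ)| ≤ b := by exact_mod_cast abs_wt_le hb1 hb2 e
    have h4 := pow_le_pow_left₀ (abs_nonneg _) h3 2
    rw [sq_abs] at h4
    refine (mul_le_mul_of_nonneg_right (Nat.cast_le.2 h2) (by positivity)).trans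
      ((B3_ind θ b hb1 hb2 r hr hbr j (wt θ e) e).trans ?_)
    refine mul_le_mul_of_nonneg_left (pow_le_pow_left₀ (by positivity) ?_ 2) (by positivity)
    push_cast
    linarith only [h4, sq_nonneg (b : ℝ), sq_nonneg ↑b]
  rw [cnt_red_succ, Nat.cast_sum, sum_mul]
  refine (sum_le_sum fun e _ => h1 e).trans ?_
  rw [sum_const, card_univ, show Fintype.card L = 4 from rfl, nsmul_eq_mul]
  push_cast
  have h5 : (0 : ℝ) ≤ (b : ℝ) ^ 4 * ((j : ℝ) + 1) ^ 2 * 3 ^ j := by positivity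
  rw [pow_succ (3 : ℝ) j]
  linarith only [h5]

theorem not_slow (θ : ℤ × ℤ) (b : ℤ) (hb : 1 ≤ b) (hb1 : |θ.1| ≤ b) (hb2 : |θ.2| ≤ b)
    (r : ℤ) (hr : 1 ≤ r) (n T : ℕ) (hT : 1 ≤ T) (hn : 2 * T ≤ n) :
    (cnt (cyc n) (fun x => ¬ Slow θ r T x) : ℝ) * (r : ℝ) ^ 4 ≤
      (((n / T : ℕ) : ℝ) + 1) * 2 ^ 23 * (b : ℝ) ^ 4 * (T : ℝ) ^ 2 * 3 ^ n := by
  have hr' : (0 : ℝ) < (r : ℝ) / 2 := by
    have : (1 : ℝ) ≤ r := by exact_mod_cast hr
    linarith only [this]
  obtain ⟨P, hP⟩ : ∃ P : List L → Prop,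
      P = fun x => ∃ i ≤ 2 * T, (r : ℝ) / 2 ≤ |(ht θ x i : ℝ)| := ⟨_, rfl⟩
  have h1 : cnt (cyc n) (fun x => ¬ Slow θ r T x) ≤
      cnt (cyc n) (fun x => ∃ j ∈ range (n / T + 1), P ((x.rotate (j * T)).take (2 * T))) := by
    refine cnt_mono Subset.rfl fun x hx h => ?_
    simp only [Slow, not_forall, not_lt] at h
    obtain ⟨j, h2, i, h3, h4⟩ := h
    rw [(mem_cyc.1 hx).1] at h2
    refine ⟨j, mem_range.2 (Nat.lt_succ_of_le h2), ?_⟩
    rw [hP]
    refine ⟨i, h3, ?_⟩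
    rw [ht_take θ _ i _ h3, div_le_iff₀' two_pos]
    exact_mod_cast h4
  have h2 : ∀ j, cnt (cyc n) (fun x => P ((x.rotate (j * T)).take (2 * T))) ≤
      cnt (red (2 * T)) P * 3 ^ (n - 2 * T) := fun j =>
    (cnt_rotate n (j * T) fun x => P (x.take (2 * T))).trans_le
      ((cnt_mono (cyc_subset_red n) fun _ _ h => h).trans (cnt_take n (2 * T) (by omega) hn P))
  have h3 : cnt (cyc n) (fun x => ¬ Slow θ r T x) ≤
      (n / T + 1) * (cnt (red (2 * T)) P * 3 ^ (n - 2 * T)) := by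
    refine h1.trans ((cnt_exists_le _ _ _).trans ((sum_le_sum fun j _ => h2 j).trans_eq ?_))
    rw [sum_const, card_range, smul_eq_mul]
  have h4 := fast θ b hb hb1 hb2 (2 * T) (by omega) _ hr'
  rw [← hP] at h4
  have h5 : (3 : ℝ) ^ n = 3 ^ (2 * T) * 3 ^ (n - 2 * T) := by
    rw [← pow_add, Nat.add_sub_cancel' hn]
  refine (mul_le_mul_of_nonneg_right (Nat.cast_le.2 h3) (by positivity)).trans ?_
  have h6 := mul_le_mul_of_nonneg_left h4
    (show (0 : ℝ) ≤ 16 * (((n / T : ℕ) : ℝ) + 1) * 3 ^ (n - 2 * T) by positivity)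
  rw [h5]
  generalize n / T = q at *
  push_cast at h6 ⊢
  refine le_of_eq_of_le ?_ (h6.trans_eq ?_) <;> ring

end Pool.Agent.Work.MP_c2f093_al.Gen
end

-- merged part: Pool.Agent.Work.MP_c2f093_al.Gen.B7a
section
/-!
Margins and slowness hold with high probability.

`marg_small`: `cnt_exists_le`, `cyc_subset_red`, `not_marg` with `b = m`; with `s = sqrt n / J` one has
`1 ≤ s` eventually, `(s * J) ^ 2 ≤ n`, `(2 * s + 6 * m) ^ 2 ≤ 8 * n / J ^ 2 + 72 * m ^ 2`, `n ≤ 3 * (n - 2)`; choose `J` with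
`m * 48 / J ^ 2 ≤ ε / 2`.
`slow_small`: `cnt_exists_le`, `not_slow` with `b = m`, `T = n / K`, `r = sqrt n / J - c`; eventually `1 ≤ T`,
`r ≥ √n / (4 * J)` (so `n ^ 2 ≤ 256 * J ^ 4 * r ^ 4`), and `(n / T + 1) * T ^ 2 ≤ (n + T) * T ≤ 2 * n * n / K`; choose `K` with
`m ^ 5 * 2 ^ 32 * J ^ 4 / K ≤ ε`.
-/

namespace Pool.Agent.Work.MP_c2f093_al.Gen

open Finset Filter

theorem B7a_sum (n m : ℕ) (P : ℕ → List L → Prop) {w A : ℝ} (hw : 0 ≤ w)
    (h : ∀ k ∈ Icc 1 m, (cnt (cyc n) (P k) : ℝ) * w ≤ A) :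
    (cnt (cyc n) (fun x => ∃ k ∈ Icc 1 m, P k x) : ℝ) * w ≤ m * A := by
  have h1 : (cnt (cyc n) (fun x => ∃ k ∈ Icc 1 m, P k x) : ℝ) ≤
      ∑ k ∈ Icc 1 m, (cnt (cyc n) (P k) : ℝ) := by exact_mod_cast cnt_exists_le (cyc n) (Icc 1 m) P
  refine (mul_le_mul_of_nonneg_right h1 hw).trans ?_
  rw [sum_mul]
  simpa using sum_le_card_nsmul _ _ _ h

theorem B7a_ev (J a : ℕ) (hJ : 1 ≤ J) : ∀ᶠ n : ℕ in atTop, a ≤ Nat.sqrt n / J := by
  filter_upwards [eventually_ge_atTop (a * J * (a * J))] with n hn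
  exact (Nat.le_div_iff_mul_le hJ).2 (Nat.le_sqrt.2 hn)

theorem B7a_dir {k m : ℕ} (hk : k ∈ Icc 1 m) : (dir k).1 ≠ 0 ∧ (dir k).2 ≠ 0 ∧ (1 : ℤ) ≤ m ∧
    |(dir k).1| ≤ m ∧ |(dir k).2| ≤ m := by
  have := mem_Icc.1 hk
  simp only [dir, Nat.abs_cast, abs_one]
  omega

theorem marg_small (m : ℕ) (ε : ℝ) (hε : 0 < ε) :
    ∃ J : ℕ, 1 ≤ J ∧ ∀ᶠ n : ℕ in atTop,
      (cnt (cyc n) (fun x => ∃ k ∈ Icc 1 m, ¬ Marg (dir k) ((Nat.sqrt n / J : ℕ) : ℤ) x) : ℝ) ≤
        ε * 3 ^ n := by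
  obtain ⟨J, hJ⟩ := exists_nat_ge (max 1 (96 * m / ε))
  have J1 : (1 : ℝ) ≤ J := (le_max_left _ _).trans hJ
  have J2 : 96 * m ≤ J * ε := (div_le_iff₀ hε).1 ((le_max_right _ _).trans hJ)
  have J0 : 1 ≤ J := by exact_mod_cast J1
  refine ⟨J, J0, ?_⟩
  filter_upwards [B7a_ev J 1 J0, eventually_ge_atTop 3,
    tendsto_natCast_atTop_atTop.eventually_ge_atTop (288 * (m : ℝ) ^ 3 / ε + 6)] with n h1 h2 h3
  have h4 : Nat.sqrt n / J * J * (Nat.sqrt n / J * J) ≤ n :=
    (Nat.mul_le_mul (Nat.div_mul_le_self _ _) (Nat.div_mul_le_self _ _)).trans (Nat.sqrt_le n)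
  generalize Nat.sqrt n / J = s at h1 h4
  have h5 : (s : ℝ) * J * (s * J) ≤ n := by exact_mod_cast h4
  have h6 : (3 : ℝ) ≤ n := by exact_mod_cast h2
  have h7 := B7a_sum n m (fun k x => ¬ Marg (dir k) s x) (w := n - 2)
    (A := 2 * (2 * (s : ℝ) + 6 * m) ^ 2 * 3 ^ n) (by linarith only [h6]) fun k hk => by
      obtain ⟨d1, d2, -, d3, d4⟩ := B7a_dir hk
      have a1 := not_marg (dir k) d1 d2 m d3 d4 s (by exact_mod_cast h1) n h2
      have a2 : (cnt (cyc n) (fun x => ¬ Marg (dir k) s x) : ℝ) ≤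
          cnt (red n) fun x => ¬ Marg (dir k) s x := by
        exact_mod_cast cnt_mono (cyc_subset_red n) fun _ _ h => h
      exact (mul_le_mul_of_nonneg_right a2 (by linarith only [h6])).trans (by exact_mod_cast a1)
  have h8 : 288 * (m : ℝ) ^ 3 ≤ (n - 6) * ε := (div_le_iff₀ hε).1 (by linarith only [h3])
  have h9 : 96 * m * (s : ℝ) ^ 2 ≤ n * ε := by
    have a1 : (J : ℝ) ≤ J * J := le_mul_of_one_le_left (by linarith only [J1]) J1
    linarith only [J2, h5, hε, a1, mul_le_mul_of_nonneg_right J2 (sq_nonneg (s : ℝ)), mul_le_mul_of_nonneg_right h5 hε.le,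
      mul_le_mul_of_nonneg_right a1 (mul_nonneg hε.le (sq_nonneg (s : ℝ))), sq_nonneg ↑s]
  have h10 : m * (2 * (2 * (s : ℝ) + 6 * m) ^ 2) ≤ ε * (n - 2) := by
    linarith only [hε, h8, h9, h6, mul_nonneg (Nat.cast_nonneg (α := ℝ) m) (sq_nonneg (2 * (s : ℝ) - 6 * m)),
      mul_pos hε (by linarith : (0 : ℝ) < n), sq_nonneg ((2 : ℝ) * ↑s - (6 : ℝ) * ↑m)]
  refine le_of_mul_le_mul_right (h7.trans ?_) (by linarith only [h6] : (0 : ℝ) < n - 2)
  linarith only [h10, mul_le_mul_of_nonneg_right h10 (by positivity : (0 : ℝ) ≤ 3 ^ n)]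

theorem slow_small (m J : ℕ) (hJ : 1 ≤ J) (c : ℤ) (ε : ℝ) (hε : 0 < ε) :
    ∃ K : ℕ, 2 ≤ K ∧ ∀ᶠ n : ℕ in atTop,
      (cnt (cyc n) (fun x => ∃ k ∈ Icc 1 m,
        ¬ Slow (dir k) (((Nat.sqrt n / J : ℕ) : ℤ) - c) (n / K) x) : ℝ) ≤ ε * 3 ^ n := by
  obtain ⟨K, hK⟩ := exists_nat_ge (max 2 (2 ^ 36 * (m : ℝ) ^ 5 * (J : ℝ) ^ 4 / ε))
  have K1 : 2 ≤ K := by exact_mod_cast (le_max_left _ _).trans hK
  have K2 : 2 ^ 36 * (m : ℝ) ^ 5 * (J : ℝ) ^ 4 ≤ K * ε :=
    (div_le_iff₀ hε).1 ((le_max_right _ _).trans hK)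
  refine ⟨K, K1, ?_⟩
  filter_upwards [B7a_ev J (2 * c.natAbs + 1) hJ, eventually_ge_atTop K] with n h1 h2
  have T1 : 1 ≤ n / K := (Nat.le_div_iff_mul_le (by omega)).2 (by omega)
  have T2 : n / K * K ≤ n := Nat.div_mul_le_self _ _
  have h3 : n ≤ (4 * (Nat.sqrt n / J) * J) ^ 2 := by
    have a1 := Nat.lt_succ_sqrt n
    have a2 := Nat.lt_div_mul_add (a := Nat.sqrt n) hJ
    have a3 : J ≤ Nat.sqrt n / J * J := Nat.le_mul_of_pos_left _ (by omega)
    have a4 : Nat.sqrt n + 1 ≤ 4 * (Nat.sqrt n / J) * J := by rw [mul_assoc]; omega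
    rw [sq]
    exact a1.le.trans (Nat.mul_le_mul a4 a4)
  generalize Nat.sqrt n / J = s at h1 h3
  generalize n / K = T at T1 T2
  obtain ⟨r, hr, r1, r2⟩ : ∃ r : ℤ, (s : ℤ) - c = r ∧ 1 ≤ r ∧ (s : ℤ) ≤ 2 * r :=
    ⟨_, rfl, by omega, by omega⟩
  rw [hr]
  have T3 : 2 * T ≤ n := le_trans (by rw [mul_comm]; exact Nat.mul_le_mul_left T K1) T2
  have T4 : (((n / T : ℕ) : ℝ) + 1) * T ≤ 2 * n := by
    have : (n / T + 1) * T ≤ 2 * n := by
      have := Nat.div_mul_le_self n T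
      rw [add_mul]
      omega
    exact_mod_cast this
  have r3 : (1 : ℝ) ≤ r := by exact_mod_cast r1
  have r4 : (s : ℝ) ≤ 2 * r := by exact_mod_cast r2
  have J0 : (0 : ℝ) < J := by exact_mod_cast hJ
  have h4 := B7a_sum n m (fun k x => ¬ Slow (dir k) r T x) (w := (r : ℝ) ^ 4)
    (A := 2 * n * T * 2 ^ 23 * (m : ℝ) ^ 4 * 3 ^ n) (by positivity) fun k hk => by
      obtain ⟨-, -, d2, d3, d4⟩ := B7a_dir hk
      refine (not_slow (dir k) m d2 d3 d4 r r1 n T T1 T3).trans ?_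
      calc _ = (((n / T : ℕ) : ℝ) + 1) * T * T * 2 ^ 23 * (m : ℝ) ^ 4 * 3 ^ n := by
            push_cast; ring
        _ ≤ _ := by gcongr
  have h5 : (n : ℝ) ≤ (8 * r * J) ^ 2 := by
    have a1 : (n : ℝ) ≤ (4 * s * J) ^ 2 := by exact_mod_cast h3
    refine a1.trans (pow_le_pow_left₀ (by positivity) ?_ 2)
    exact mul_le_mul_of_nonneg_right (by linarith only [r4]) J0.le
  have h6 : (T : ℝ) * K ≤ n := by exact_mod_cast T2
  have h7 : 2 ^ 24 * (m : ℝ) ^ 5 * n * T ≤ ε * r ^ 4 := by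
    refine le_of_mul_le_mul_right ?_ (by positivity : (0 : ℝ) < 2 ^ 12 * J ^ 4)
    calc _ = 2 ^ 36 * (m : ℝ) ^ 5 * (J : ℝ) ^ 4 * (n * T) := by ring
      _ ≤ K * ε * (n * T) := by gcongr
      _ = ε * (n * (T * K)) := by ring
      _ ≤ ε * ((8 * r * J) ^ 2 * (8 * r * J) ^ 2) := by
          gcongr
          exact h6.trans h5
      _ = _ := by ring
  refine le_of_mul_le_mul_right (h4.trans ?_) (by positivity : (0 : ℝ) < r ^ 4)
  linarith only [h7, mul_le_mul_of_nonneg_right h7 (by positivity : (0 : ℝ) ≤ 3 ^ n)]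

end Pool.Agent.Work.MP_c2f093_al.Gen
end

-- merged part: Pool.Agent.Work.MP_c2f093_al.Gen.B4a
section
/-!
The potential for cones: two inequalities between real numbers.

Plan for `phi_step`.  For each `e`, with `0 < y + ζ ≤ 2 * y`:
`(y + ζ) * log (y + ζ) ≤ (y + ζ) * log y + (y + ζ) * ζ / y` (from `log (1 + ζ / y) ≤ ζ / y`), and the identity
`(x + ξ) ^ 2 / (y + ζ) = x ^ 2 / y + 2 * x * ξ / y - x ^ 2 * ζ / y ^ 2 + (ξ - (x / y) * ζ) ^ 2 / (y + ζ)`.
Summing, the first part is at most `3 * y * log y + 3 * D ^ 2 / y`, the second at least `3 * x ^ 2 / y + κ / (2 * y)`, and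
`∑ (y + ζ) ^ 2 ≥ 3 * y ^ 2 + 6`.

Plan for `phi_lower`.  `x ^ 2 / y ≤ y`, so `phi ≥ y * (log y - A - μ * y)`, and `μ * y ≤ log R / 2` for `y ≤ 2 * R`.
If `R ≤ y`: `log y - A - log R / 2 ≥ log R / 4` as soon as `4 * A ≤ log R`.  For the first bound: if
`√R * exp A ≤ y` then `log y ≥ log R / 2 + A` and `phi ≥ 0`; otherwise `μ * y ≤ exp A * log R / (4 * √R) ≤ 1` for large
`R`, and `y * (log y - A - 1) ≥ - exp A` by `Real.one_sub_inv_le_log_of_pos` applied to `y / exp A`.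
-/

namespace Pool.Agent.Work.MP_c2f093_al.Gen

open Finset Filter

theorem B4a_pt (A μ x y ξ ζ : ℝ) (hA : 0 ≤ A) (hy : 0 < y) (hζ : |ζ| < y) :
    phi A μ (x + ξ) (y + ζ) ≤ phi A μ x y + (-2 * A * x / y) * ξ +
      (Real.log y + 1 + A * x ^ 2 / y ^ 2 - 2 * μ * y) * ζ + y⁻¹ * ζ ^ 2 -
      A / (2 * y) * (ξ - x / y * ζ) ^ 2 - μ * ζ ^ 2 := by
  obtain ⟨h1, h2⟩ := abs_lt.1 hζ
  have h3 : 0 < y + ζ := by linarith only [h1]
  have h4 : Real.log (y + ζ) ≤ Real.log y + ζ / y := by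
    have h5 := Real.log_le_sub_one_of_pos (div_pos h3 hy)
    rw [Real.log_div h3.ne' hy.ne', add_div, div_self hy.ne'] at h5
    linarith only [h5]
  have h5 : (y + ζ) * Real.log (y + ζ) ≤ (y + ζ) * Real.log y + ζ + y⁻¹ * ζ ^ 2 := by
    have h6 := mul_le_mul_of_nonneg_left h4 h3.le
    have h7 : (y + ζ) * (Real.log y + ζ / y) = (y + ζ) * Real.log y + ζ + y⁻¹ * ζ ^ 2 := by
      field_simp
      ring
    linarith only [h6, h7]
  have h6 : (x + ξ) ^ 2 / (y + ζ) = x ^ 2 / y + 2 * x * ξ / y - x ^ 2 * ζ / y ^ 2 +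
      (ξ - x / y * ζ) ^ 2 / (y + ζ) := by
    field_simp
    ring
  have h7 : (ξ - x / y * ζ) ^ 2 / (2 * y) ≤ (ξ - x / y * ζ) ^ 2 / (y + ζ) :=
    div_le_div_of_nonneg_left (sq_nonneg _) h3 (by linarith only [h2])
  have h8 := mul_le_mul_of_nonneg_left h7 hA
  have h9 : A / (2 * y) * (ξ - x / y * ζ) ^ 2 = A * ((ξ - x / y * ζ) ^ 2 / (2 * y)) := by ring
  have h10 : A * (x ^ 2 / y + 2 * x * ξ / y - x ^ 2 * ζ / y ^ 2 + (ξ - x / y * ζ) ^ 2 / (y + ζ)) =
      A * (x ^ 2 / y) - (-2 * A * x / y) * ξ - A * x ^ 2 / y ^ 2 * ζ +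
        A * ((ξ - x / y * ζ) ^ 2 / (y + ζ)) := by ring
  unfold phi
  rw [h6, h9, h10]
  linarith only [h5, h8]

theorem phi_step {α : Type} (s : Finset α) (hs : s.card = 3) (ξ ζ : α → ℝ) (A μ D κ x y : ℝ)
    (hμ : 0 ≤ μ) (hκ : 0 < κ) (hA : 6 * D ^ 2 ≤ A * κ) (hD : 0 ≤ D) (hy : D < y)
    (hξ : ∑ e ∈ s, ξ e = 0) (hζ : ∑ e ∈ s, ζ e = 0) (hb : ∀ e ∈ s, |ζ e| ≤ D)
    (hnd : ∀ u : ℝ, κ ≤ ∑ e ∈ s, (ξ e - u * ζ e) ^ 2) (hv : 6 ≤ ∑ e ∈ s, ζ e ^ 2) :
    ∑ e ∈ s, phi A μ (x + ξ e) (y + ζ e) ≤ 3 * phi A μ x y - 6 * μ := by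
  have hy0 : 0 < y := hD.trans_lt hy
  have hA0 : 0 ≤ A := by
    by_contra h
    linarith only [hA, h, hκ, mul_pos (neg_pos.2 (not_le.1 h)) hκ, sq_nonneg D, sq_nonneg D]
  have h1 := sum_le_sum fun e he => B4a_pt A μ x y (ξ e) (ζ e) hA0 hy0 ((hb e he).trans_lt hy)
  simp only [sum_add_distrib, sum_sub_distrib, ← mul_sum, hξ, hζ, sum_const, hs, nsmul_eq_mul,
    mul_zero, add_zero, Nat.cast_ofNat] at h1
  have h2 : ∑ e ∈ s, ζ e ^ 2 ≤ 3 * D ^ 2 := by
    have h3 := sum_le_sum fun e he => sq_le_sq' (abs_le.1 (hb e he)).1 (abs_le.1 (hb e he)).2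
    rwa [sum_const, hs, nsmul_eq_mul, Nat.cast_ofNat] at h3
  have h3 : y⁻¹ * ∑ e ∈ s, ζ e ^ 2 ≤ A / (2 * y) * ∑ e ∈ s, (ξ e - x / y * ζ e) ^ 2 := by
    have h4 := mul_le_mul_of_nonneg_left (hnd (x / y)) hA0
    have h5 : A / (2 * y) * ∑ e ∈ s, (ξ e - x / y * ζ e) ^ 2 =
        y⁻¹ * (A * (∑ e ∈ s, (ξ e - x / y * ζ e) ^ 2) / 2) := by ring
    rw [h5]
    exact mul_le_mul_of_nonneg_left (by linarith only [hA, h2, h4]) (inv_nonneg.2 hy0.le)
  have h4 := mul_le_mul_of_nonneg_left hv hμ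
  linarith only [h1, h3, h4]

theorem phi_lower (A : ℝ) (hA : 0 ≤ A) :
    ∀ᶠ R : ℝ in atTop, ∀ x y : ℝ, 0 < y → |x| ≤ y → y ≤ 2 * R →
      - Real.exp A ≤ phi A (Real.log R / (4 * R)) x y ∧
        (R ≤ y → R * Real.log R / 4 ≤ phi A (Real.log R / (4 * R)) x y) := by
  filter_upwards [eventually_gt_atTop 1, Real.tendsto_log_atTop.eventually_ge_atTop (4 * A)] with
    R hR hL x y hy hx hy2
  have hR0 : 0 < R := one_pos.trans hR
  have hL0 : 0 < Real.log R := Real.log_pos hR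
  have h1 : x ^ 2 / y ≤ y := by
    rw [div_le_iff₀ hy, ← sq]
    exact sq_le_sq' (abs_le.1 hx).1 (abs_le.1 hx).2
  have h2 : y * (Real.log y - A - Real.log R / (4 * R) * y) ≤
      phi A (Real.log R / (4 * R)) x y := by
    have := mul_le_mul_of_nonneg_left h1 hA
    unfold phi
    linarith only [this]
  have h3 : Real.log R / (4 * R) * y ≤ Real.log R / 2 := by
    rw [div_mul_eq_mul_div, div_le_iff₀ (by positivity)]
    linarith only [hA, hy2, hL, mul_nonneg_of_nonpos_of_nonpos (Mathlib.Tactic.Linarith.sub_nonpos_of_le hA) (Mathlib.Tactic.Linarith.sub_nonpos_of_le hy2), mul_nonneg_of_nonpos_of_nonpos (Mathlib.Tactic.Linarith.sub_nonpos_of_le hL) (Mathlib.Tactic.Linarith.sub_nonpos_of_le hy2)]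
  refine ⟨le_trans ?_ h2, fun h => le_trans ?_ h2⟩
  · rcases le_total (Real.log R / (4 * R) * y) 1 with h4 | h4
    · have h5 := Real.one_sub_inv_le_log_of_pos (div_pos hy (Real.exp_pos A))
      rw [Real.log_div hy.ne' (Real.exp_pos A).ne', Real.log_exp, inv_div] at h5
      have h6 := mul_le_mul_of_nonneg_left h5 hy.le
      rw [mul_sub, mul_div_cancel₀ _ hy.ne'] at h6
      linarith only [h6, hy, h4, mul_nonneg_of_nonpos_of_nonpos (le_of_lt (Mathlib.Tactic.Linarith.sub_neg_of_lt hy)) (Mathlib.Tactic.Linarith.sub_nonpos_of_le h4)]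
    · have h5 := Real.log_nonneg h4
      have h6 := Real.log_le_sub_one_of_pos (show 0 < Real.log R / 4 by positivity)
      rw [show Real.log R / (4 * R) * y = Real.log R / 4 * y / R by ring,
        Real.log_div (by positivity) hR0.ne', Real.log_mul (by positivity) hy.ne'] at h5
      have h7 : 0 ≤ y * (Real.log y - A - Real.log R / (4 * R) * y) :=
        mul_nonneg hy.le (by linarith only [hL, h3, h5, h6])
      linarith only [h7, Real.exp_pos A]
  · have h4 := Real.log_le_log hR0 h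
    rw [mul_div_assoc]
    exact mul_le_mul h (by linarith only [hL, h3, h4]) (by positivity) hy.le

theorem phi_upper (A μ x y : ℝ) (hA : 0 ≤ A) (hμ : 0 ≤ μ) (hy : 0 < y) : phi A μ x y ≤ y ^ 2 := by
  have h1 := mul_le_mul_of_nonneg_left (Real.log_le_sub_one_of_pos hy) hy.le
  have h2 : 0 ≤ A * (x ^ 2 / y) := by positivity
  have h3 : 0 ≤ μ * y ^ 2 := by positivity
  unfold phi
  linarith only [hy, h1, h2, h3]

/-- nondegeneracy of the increments -/
theorem nondeg (η η' : ℤ × ℤ) (hdet : η.1 * η'.2 - η.2 * η'.1 ≠ 0) (b : ℤ)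
    (h1 : |η.1| ≤ b) (h2 : |η.2| ≤ b) (h1' : |η'.1| ≤ b) (h2' : |η'.2| ≤ b) (u : ℝ) :
    1 / (2 * (b : ℝ) ^ 2) ≤ (((-1 + u) * η.1 + (1 + u) * η'.1) ^ 2 + ((-1 + u) * η.2 + (1 + u) * η'.2) ^ 2) ∧
      (1 : ℝ) ≤ ((-1 * η.1 + -1 * η'.1) ^ 2 + (-1 * η.2 + -1 * η'.2) ^ 2) := by
  obtain ⟨a, c⟩ := η
  obtain ⟨a', c'⟩ := η'
  simp only at *
  constructor
  · have hd : (1 : ℝ) ≤ ((a : ℝ) * c' - c * a') ^ 2 := by
      have : 1 ≤ (a * c' - c * a') ^ 2 := (one_le_sq_iff_one_le_abs _).2 (Int.one_le_abs hdet)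
      exact_mod_cast this
    have k : ∀ z : ℤ, |z| ≤ b → (z : ℝ) ^ 2 ≤ (b : ℝ) ^ 2 := fun z hz => by
      have : z ^ 2 ≤ b ^ 2 := sq_le_sq' (abs_le.1 hz).1 (abs_le.1 hz).2
      exact_mod_cast this
    have k1 := k a h1
    have k2 := k c h2
    have k3 := k a' h1'
    have k4 := k c' h2'
    generalize (a : ℝ) = p, (c : ℝ) = q, (a' : ℝ) = p', (c' : ℝ) = q', (b : ℝ) ^ 2 = B at *
    generalize hv : (-1 + u) * p + (1 + u) * p' = v
    generalize hw : (-1 + u) * q + (1 + u) * q' = w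
    have e1 : ((-1 + u) * (p * q' - q * p')) ^ 2 ≤ (v ^ 2 + w ^ 2) * (p' ^ 2 + q' ^ 2) := by
      have : (-1 + u) * (p * q' - q * p') = v * q' - w * p' := by rw [← hv, ← hw]; ring
      rw [this]
      linarith only [sq_nonneg (v * p' + w * q'), sq_nonneg (v * p' + w * q')]
    have e2 : ((1 + u) * (p * q' - q * p')) ^ 2 ≤ (v ^ 2 + w ^ 2) * (p ^ 2 + q ^ 2) := by
      have : (1 + u) * (p * q' - q * p') = w * p - v * q := by rw [← hv, ← hw]; ring
      rw [this]
      linarith only [sq_nonneg (v * p + w * q), sq_nonneg (v * p + w * q)]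
    have e3 := mul_le_mul_of_nonneg_left hd (sq_nonneg (-1 + u))
    have e4 := mul_le_mul_of_nonneg_left hd (sq_nonneg (1 + u))
    have e5 : 0 ≤ v ^ 2 + w ^ 2 := by positivity
    have e6 := mul_le_mul_of_nonneg_left (add_le_add (add_le_add k1 k2) (add_le_add k3 k4)) e5
    have e7 : 1 ≤ (v ^ 2 + w ^ 2) * (2 * B) := by
      rw [mul_pow] at e1 e2
      linarith only [e1, e2, e3, e4, e6, sq_nonneg u, sq_nonneg u]
    have e8 : 0 < 2 * B := by
      by_contra h
      linarith only [e7, e5, h, mul_nonneg e5 (neg_nonneg.2 (not_lt.1 h))]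
    rwa [div_le_iff₀ e8]
  · have : 1 ≤ (-1 * a + -1 * a') ^ 2 + (-1 * c + -1 * c') ^ 2 := by
      by_contra h
      have e1 : -1 * a + -1 * a' = 0 := by
        nlinarith [sq_nonneg (-1 * a + -1 * a'), sq_nonneg (-1 * c + -1 * c')]
      have e2 : -1 * c + -1 * c' = 0 := by
        nlinarith [sq_nonneg (-1 * a + -1 * a'), sq_nonneg (-1 * c + -1 * c')]
      exact hdet (by linear_combination a * e2 * (-1) + c * e1)
    exact_mod_cast this

end Pool.Agent.Work.MP_c2f093_al.Gen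
end

-- merged part: Pool.Agent.Work.MP_c2f093_al.Gen.B4
section
/-!
A reduced word of length `T` stays in a cone of angle less than `π` with probability `o (1 / √T)`.

Plan.  Let `b` bound the four coordinates of `η, η'` (`1 ≤ b`), `D = 8 * b`, `κ = 3 / b ^ 2`, `A = 6 * D ^ 2 / κ`,
`u0 = 2 * |c| + 3 * b + D + 1`.  State: heights `a a' : ℤ` and last letter `d`;
`U = u0 - 2 * a - wt η d`, `U' = u0 - 2 * a' - wt η' d`, `Y = U + U'`, `X = U - U'`.  The letter `e` changes `U` by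
`- inc η d e` and `U'` by `- inc η' d e`, so `ζ e = - inc η d e - inc η' d e`, `ξ e = - inc η d e + inc η' d e`; the
hypotheses of `phi_step` come from `sum_inc`, `abs_inc_le`, `sum_inc_sq` (with `(-1 + u, 1 + u)` and `(-1, -1)`) and
`nondeg`.  For `a, a' ≤ c + b` one has `U, U' > D`, hence `|X| ≤ Y`, `D < Y`.
Take `R = √T` (large: `phi_lower`, `D ≤ R`, `Y0 ≤ 2 * R`, `2 ≤ T`), `μ = log R / (4 * R)`, `N = T - 1`, `G = R * log R / 4 > 0`.
`cone_pot`: by induction on `j ≤ N`, for all states with `a, a' ≤ c + b` and `Y ≤ 2 * R`,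
`cnt (cont j d) (fun l => ∀ i ≤ j, a + ht η l i ≤ c ∧ a' + ht η' l i ≤ c) * G ≤
  3 ^ j * (phi A μ X Y + exp A + 2 * μ * (N - j))`.
Cases: outside the cone (`c < a` or `c < a'`) the count is `0` and the right side is nonnegative; `R ≤ Y`: `card_cont`
and the second bound of `phi_lower`; `j = 0`: `2 * μ * N ≥ G` since `N = R ^ 2 - 1 ≥ R ^ 2 / 2`; otherwise
`cnt_cont_succ`, the successors have `a, a' ≤ c + b`, `Y ≤ R + D ≤ 2 * R`, and `phi_step`.
Start with `cnt_red_succ`: if the count is not `0` then the state `a = wt η e`, `a' = wt η' e` has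
`Y ≤ Y0 = 2 * (u0 + 3 * b)` (treat `c < a` separately, or note `a ≤ b ≤ c + b` when `0 ≤ c`, which follows from `i = 0`), and
`phi_upper` gives `cnt * G ≤ 4 * 3 ^ (T - 1) * (Y0 ^ 2 + exp A)`.  So `cnt ^ 2 * T ≤ 9 ^ T * (const / log R) ^ 2`.
-/

namespace Pool.Agent.Work.MP_c2f093_al.Gen

open Finset Filter

/-- the distance from the wall, corrected to a martingale -/
def B4_U (b c : ℤ) (θ : ℤ × ℤ) (a : ℤ) (d : L) : ℝ := ((2 * c + 11 * b + 1 - 2 * a - wt θ d : ℤ) : ℝ)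

theorem B4_U_step (b c : ℤ) (θ : ℤ × ℤ) (a : ℤ) (d e : L) :
    B4_U b c θ (a + wt θ e) e = B4_U b c θ a d - inc θ d e := by
  unfold B4_U inc
  push_cast
  ring

theorem B4_U_gt {b c : ℤ} {θ : ℤ × ℤ} (h1 : |θ.1| ≤ b) (h2 : |θ.2| ≤ b) {a : ℤ} (ha : a ≤ c + b)
    (d : L) : 8 * (b : ℝ) < B4_U b c θ a d := by
  have := abs_le.1 (abs_wt_le h1 h2 d)
  unfold B4_U
  exact_mod_cast (by omega : 8 * b < 2 * c + 11 * b + 1 - 2 * a - wt θ d)

theorem B4_zero {S : Finset (List L)} {P : List L → Prop} (h : ∀ l, ¬ P l) : cnt S P = 0 := by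
  classical
  unfold cnt
  rw [card_eq_zero, filter_eq_empty_iff]
  exact fun l _ => h l

theorem B4_step {η η' : ℤ × ℤ} (hdet : η.1 * η'.2 - η.2 * η'.1 ≠ 0) {b : ℤ} (hb : 1 ≤ b)
    (h1 : |η.1| ≤ b) (h2 : |η.2| ≤ b) (h1' : |η'.1| ≤ b) (h2' : |η'.2| ≤ b) {μ U U' : ℝ}
    (hμ : 0 ≤ μ) (hU : 8 * (b : ℝ) < U + U') (d : L) :
    ∑ e ∈ nxt d, phi (128 * (b : ℝ) ^ 4) μ (U - inc η d e - (U' - inc η' d e))
      (U - inc η d e + (U' - inc η' d e)) ≤ 3 * phi (128 * (b : ℝ) ^ 4) μ (U - U') (U + U') - 6 * μ := by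
  have b0 : (0 : ℝ) < b := by exact_mod_cast hb
  have s1 : ∑ e ∈ nxt d, (inc η d e : ℝ) = 0 := by exact_mod_cast sum_inc η d
  have s2 : ∑ e ∈ nxt d, (inc η' d e : ℝ) = 0 := by exact_mod_cast sum_inc η' d
  refine le_trans (le_of_eq (sum_congr rfl fun e _ => by congr 1 <;> ring))
    (phi_step (nxt d) (card_nxt d) (fun e => -(inc η d e : ℝ) + inc η' d e)
      (fun e => -(inc η d e : ℝ) - inc η' d e) _ μ (8 * b) (3 / (b : ℝ) ^ 2) (U - U') (U + U') hμ
      (by positivity) (le_of_eq (by field_simp; norm_num)) (by positivity) hU ?_ ?_ (fun e _ => ?_)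
      (fun u => ?_) ?_)
  · rw [sum_add_distrib, sum_neg_distrib, s1, s2, neg_zero, add_zero]
  · rw [sum_sub_distrib, sum_neg_distrib, s1, s2, neg_zero, sub_zero]
  · have k1 := abs_le.1 (abs_inc_le h1 h2 d e)
    have k2 := abs_le.1 (abs_inc_le h1' h2' d e)
    exact_mod_cast (abs_le.2 ⟨by omega, by omega⟩ : |-inc η d e - inc η' d e| ≤ 8 * b)
  · have k1 := (nondeg η η' hdet b h1 h2 h1' h2' u).1
    have k2 := sum_inc_sq η η' (-1 + u) (1 + u) d
    have k3 : 3 / (b : ℝ) ^ 2 = 6 * (1 / (2 * (b : ℝ) ^ 2)) := by field_simp; norm_num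
    refine le_trans (by linarith only [k1, k3]) (k2.trans (le_of_eq (sum_congr rfl fun e _ => by ring)))
  · have k1 := (nondeg η η' hdet b h1 h2 h1' h2' 0).2
    have k2 := sum_inc_sq η η' (-1) (-1) d
    refine le_trans (by linarith only [k1]) (k2.trans (le_of_eq (sum_congr rfl fun e _ => by ring)))

theorem B4_pot {η η' : ℤ × ℤ} (hdet : η.1 * η'.2 - η.2 * η'.1 ≠ 0) {b : ℤ} (hb : 1 ≤ b)
    (h1 : |η.1| ≤ b) (h2 : |η.2| ≤ b) (h1' : |η'.1| ≤ b) (h2' : |η'.2| ≤ b) (c : ℤ) {A μ R G : ℝ}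
    {N : ℕ} (hA : A = 128 * (b : ℝ) ^ 4) (hμ : 0 ≤ μ) (hR : 8 * (b : ℝ) ≤ R) (hG0 : 0 ≤ G)
    (hG : G ≤ 2 * μ * N) (hl : ∀ x y : ℝ, 0 < y → |x| ≤ y → y ≤ 2 * R →
      -Real.exp A ≤ phi A μ x y ∧ (R ≤ y → G ≤ phi A μ x y)) (j : ℕ) :
    j ≤ N → ∀ (a a' : ℤ) (d : L), a ≤ c + b → a' ≤ c + b →
      B4_U b c η a d + B4_U b c η' a' d ≤ 2 * R →
      (cnt (cont j d) fun l => ∀ i ≤ j, a + ht η l i ≤ c ∧ a' + ht η' l i ≤ c : ℝ) * G ≤
        3 ^ j * (phi A μ (B4_U b c η a d - B4_U b c η' a' d) (B4_U b c η a d + B4_U b c η' a' d)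
          + Real.exp A + 2 * μ * (N - j)) := by
  have b0 : (0 : ℝ) < b := by exact_mod_cast hb
  have low : ∀ (a a' : ℤ) (d : L), a ≤ c + b → a' ≤ c + b →
      B4_U b c η a d + B4_U b c η' a' d ≤ 2 * R → _ := fun a a' d ha ha' hY =>
    hl (B4_U b c η a d - B4_U b c η' a' d) _
      (by linarith only [b0, h1, h2, ha, h1', h2', ha', B4_U_gt h1 h2 ha d, B4_U_gt h1' h2' ha' d])
      (abs_le.2 ⟨by linarith only [b0, h1, h2, ha, B4_U_gt h1 h2 ha d], by linarith only [b0, h1', h2', ha', B4_U_gt h1' h2' ha' d]⟩) hY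
  induction j with
  | zero =>
    intro _ a a' d ha ha' hY
    have k1 := (low a a' d ha ha' hY).1
    have k2 := mul_le_of_le_one_left hG0 (Nat.cast_le_one.2 (cnt_cont_zero d
      fun l => ∀ i ≤ 0, a + ht η l i ≤ c ∧ a' + ht η' l i ≤ c))
    rw [pow_zero, one_mul, Nat.cast_zero, sub_zero]
    linarith only [hG, k1, k2]
  | succ j ih =>
    intro hj a a' d ha ha' hY
    obtain ⟨k1, k2⟩ := low a a' d ha ha' hY
    have k3 : 0 ≤ 2 * μ * ((N : ℝ) - (j + 1 : ℕ)) :=
      mul_nonneg (by linarith only [hμ]) (sub_nonneg.2 (by exact_mod_cast hj))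
    by_cases c1 : R ≤ B4_U b c η a d + B4_U b c η' a' d
    · refine mul_le_mul ?_ (by linarith only [k3, k2, c1, k2 c1, Real.exp_pos A]) hG0 (by positivity)
      exact_mod_cast (cnt_le_card _ _).trans (card_cont _ _).le
    by_cases c2 : a ≤ c ∧ a' ≤ c
    swap
    · have k4 : (cnt (cont (j + 1) d) fun l =>
          ∀ i ≤ j + 1, a + ht η l i ≤ c ∧ a' + ht η' l i ≤ c) = 0 := by
        refine B4_zero fun l hl => ?_
        have := hl 0 (Nat.zero_le _)
        rw [ht_zero, ht_zero, add_zero, add_zero] at this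
        exact c2 this
      rw [k4, Nat.cast_zero, zero_mul]
      exact mul_nonneg (by positivity) (by linarith only [k1, k3])
    have k5 := B4_step hdet hb h1 h2 h1' h2' (U := B4_U b c η a d) (U' := B4_U b c η' a' d) hμ
      (by linarith only [b0, h1, h2, ha, h1', h2', ha', B4_U_gt h1 h2 ha d, B4_U_gt h1' h2' ha' d]) d
    rw [cnt_cont_succ, Nat.cast_sum, sum_mul]
    refine (sum_le_sum (g := fun e => 3 ^ j * (phi A μ
      (B4_U b c η a d - inc η d e - (B4_U b c η' a' d - inc η' d e))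
      (B4_U b c η a d - inc η d e + (B4_U b c η' a' d - inc η' d e))
        + (Real.exp A + 2 * μ * (N - j)))) fun e _ => ?_).trans ?_
    · have w1 := abs_le.1 (abs_wt_le h1 h2 e)
      have w2 := abs_le.1 (abs_wt_le h1' h2' e)
      have w3 := abs_le.1 (abs_inc_le h1 h2 d e)
      have w4 := abs_le.1 (abs_inc_le h1' h2' d e)
      have w5 : -(8 * (b : ℝ)) ≤ inc η d e + inc η' d e := by
        exact_mod_cast (by omega : -(8 * b) ≤ inc η d e + inc η' d e)
      have k6 := ih (by omega) (a + wt η e) (a' + wt η' e) e (by omega) (by omega)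
        (by rw [B4_U_step b c η a d, B4_U_step b c η' a' d]; linarith only [hR, c1, w5])
      rw [B4_U_step b c η a d, B4_U_step b c η' a' d, add_assoc (phi _ _ _ _)] at k6
      refine le_trans (mul_le_mul_of_nonneg_right (Nat.cast_le.2
        (cnt_mono Subset.rfl fun l _ hl i hi => ?_)) hG0) k6
      have := hl (i + 1) (by omega)
      rwa [ht_cons_succ, ht_cons_succ, ← add_assoc, ← add_assoc] at this
    · rw [← mul_sum, sum_add_distrib, sum_const, card_nxt, pow_succ, mul_assoc ((3 : ℝ) ^ j)]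
      refine mul_le_mul_of_nonneg_left ?_ (by positivity)
      rw [← hA] at k5
      rw [nsmul_eq_mul]
      push_cast
      linarith only [k5]

theorem cone (η η' : ℤ × ℤ) (hdet : η.1 * η'.2 - η.2 * η'.1 ≠ 0) (c : ℤ) (ε : ℝ) (hε : 0 < ε) :
    ∀ᶠ T : ℕ in atTop, (cnt (red T) (Conf η η' c) : ℝ) ^ 2 * T ≤ ε * 9 ^ T := by
  obtain ⟨b, hb, h1, h2, h1', h2'⟩ : ∃ b : ℤ, 1 ≤ b ∧ |η.1| ≤ b ∧ |η.2| ≤ b ∧ |η'.1| ≤ b ∧ |η'.2| ≤ b := by
    have k1 := abs_nonneg η.1
    have k2 := abs_nonneg η.2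
    have k3 := abs_nonneg η'.1
    have k4 := abs_nonneg η'.2
    exact ⟨1 + |η.1| + |η.2| + |η'.1| + |η'.2|, by omega, by omega, by omega, by omega, by omega⟩
  obtain ⟨A, hA⟩ : ∃ A, A = 128 * (b : ℝ) ^ 4 := ⟨_, rfl⟩
  have hA0 : 0 ≤ A := by rw [hA]; positivity
  have b0 : (0 : ℝ) < b := by exact_mod_cast hb
  have c0 := abs_nonneg c
  obtain ⟨u, hu⟩ : ∃ u : ℝ, u = ((2 * |c| + 14 * b + 1 : ℤ) : ℝ) := ⟨_, rfl⟩
  obtain ⟨C, hC⟩ : ∃ C : ℝ, C = (2 * u) ^ 2 + Real.exp A := ⟨_, rfl⟩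
  have hs : Tendsto (fun T : ℕ => √(T : ℝ)) atTop atTop :=
    Real.tendsto_sqrt_atTop.comp tendsto_natCast_atTop_atTop
  have hlog := Real.tendsto_log_atTop.comp hs
  filter_upwards [hs.eventually (phi_lower A hA0), hs.eventually_ge_atTop (8 * b),
    hs.eventually_ge_atTop u, hlog.eventually_ge_atTop 1, hlog.eventually_ge_atTop (256 * C ^ 2 / ε),
    eventually_ge_atTop 2] with T e1 e2 e3 e4 e5 e6
  obtain ⟨N, rfl⟩ : ∃ N, T = N + 1 := ⟨T - 1, by omega⟩
  have hN : (1 : ℝ) ≤ N := by exact_mod_cast (by omega : 1 ≤ N)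
  have r2 : √((N + 1 : ℕ) : ℝ) ^ 2 = (N + 1 : ℕ) := Real.sq_sqrt (Nat.cast_nonneg _)
  rw [Function.comp_apply] at e4 e5
  rw [← r2]
  generalize √((N + 1 : ℕ) : ℝ) = R at *
  have r0 : 0 < R := by linarith only [b0, e2]
  have g0 : 0 ≤ R * Real.log R / 4 := by positivity
  have hU : ∀ {θ : ℤ × ℤ}, |θ.1| ≤ b → |θ.2| ≤ b → ∀ e, B4_U b |c| θ (wt θ e) e ≤ u := by
    intro θ k1 k2 e
    have := abs_le.1 (abs_wt_le k1 k2 e)
    rw [hu, B4_U]
    exact_mod_cast (by omega)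
  have key : (cnt (red (N + 1)) (Conf η η' c) : ℝ) * (R * Real.log R / 4) ≤ 4 * (3 ^ N * C) := by
    rw [cnt_red_succ, Nat.cast_sum, sum_mul]
    refine (sum_le_card_nsmul _ _ (3 ^ N * C) fun e _ => ?_).trans (by simp)
    have w1 := abs_le.1 (abs_wt_le h1 h2 e)
    have w2 := abs_le.1 (abs_wt_le h1' h2' e)
    have u1 := hU h1 h2 e
    have u2 := hU h1' h2' e
    have v1 := B4_U_gt (c := |c|) h1 h2 (a := wt η e) (by omega) e
    have v2 := B4_U_gt (c := |c|) h1' h2' (a := wt η' e) (by omega) e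
    have k := B4_pot hdet hb h1 h2 h1' h2' |c| (N := N) hA (by positivity) e2 g0 (by
      have e7 : 2 * (Real.log R / (4 * R)) * N = Real.log R * (2 * N) / (4 * R) := by ring
      rw [e7, le_div_iff₀ (by positivity)]
      push_cast at r2
      linarith only [hN, r2, e4, mul_nonneg_of_nonpos_of_nonpos (Mathlib.Tactic.Linarith.sub_nonpos_of_le hN) (Mathlib.Tactic.Linarith.sub_nonpos_of_le e4), Mathlib.Tactic.Linarith.mul_zero_eq (Mathlib.Tactic.Linarith.sub_nonpos_of_le e4) (sub_eq_zero_of_eq r2)]) e1 N le_rfl (wt η e) (wt η' e) e (by omega) (by omega) (by linarith only [e3, u1, u2])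
    refine le_trans (mul_le_mul_of_nonneg_right (Nat.cast_le.2
      (cnt_mono Subset.rfl fun l hl hc i hi => ?_)) g0) (k.trans ?_)
    · have := hc (i + 1) (by rw [List.length_cons, (mem_cont.1 hl).1]; omega)
      rw [ht_cons_succ, ht_cons_succ] at this
      exact ⟨this.1.trans (le_abs_self c), this.2.trans (le_abs_self c)⟩
    · rw [sub_self, mul_zero, add_zero, hC]
      gcongr
      refine (phi_upper _ _ _ _ hA0 (by positivity) (by linarith only [b0, v1, v2])).trans ?_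
      exact pow_le_pow_left₀ (by linarith only [b0, v1, v2]) (by linarith only [u1, u2]) 2
  generalize (cnt (red (N + 1)) (Conf η η' c)) = n at key
  have k1 := pow_le_pow_left₀ (by positivity) key 2
  have k2 : ((3 : ℝ) ^ N) ^ 2 ≤ 9 ^ (N + 1) := by
    rw [← pow_mul, mul_comm, pow_mul]
    norm_num
    exact pow_le_pow_right₀ (by norm_num) (Nat.le_succ _)
  rw [div_le_iff₀ hε] at e5
  have k3 : 256 * C ^ 2 ≤ Real.log R ^ 2 * ε := by
    refine e5.trans (mul_le_mul_of_nonneg_right ?_ hε.le)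
    linarith only [e4, mul_nonneg_of_nonpos_of_nonpos (Mathlib.Tactic.Linarith.sub_nonpos_of_le e4) (Mathlib.Tactic.Linarith.sub_nonpos_of_le e4)]
  refine le_of_mul_le_mul_right ?_ (by positivity : 0 < Real.log R ^ 2)
  calc _ = 16 * ((n : ℝ) * (R * Real.log R / 4)) ^ 2 := by ring
    _ ≤ 16 * (4 * (3 ^ N * C)) ^ 2 := by linarith only [k1]
    _ = (3 ^ N) ^ 2 * (256 * C ^ 2) := by ring
    _ ≤ 9 ^ (N + 1) * (Real.log R ^ 2 * ε) := by gcongr
    _ = _ := by ring

end Pool.Agent.Work.MP_c2f093_al.Gen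
end

-- merged part: Pool.Agent.Work.MP_c2f093_al.Gen.B6
section
/-!
Around a nearly extremal vertex the path is confined on one side.

Plan for `near_side`.  Write `n = x.length`, `h = hp θ x`.  First (`slow_diff`): if `i ≤ T` then
`|h (w + i) - h w| < r` for every `w` (reduce to `w < n` by `hp_add_length`, take the block `j = w / T`,
`ht_rotate`, and subtract the two values at `w - j * T` and `w - j * T + i ≤ 2 * T`).
Let `(p, q)` be the arc given by `Near`, `q = (p + g) % n` with `0 < g < n`, so `val p q = h (p + g) - h p` (`val_eq_hp`).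
Comparing with the arc given by `Marg`: `val p q > s - c` and `val p q - tot > s - c`.  The first forces `T < g`, the second
`T < n - g` (because `h (p + n) - h (p + g) = tot - val p q`).  If `z = p` take `σ = -1` and compare with the arcs from
`p + i` and from `p - i` to `q` (lengths `g - i` and `g + i`, both in `(0, n)`); if `z = q` take `σ = 1` and compare
with the arcs from `p` of lengths `g + i` and `g - i`.
`near_conf`: `ht_smul`, `ht_invRev`, `ht_take`, `ht_drop`, `ht_rotate`.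
-/

namespace Pool.Agent.Work.MP_c2f093_al.Gen

open Finset Filter

theorem B6_per (θ : ℤ × ℤ) (x : List L) (a k : ℕ) :
    hp θ x (a + k * x.length) = hp θ x a + k * tot θ x := by
  induction k with
  | zero => simp
  | succ k ih =>
    rw [Nat.succ_mul, ← add_assoc, hp_add_length, ih]
    push_cast
    ring

theorem B6_arc (θ : ℤ × ℤ) {x : List L} {p q : ℕ} (hp' : p < x.length) (hq : q < x.length)
    (h : p ≠ q) : ∃ g, 0 < g ∧ g < x.length ∧ (p + g = q ∨ p + g = q + x.length) ∧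
      val θ x p q = hp θ x (p + g) - hp θ x p := by
  rcases lt_or_gt_of_ne h with k | k
  · refine ⟨q - p, by omega, by omega, Or.inl (by omega), ?_⟩
    rw [← val_eq_hp θ x p _ (by omega), Nat.mod_eq_of_lt hp', Nat.add_sub_cancel' k.le,
      Nat.mod_eq_of_lt hq]
  · refine ⟨q + x.length - p, by omega, by omega, Or.inr (by omega), ?_⟩
    rw [← val_eq_hp θ x p _ (by omega), Nat.mod_eq_of_lt hp', Nat.add_sub_cancel' (by omega),
      Nat.add_mod_right, Nat.mod_eq_of_lt hq]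

theorem B6_ne {n p g : ℕ} (h0 : 0 < g) (h1 : g < n) : p % n ≠ (p + g) % n := fun h =>
  Nat.not_dvd_of_pos_of_lt h0 h1 (by
    simpa using (Nat.modEq_iff_dvd' (Nat.le_add_right p g)).1 h)

theorem B6_conf (θ : ℤ × ℤ) {T z : ℕ} {x : List L} (hn : 2 * T ≤ x.length) {i : ℕ} (hi : i ≤ T) :
    ht θ (FreeGroup.invRev (((x.rotate (z + x.length - T)).take (2 * T)).take T)) i =
        hp θ x (z + x.length - i) - hp θ x (z + x.length) ∧
      ht θ (((x.rotate (z + x.length - T)).take (2 * T)).drop T) i =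
        hp θ x (z + x.length + i) - hp θ x (z + x.length) := by
  have hl : (((x.rotate (z + x.length - T)).take (2 * T)).take T).length = T := by
    simp only [List.length_take, List.length_rotate]
    omega
  have e1 : z + x.length - T + T = z + x.length := by omega
  have e2 : z + x.length - T + (T - i) = z + x.length - i := by omega
  have e3 : z + x.length - T + (T + i) = z + x.length + i := by omega
  constructor
  · rw [ht_invRev _ _ _ (by omega), hl, ht_take _ _ _ _ (by omega), ht_take _ _ _ _ (by omega),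
      ht_take _ _ _ _ le_rfl, ht_take _ _ _ _ (by omega), ht_rotate _ _ _ _ (by omega),
      ht_rotate _ _ _ _ (by omega), e1, e2]
    ring
  · rw [ht_drop, ht_take _ _ _ _ (by omega), ht_take _ _ _ _ (by omega),
      ht_rotate _ _ _ _ (by omega), ht_rotate _ _ _ _ (by omega), e1, e3]
    ring

theorem slow_diff {θ : ℤ × ℤ} {r : ℤ} {T : ℕ} {x : List L} (hT : 1 ≤ T) (hn : 2 * T ≤ x.length)
    (hS : Slow θ r T x) (w i : ℕ) (hi : i ≤ T) : |hp θ x (w + i) - hp θ x w| < r := by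
  have h0 : 0 < x.length := by omega
  have h1 := Nat.mod_lt w h0
  have h2 := Nat.mod_lt (w % x.length) (show 0 < T by omega)
  have h3 : w % x.length / T ≤ x.length / T := Nat.div_le_div_right h1.le
  have a := hS _ h3 (w % x.length % T) (by omega)
  have b := hS _ h3 (w % x.length % T + i) (by omega)
  rw [ht_rotate _ _ _ _ (by omega)] at a b
  rw [← add_assoc] at b
  rw [Nat.div_add_mod'] at a b
  have c1 := B6_per θ x (w % x.length) (w / x.length)
  have c2 := B6_per θ x (w % x.length + i) (w / x.length)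
  rw [add_right_comm] at c2
  rw [Nat.mod_add_div'] at c1 c2
  rw [c1, c2, abs_lt]
  have a1 := le_abs_self (hp θ x (w % x.length) - hp θ x (w % x.length / T * T))
  have a2 := neg_abs_le (hp θ x (w % x.length) - hp θ x (w % x.length / T * T))
  have b1 := le_abs_self (hp θ x (w % x.length + i) - hp θ x (w % x.length / T * T))
  have b2 := neg_abs_le (hp θ x (w % x.length + i) - hp θ x (w % x.length / T * T))
  constructor <;> linarith only [a, b, a1, b2, a2, b1]

theorem near_side {θ : ℤ × ℤ} {s c : ℤ} {T z : ℕ} {x : List L} (hT : 1 ≤ T) (hn : 2 * T ≤ x.length)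
    (hM : Marg θ s x) (hN : Near θ c x z) (hS : Slow θ (s - c) T x) :
    ∃ σ : ℤ, (σ = 1 ∨ σ = -1) ∧ ∀ i ≤ T,
      σ * (hp θ x (z + x.length + i) - hp θ x (z + x.length)) ≤ c ∧
      σ * (hp θ x (z + x.length - i) - hp θ x (z + x.length)) ≤ c := by
  obtain ⟨p, q, h1, h2, h3, h4, h5⟩ := hN
  obtain ⟨p', q', k1, k2, k3, k4, k5⟩ := hM
  have k6 := h5 p' q' k1 k2 k3
  obtain ⟨g, g0, g1, g2, g3⟩ := B6_arc θ h1 h2 h3
  have cmp : ∀ w l, 0 < l → l < x.length → hp θ x (w + l) - hp θ x w < val θ x p q + c :=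
    fun w l a b => by
      rw [← val_eq_hp θ x w l b]
      exact h5 _ _ (Nat.mod_lt _ (by omega)) (Nat.mod_lt _ (by omega)) (B6_ne a b)
  have t1 : T < g := by
    by_contra k
    have := (abs_lt.1 (slow_diff hT hn hS p g (by omega))).2
    linarith only [k4, k6, g3, this]
  have e1 := hp_add_length θ x p
  have e2 := hp_add_length θ x (p + g)
  have t2 : T + g < x.length := by
    by_contra k
    have := (abs_lt.1 (slow_diff hT hn hS (p + g) (x.length - g) (by omega))).1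
    rw [show p + g + (x.length - g) = p + x.length by omega] at this
    linarith only [k5, k6, g3, e1, this]
  rcases h4 with rfl | rfl
  · refine ⟨-1, Or.inr rfl, fun i hi => ⟨?_, ?_⟩⟩
    · have := cmp (p + x.length + i) (g - i) (by omega) (by omega)
      rw [show p + x.length + i + (g - i) = p + g + x.length by omega] at this
      linarith only [g3, e1, e2, this]
    · have := cmp (p + x.length - i) (g + i) (by omega) (by omega)
      rw [show p + x.length - i + (g + i) = p + g + x.length by omega] at this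
      linarith only [g3, e1, e2, this]
  · obtain ⟨w, w1, w2⟩ : ∃ w, w + g = q + x.length ∧
        val θ x p q = hp θ x (q + x.length) - hp θ x w := by
      rcases g2 with k | k
      · exact ⟨p + x.length, by omega, by rw [g3, ← k, e1, e2]; ring⟩
      · exact ⟨p, k, by rw [g3, k]⟩
    refine ⟨1, Or.inl rfl, fun i hi => ⟨?_, ?_⟩⟩
    · have := cmp w (g + i) (by omega) (by omega)
      rw [show w + (g + i) = q + x.length + i by omega] at this
      linarith only [w2, this]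
    · have := cmp w (g - i) (by omega) (by omega)
      rw [show w + (g - i) = q + x.length - i by omega] at this
      linarith only [w2, this]

theorem near_conf {θ θ' : ℤ × ℤ} {s c : ℤ} {T z : ℕ} {x : List L} (hT : 1 ≤ T)
    (hn : 2 * T ≤ x.length) (hM : Marg θ s x) (hN : Near θ c x z) (hS : Slow θ (s - c) T x)
    (hM' : Marg θ' s x) (hN' : Near θ' c x z) (hS' : Slow θ' (s - c) T x) :
    ∃ σ σ' : ℤ, (σ = 1 ∨ σ = -1) ∧ (σ' = 1 ∨ σ' = -1) ∧
      Conf (σ • θ) (σ' • θ') c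
        (FreeGroup.invRev (((x.rotate (z + x.length - T)).take (2 * T)).take T)) ∧
      Conf (σ • θ) (σ' • θ') c (((x.rotate (z + x.length - T)).take (2 * T)).drop T) := by
  obtain ⟨σ, h1, h2⟩ := near_side hT hn hM hN hS
  obtain ⟨σ', h1', h2'⟩ := near_side hT hn hM' hN' hS'
  refine ⟨σ, σ', h1, h1', fun i hi => ?_, fun i hi => ?_⟩
  · have hi' : i ≤ T := by
      simp only [FreeGroup.invRev_length, List.length_take, List.length_rotate] at hi
      omega
    rw [ht_smul, ht_smul, (B6_conf θ hn hi').1, (B6_conf θ' hn hi').1]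
    exact ⟨(h2 i hi').2, (h2' i hi').2⟩
  · have hi' : i ≤ T := by
      simp only [List.length_drop, List.length_take, List.length_rotate] at hi
      omega
    rw [ht_smul, ht_smul, (B6_conf θ hn hi').2, (B6_conf θ' hn hi').2]
    exact ⟨(h2 i hi').1, (h2' i hi').1⟩

end Pool.Agent.Work.MP_c2f093_al.Gen
end

-- merged part: Pool.Agent.Work.MP_c2f093_al.Gen.B7b
section
/-!
Two directions rarely share a nearly extremal vertex.

Put `T = n / K`; eventually `1 ≤ T`, and `2 * T ≤ n ≤ 2 * K * T`.  If `Sep` fails there are `k ≠ k'` in `Icc 1 m` and a vertex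
`z < n` near for both, and `near_conf` gives signs.  Union bound (`cnt_exists_le`) over `(k, k', σ, σ')` and
`z ∈ range n`; each term is at most `cnt (red T) (Conf ..) ^ 2 * 3 ^ (n - 2 * T)` by `cnt_rotate`, `cyc_subset_red`,
`cnt_take` (with `2 * T`), `cnt_pair`.  Apply `cone` with `ε' = ε / (8 * (m + 1) ^ 2 * K)` to the finitely many pairs
`(σ • dir k, σ' • dir k')` (determinant `σ * σ' * (k - k') ≠ 0`; `Filter.eventually_all_finset`), composed with
`Tendsto (fun n => n / K) atTop atTop` (`Nat.tendsto_div_const_atTop`).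
-/

namespace Pool.Agent.Work.MP_c2f093_al.Gen

open Finset Filter

/-- the index set of pairs of different directions with signs -/
def B7b_idx (m : ℕ) : Finset ((ℕ × ℕ) × ℤ × ℤ) :=
  (Icc 1 m).offDiag ×ˢ (({1, -1} : Finset ℤ) ×ˢ ({1, -1} : Finset ℤ))

theorem B7b_mem {m : ℕ} {i : (ℕ × ℕ) × ℤ × ℤ} : i ∈ B7b_idx m ↔
    (i.1.1 ∈ Icc 1 m ∧ i.1.2 ∈ Icc 1 m ∧ i.1.1 ≠ i.1.2) ∧ (i.2.1 = 1 ∨ i.2.1 = -1) ∧
      (i.2.2 = 1 ∨ i.2.2 = -1) := by
  simp only [B7b_idx, mem_product, mem_offDiag, mem_insert, mem_singleton]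

theorem B7b_card (m : ℕ) : (B7b_idx m).card ≤ 4 * (m + 1) ^ 2 := by
  have h1 : ({1, -1} : Finset ℤ).card = 2 := by decide
  rw [B7b_idx, card_product, card_product, offDiag_card, h1, Nat.card_Icc, Nat.add_sub_cancel]
  have h2 := Nat.sub_le (m * m) m
  linarith only [h2]

theorem B7b_term (n T r : ℕ) (h1 : 1 ≤ T) (h2 : 2 * T ≤ n) (P : List L → Prop) :
    cnt (cyc n) (fun x => P (FreeGroup.invRev (((x.rotate r).take (2 * T)).take T)) ∧
      P (((x.rotate r).take (2 * T)).drop T)) ≤ cnt (red T) P ^ 2 * 3 ^ (n - 2 * T) := by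
  rw [cnt_rotate n r fun x => P (FreeGroup.invRev ((x.take (2 * T)).take T)) ∧
    P ((x.take (2 * T)).drop T)]
  refine (cnt_mono (cyc_subset_red n) fun _ _ h => h).trans ?_
  refine (cnt_take n (2 * T) (by omega) h2
    fun x => P (FreeGroup.invRev (x.take T)) ∧ P (x.drop T)).trans ?_
  rw [sq]
  exact Nat.mul_le_mul_right _ (cnt_pair T P P)

theorem B7b_union (m n T : ℕ) (s : ℤ) (h1 : 1 ≤ T) (h2 : 2 * T ≤ n) :
    cnt (cyc n) (fun x => (∀ k ∈ Icc 1 m, Marg (dir k) s x ∧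
        Slow (dir k) (s - (2 * m + 3)) T x) ∧ ¬ Sep m x) ≤
      ∑ i ∈ B7b_idx m, n * (cnt (red T)
        (Conf (i.2.1 • dir i.1.1) (i.2.2 • dir i.1.2) (2 * m + 3)) ^ 2 * 3 ^ (n - 2 * T)) := by
  refine le_trans (cnt_mono Subset.rfl fun x hx h => ?_) ((cnt_exists_le (cyc n) (B7b_idx m)
    fun i x => ∃ z ∈ range n,
      Conf (i.2.1 • dir i.1.1) (i.2.2 • dir i.1.2) (2 * m + 3)
        (FreeGroup.invRev (((x.rotate (z + n - T)).take (2 * T)).take T)) ∧
      Conf (i.2.1 • dir i.1.1) (i.2.2 • dir i.1.2) (2 * m + 3)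
        (((x.rotate (z + n - T)).take (2 * T)).drop T)).trans (sum_le_sum fun i _ => ?_))
  · have hl : x.length = n := (mem_cyc.1 hx).1
    obtain ⟨h3, h4⟩ := h
    unfold Sep at h4
    push Not at h4
    obtain ⟨k, hk, k', hk', hne, z, hz, hz'⟩ := h4
    obtain ⟨σ, σ', e1, e2, e3⟩ := near_conf h1 (hl ▸ h2) (h3 k hk).1 hz (h3 k hk).2
      (h3 k' hk').1 hz' (h3 k' hk').2
    refine ⟨((k, k'), σ, σ'), B7b_mem.2 ⟨⟨hk, hk', hne⟩, e1, e2⟩, z, mem_range.2 ?_, hl ▸ e3⟩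
    obtain ⟨p, q, k1, k2, -, k3 | k3, -⟩ := hz <;> omega
  · refine (cnt_exists_le (cyc n) (range n) _).trans ?_
    refine (sum_le_card_nsmul _ _ _ fun z _ => B7b_term n T _ h1 h2 _).trans ?_
    rw [card_range, smul_eq_mul]

theorem near_small (m K : ℕ) (hK : 2 ≤ K) (s : ℕ → ℤ) (ε : ℝ) (hε : 0 < ε) :
    ∀ᶠ n : ℕ in atTop,
      (cnt (cyc n) (fun x => (∀ k ∈ Icc 1 m, Marg (dir k) (s n) x ∧
        Slow (dir k) (s n - (2 * m + 3)) (n / K) x) ∧ ¬ Sep m x) : ℝ) ≤ ε * 3 ^ n := by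
  have hK0 : (0 : ℝ) < K := by exact_mod_cast (by omega : 0 < K)
  have hε' : 0 < ε / (8 * ((m : ℝ) + 1) ^ 2 * K) := by positivity
  have h1 : ∀ᶠ T : ℕ in atTop, ∀ i ∈ B7b_idx m, (cnt (red T)
      (Conf (i.2.1 • dir i.1.1) (i.2.2 • dir i.1.2) (2 * m + 3)) : ℝ) ^ 2 * T ≤
        ε / (8 * ((m : ℝ) + 1) ^ 2 * K) * 9 ^ T := by
    refine (eventually_all_finset _).2 fun i hi => cone _ _ ?_ _ _ hε'
    obtain ⟨⟨-, -, k1⟩, k2, k3⟩ := B7b_mem.1 hi
    have k4 : (i.1.1 : ℤ) ≠ i.1.2 := by exact_mod_cast k1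
    simp only [dir, Prod.smul_mk, smul_eq_mul]
    rcases k2 with k2 | k2 <;> rcases k3 with k3 | k3 <;> rw [k2, k3] <;> omega
  have h2 := (Nat.tendsto_div_const_atTop (by omega : K ≠ 0)).eventually
    (h1.and (eventually_ge_atTop 1))
  filter_upwards [h2] with n hn
  obtain ⟨h3, h4⟩ := hn
  have h5 : K * (n / K) ≤ n := Nat.mul_div_le n K
  have h6 : n < K * (n / K + 1) := Nat.lt_mul_div_succ n (by omega)
  generalize n / K = T at *
  have h7 : 2 * T ≤ n := (Nat.mul_le_mul_right T hK).trans h5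
  have h8 : (n : ℝ) ≤ 2 * K * T := by
    have : n ≤ 2 * K * T := by nlinarith only [h6, h4]
    exact_mod_cast this
  have h9 : (9 : ℝ) ^ T * 3 ^ (n - 2 * T) = 3 ^ n := by
    rw [show (9 : ℝ) = 3 ^ 2 by norm_num, ← pow_mul, ← pow_add, Nat.add_sub_cancel' h7]
  have h10 : ((B7b_idx m).card : ℝ) ≤ 4 * ((m : ℝ) + 1) ^ 2 := by exact_mod_cast B7b_card m
  refine (Nat.cast_le.2 (B7b_union m n T (s n) h4 h7)).trans ?_
  push_cast
  refine (sum_le_card_nsmul _ _ (ε / (4 * ((m : ℝ) + 1) ^ 2) * 3 ^ n) fun i hi => ?_).trans ?_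
  · have k1 := h3 i hi
    generalize (cnt (red T) (Conf (i.2.1 • dir i.1.1) (i.2.2 • dir i.1.2) (2 * m + 3)) : ℝ) = C
      at *
    calc (n : ℝ) * (C ^ 2 * 3 ^ (n - 2 * T)) ≤ 2 * K * T * (C ^ 2 * 3 ^ (n - 2 * T)) := by gcongr
      _ = 2 * K * 3 ^ (n - 2 * T) * (C ^ 2 * T) := by ring
      _ ≤ 2 * K * 3 ^ (n - 2 * T) * (ε / (8 * ((m : ℝ) + 1) ^ 2 * K) * 9 ^ T) := by gcongr
      _ = ε / (4 * ((m : ℝ) + 1) ^ 2) * (9 ^ T * 3 ^ (n - 2 * T)) := by
        field_simp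
        ring
      _ = _ := by rw [h9]
  · rw [nsmul_eq_mul]
    calc ((B7b_idx m).card : ℝ) * (ε / (4 * ((m : ℝ) + 1) ^ 2) * 3 ^ n)
        ≤ 4 * ((m : ℝ) + 1) ^ 2 * (ε / (4 * ((m : ℝ) + 1) ^ 2) * 3 ^ n) := by gcongr
      _ = _ := by field_simp

end Pool.Agent.Work.MP_c2f093_al.Gen
end

-- merged part: Pool.Agent.Work.MP_c2f093_al.Gen.B7
section
/-!
Almost all cyclically reduced words are rigid.  Choose `m` with `2 * 3 ^ 8 / m ≤ ε / 4`, then `J` (`marg_small`), then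
`K` (`slow_small` with `c = 2 * m + 3`); eventually `2 * m + 2 ≤ sqrt n / J`.  A word that is not rigid is not `Uniq` in any
direction where it has a margin (`thmA`, `Marg.mono`), so it is counted by `marg_small`, `slow_small`, `near_small` or
`switch` (with `cyc_subset_red`, `card_red_le`).
-/

namespace Pool.Agent.Work.MP_c2f093_al.Gen

open Finset Filter

theorem b7_ev (a J : ℕ) (hJ : 1 ≤ J) : ∀ᶠ n : ℕ in atTop, a ≤ Nat.sqrt n / J := by
  filter_upwards [eventually_ge_atTop (a * J * (a * J))] with n hn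
  exact (Nat.le_div_iff_mul_le hJ).2 (Nat.le_sqrt.2 hn)

theorem b7_switch (m n : ℕ) {ε : ℝ} (hm : 2 * 3 ^ 8 ≤ ε * m) (hm1 : 1 ≤ m) :
    (cnt (cyc n) (fun x => (∀ k ∈ Icc 1 m, Marg (dir k) (2 * m + 2) x ∧ ¬ Uniq (dir k) x) ∧
      Sep m x) : ℝ) ≤ ε * 3 ^ n := by
  have h1 := (switch m n).trans ((card_le_card (cyc_subset_red _)).trans (card_red_le _))
  have h2 : (cnt (cyc n) (fun x => (∀ k ∈ Icc 1 m, Marg (dir k) (2 * m + 2) x ∧
      ¬ Uniq (dir k) x) ∧ Sep m x) : ℝ) * m ≤ 2 * 3 ^ (n + 8) := by exact_mod_cast h1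
  have h3 : (0 : ℝ) < m := by exact_mod_cast hm1
  have h4 := mul_le_mul_of_nonneg_right hm (by positivity : (0 : ℝ) ≤ 3 ^ n)
  refine le_of_mul_le_mul_right ?_ h3
  rw [pow_add] at h2
  linarith only [h2, h4]

theorem cyc_small (ε : ℝ) (hε : 0 < ε) :
    ∀ᶠ n : ℕ in atTop, (cnt (cyc n) (fun x => ¬ Rigid (FreeGroup.mk x)) : ℝ) ≤ ε * 3 ^ n := by
  obtain ⟨m, hm⟩ := exists_nat_ge (2 * 3 ^ 8 / (ε / 4) + 1)
  have e4 : 0 < ε / 4 := by positivity
  have hm0 : (0 : ℝ) ≤ 2 * 3 ^ 8 / (ε / 4) := by positivity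
  have hm1 : 1 ≤ m := by exact_mod_cast (by linarith only [hm, hm0] : (1 : ℝ) ≤ m)
  have hm2 : 2 * 3 ^ 8 ≤ ε / 4 * m := by
    rw [mul_comm (ε / 4), ← div_le_iff₀ e4]
    linarith only [hm]
  obtain ⟨J, hJ, h1⟩ := marg_small m (ε / 4) e4
  obtain ⟨K, hK, h2⟩ := slow_small m J hJ (2 * m + 3) (ε / 4) e4
  have h3 := near_small m K hK (fun n => ((Nat.sqrt n / J : ℕ) : ℤ)) (ε / 4) e4
  filter_upwards [h1, h2, h3, b7_ev (2 * m + 2) J hJ] with n a1 a2 a3 a4
  have a5 := b7_switch m n hm2 hm1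
  have a6 : (2 * m + 2 : ℤ) ≤ ((Nat.sqrt n / J : ℕ) : ℤ) := by exact_mod_cast a4
  have key := (cnt_mono (S := cyc n) (P := fun x => ¬ Rigid (FreeGroup.mk x))
    (Q := fun x => (∃ k ∈ Icc 1 m, ¬ Marg (dir k) ((Nat.sqrt n / J : ℕ) : ℤ) x) ∨
      (∃ k ∈ Icc 1 m, ¬ Slow (dir k) (((Nat.sqrt n / J : ℕ) : ℤ) - (2 * m + 3)) (n / K) x) ∨
      ((∀ k ∈ Icc 1 m, Marg (dir k) ((Nat.sqrt n / J : ℕ) : ℤ) x ∧
        Slow (dir k) (((Nat.sqrt n / J : ℕ) : ℤ) - (2 * m + 3)) (n / K) x) ∧ ¬ Sep m x) ∨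
      ((∀ k ∈ Icc 1 m, Marg (dir k) (2 * m + 2) x ∧ ¬ Uniq (dir k) x) ∧ Sep m x))
    Subset.rfl (fun x hx hr => by
      by_cases b1 : ∃ k ∈ Icc 1 m, ¬ Marg (dir k) ((Nat.sqrt n / J : ℕ) : ℤ) x
      · exact Or.inl b1
      by_cases b2 : ∃ k ∈ Icc 1 m,
          ¬ Slow (dir k) (((Nat.sqrt n / J : ℕ) : ℤ) - (2 * m + 3)) (n / K) x
      · exact Or.inr (Or.inl b2)
      have c1 : ∀ k ∈ Icc 1 m, Marg (dir k) ((Nat.sqrt n / J : ℕ) : ℤ) x := fun k hk => by
        by_contra hn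
        exact b1 ⟨k, hk, hn⟩
      have c2 : ∀ k ∈ Icc 1 m,
          Slow (dir k) (((Nat.sqrt n / J : ℕ) : ℤ) - (2 * m + 3)) (n / K) x := fun k hk => by
        by_contra hn
        exact b2 ⟨k, hk, hn⟩
      by_cases b3 : Sep m x
      · refine Or.inr (Or.inr (Or.inr ⟨fun k hk => ⟨(c1 k hk).mono a6, fun hU => hr ?_⟩, b3⟩))
        have k1 : (0 : ℤ) < k := by exact_mod_cast (mem_Icc.1 hk).1
        exact thmA (dir k) k1 one_pos x (mem_cyc.1 hx).2 hU ((c1 k hk).mono (by omega))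
      · exact Or.inr (Or.inr (Or.inl ⟨fun k hk => ⟨c1 k hk, c2 k hk⟩, b3⟩)))).trans
    ((cnt_or_le _ _ _).trans (Nat.add_le_add_left ((cnt_or_le _ _ _).trans
      (Nat.add_le_add_left (cnt_or_le _ _ _) _)) _))
  have key' := (Nat.cast_le (α := ℝ)).2 key
  rw [Nat.cast_add, Nat.cast_add, Nat.cast_add] at key'
  linarith only [a1, a2, a3, a5, key']

end Pool.Agent.Work.MP_c2f093_al.Gen
end

-- merged part: Pool.Agent.Work.MP_c2f093_al.Gen.B8
section
/-!
From cyclically reduced words to balls.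

The ball is in bijection with the reduced words of length at most `n` (`FreeGroup.toWord`, `FreeGroup.norm`), so it is
finite and has at least `(red n).card ≥ 3 ^ n` elements.  For `u` in the ball write
`u.toWord = C ++ Z ++ invRev C` with `C = FreeGroup.reduceCyclically.conjugator u.toWord`,
`Z = FreeGroup.reduceCyclically u.toWord` (`FreeGroup.reduceCyclically.conj_conjugator_reduceCyclically`); `C` is reduced,
`Z` is cyclically reduced, `u` is conjugate to `mk Z`, and the map `u ↦ (C, Z)` is injective.  So the number of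
`u` in the ball with `¬ Q u` is at most the sum over `2 * i + l ≤ n` of `(red i).card * bad l`, where
`bad l = cnt (cyc l) (fun x => ¬ R (mk x))`.  For `l ≥ N` use `bad l ≤ ε * 3 ^ l` (total at most `5 * ε * 3 ^ n` by two
geometric sums), for `l < N` use `bad l ≤ 2 * 3 ^ l` (total at most `C N * 3 ^ (n / 2)`).
-/

namespace Pool.Agent.Work.MP_c2f093_al.Gen

open Finset Filter

theorem B8_geo (m : ℕ) : ∑ l ∈ range (m + 1), (3 : ℝ) ^ l ≤ 3 / 2 * 3 ^ m := by
  induction m with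
  | zero => norm_num
  | succ m ih =>
    rw [sum_range_succ, pow_succ]
    linarith only [ih]

theorem B8_geo' (m : ℕ) : ∑ i ∈ range m, (1 / 3 : ℝ) ^ i ≤ 3 / 2 := by
  have h : ∑ i ∈ range m, (1 / 3 : ℝ) ^ i = 3 / 2 - 3 / 2 * (1 / 3) ^ m := by
    induction m with
    | zero => norm_num
    | succ m ih =>
      rw [sum_range_succ, pow_succ, ih]
      ring
  have : (0 : ℝ) ≤ (1 / 3) ^ m := by positivity
  linarith only [h, this]

theorem B8_inner {b : ℕ → ℝ} (h0 : ∀ l, 0 ≤ b l) {δ : ℝ} (hδ : 0 ≤ δ) {N : ℕ}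
    (h : ∀ l, N ≤ l → b l ≤ δ * 3 ^ l) (m : ℕ) :
    ∑ l ∈ range (m + 1), b l ≤ δ * (3 / 2 * 3 ^ m) + ∑ l ∈ range N, b l := by
  have h1 : ∀ l ∈ range (m + 1), b l ≤ δ * 3 ^ l + if l ∈ range N then b l else 0 := fun l _ => by
    split_ifs with k
    · have : 0 ≤ δ * 3 ^ l := by positivity
      linarith only [this]
    · rw [add_zero]
      exact h l (not_lt.1 fun k' => k (mem_range.2 k'))
  refine (sum_le_sum h1).trans ?_
  rw [sum_add_distrib, ← mul_sum, sum_ite_mem]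
  exact add_le_add (mul_le_mul_of_nonneg_left (B8_geo m) hδ)
    (sum_le_sum_of_subset_of_nonneg inter_subset_right fun l _ _ => h0 l)

theorem B8_pow {n i : ℕ} (h : 2 * i ≤ n) : (3 : ℝ) ^ i * 3 ^ (n - 2 * i) = 3 ^ n * (1 / 3) ^ i := by
  obtain ⟨k, rfl⟩ := Nat.exists_eq_add_of_le h
  rw [Nat.add_sub_cancel_left, two_mul, pow_add, pow_add, one_div, inv_pow]
  field_simp

theorem ball_finite (n : ℕ) : {u : F2 | u.norm ≤ n}.Finite := by
  exact Set.Finite.preimage FreeGroup.toWord_injective.injOn (List.finite_length_le L n)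

theorem ball_card (n : ℕ) : 3 ^ n ≤ {u : F2 | u.norm ≤ n}.ncard := by
  have h1 : 3 ^ n ≤ (red n).card := by
    cases n with
    | zero => exact card_pos.2 ⟨[], mem_red.2 ⟨rfl, FreeGroup.IsReduced.nil⟩⟩
    | succ n =>
      rw [card_red, pow_succ]
      omega
  have h2 : ∀ l ∈ red n, (FreeGroup.mk l).toWord = l := fun l hl => by
    rw [FreeGroup.toWord_mk, (mem_red.1 hl).2.reduce_eq]
  refine h1.trans ?_
  rw [← Set.ncard_coe_finset]
  refine Set.ncard_le_ncard_of_injOn FreeGroup.mk (fun l hl => ?_) (fun l hl l' hl' e => ?_)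
    (ball_finite n)
  · exact FreeGroup.norm_mk_le.trans (mem_red.1 hl).1.le
  · rw [← h2 l hl, e, h2 l' hl']

theorem ball_bad (R : F2 → Prop) (hR : ∀ u v, IsConj u v → R v → R u) (n : ℕ) :
    {u : F2 | u.norm ≤ n ∧ ¬ R u}.ncard ≤
      ∑ i ∈ range (n / 2 + 1), ∑ l ∈ range (n - 2 * i + 1),
        (red i).card * cnt (cyc l) (fun x => ¬ R (FreeGroup.mk x)) := by
  classical
  have h1 : {u : F2 | u.norm ≤ n ∧ ¬ R u}.ncard ≤
      ((range (n / 2 + 1)).biUnion fun i => (range (n - 2 * i + 1)).biUnion fun l =>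
        red i ×ˢ (cyc l).filter fun x => ¬ R (FreeGroup.mk x)).card := by
    rw [← Set.ncard_coe_finset]
    refine Set.ncard_le_ncard_of_injOn (fun u => (FreeGroup.reduceCyclically.conjugator u.toWord,
      FreeGroup.reduceCyclically u.toWord)) (fun u hu => ?_) (fun u _ v _ e => ?_)
      (finite_toSet _)
    · have e := FreeGroup.reduceCyclically.conj_conjugator_reduceCyclically u.toWord
      have hr : FreeGroup.IsReduced u.toWord := FreeGroup.isReduced_toWord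
      have hc := FreeGroup.reduceCyclically.isCyclicallyReduced hr
      have hn : u.toWord.length ≤ n := hu.1
      generalize FreeGroup.reduceCyclically.conjugator u.toWord = C at e ⊢
      generalize FreeGroup.reduceCyclically u.toWord = Z at e hc ⊢
      have hl := congrArg List.length e
      rw [List.length_append, List.length_append, FreeGroup.invRev_length] at hl
      have hC : FreeGroup.IsReduced C := by
        rw [← e, List.append_assoc] at hr
        exact List.IsChain.left_of_append hr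
      have hu' : u = FreeGroup.mk C * FreeGroup.mk Z * (FreeGroup.mk C)⁻¹ := by
        rw [FreeGroup.inv_mk, FreeGroup.mul_mk, FreeGroup.mul_mk, e, FreeGroup.mk_toWord]
      refine mem_coe.2 (mem_biUnion.2 ⟨C.length, mem_range.2 (by omega), mem_biUnion.2
        ⟨Z.length, mem_range.2 (by omega), mem_product.2 ⟨mem_red.2 ⟨rfl, hC⟩,
          mem_filter.2 ⟨mem_cyc.2 ⟨rfl, hc⟩, fun k => hu.2 (hR _ _ ?_ k)⟩⟩⟩⟩)
      exact (isConj_iff.2 ⟨_, hu'.symm⟩).symm
    · obtain ⟨e1, e2⟩ := Prod.mk.inj e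
      refine FreeGroup.toWord_injective ?_
      rw [← FreeGroup.reduceCyclically.conj_conjugator_reduceCyclically u.toWord, e1, e2,
        FreeGroup.reduceCyclically.conj_conjugator_reduceCyclically]
  refine h1.trans (card_biUnion_le.trans (sum_le_sum fun i _ =>
    card_biUnion_le.trans (sum_le_sum fun l _ => ?_)))
  rw [card_product, cnt]
  refine le_of_eq ?_
  congr

theorem ball_small (R : F2 → Prop) (hR : ∀ u v, IsConj u v → R v → R u)
    (h : ∀ ε : ℝ, 0 < ε → ∀ᶠ n : ℕ in atTop,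
      (cnt (cyc n) (fun x => ¬ R (FreeGroup.mk x)) : ℝ) ≤ ε * 3 ^ n) (ε : ℝ) (hε : 0 < ε) :
    ∀ᶠ n : ℕ in atTop, ({u : F2 | u.norm ≤ n ∧ ¬ R u}.ncard : ℝ) ≤ ε * 3 ^ n := by
  obtain ⟨N, hN⟩ := eventually_atTop.1 (h (ε / 10) (by positivity))
  set b : ℕ → ℝ := fun l => (cnt (cyc l) (fun x => ¬ R (FreeGroup.mk x)) : ℝ) with hb
  have b0 : ∀ l, 0 ≤ b l := fun l => Nat.cast_nonneg _
  have K0 : 0 ≤ ∑ l ∈ range N, b l := sum_nonneg fun l _ => b0 l
  have hin := B8_inner b0 (δ := ε / 10) (by positivity) hN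
  generalize ∑ l ∈ range N, b l = K at K0 hin
  have t1 : Tendsto (fun n : ℕ => n / 2) atTop atTop :=
    tendsto_atTop.2 fun m => eventually_atTop.2 ⟨2 * m, fun n hn => by omega⟩
  have t2 := (tendsto_pow_atTop_atTop_of_one_lt (by norm_num : (1 : ℝ) < 3)).comp t1
  filter_upwards [t2.eventually_ge_atTop (6 * K / ε)] with n hn
  have h1 : ({u : F2 | u.norm ≤ n ∧ ¬ R u}.ncard : ℝ) ≤
      ∑ i ∈ range (n / 2 + 1), ∑ l ∈ range (n - 2 * i + 1), ((red i).card : ℝ) * b l := by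
    have := ball_bad R hR n
    simp only [hb]
    exact_mod_cast this
  have h2 : ∀ i ∈ range (n / 2 + 1), ∑ l ∈ range (n - 2 * i + 1), ((red i).card : ℝ) * b l ≤
      3 * (ε / 10) * 3 ^ n * (1 / 3) ^ i + 2 * K * 3 ^ i := fun i hi => by
    have a1 : ((red i).card : ℝ) ≤ 2 * 3 ^ i := by exact_mod_cast card_red_le i
    have a2 := B8_pow (n := n) (i := i) (by have := mem_range.1 hi; omega)
    rw [← mul_sum]
    refine (mul_le_mul a1 (hin _) (sum_nonneg fun l _ => b0 l) (by positivity)).trans (le_of_eq ?_)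
    linear_combination 3 * (ε / 10) * a2
  refine h1.trans ((sum_le_sum h2).trans ?_)
  rw [sum_add_distrib, ← mul_sum, ← mul_sum]
  have p3 : (0 : ℝ) < 3 ^ n := by positivity
  have p4 : (0 : ℝ) < 3 ^ (n / 2) := by positivity
  have a3 := mul_le_mul_of_nonneg_left (B8_geo' (n / 2 + 1))
    (by positivity : 0 ≤ 3 * (ε / 10) * 3 ^ n)
  have a4 := mul_le_mul_of_nonneg_left (B8_geo (n / 2)) (by positivity : 0 ≤ 2 * K)
  have a5 : (3 : ℝ) ^ (n / 2) * 3 ^ (n / 2) ≤ 3 ^ n := by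
    rw [← pow_add]
    exact pow_le_pow_right₀ (by norm_num) (by omega)
  have a6 : 6 * K ≤ 3 ^ (n / 2) * ε := (div_le_iff₀ hε).1 hn
  have a7 := mul_le_mul_of_nonneg_left a6 p4.le
  have a8 := mul_le_mul_of_nonneg_right a5 hε.le
  have a9 := mul_pos hε p3
  linarith only [a3, a4, a7, a8, a9]

theorem ball_tendsto (R Q : F2 → Prop) (hR : ∀ u v, IsConj u v → R v → R u) (hQ : ∀ u, R u → Q u)
    (h : ∀ ε : ℝ, 0 < ε → ∀ᶠ n : ℕ in atTop,
      (cnt (cyc n) (fun x => ¬ R (FreeGroup.mk x)) : ℝ) ≤ ε * 3 ^ n) :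
    Tendsto (fun n : ℕ => ({u : F2 | u.norm ≤ n ∧ Q u}.ncard : ℝ) / ({u : F2 | u.norm ≤ n}.ncard : ℝ))
      atTop (nhds 1) := by
  refine Metric.tendsto_nhds.2 fun ε hε => ?_
  filter_upwards [ball_small R hR h (ε / 2) (half_pos hε)] with n hn
  have f0 := ball_finite n
  have e : {u : F2 | u.norm ≤ n} = {u : F2 | u.norm ≤ n ∧ Q u} ∪ {u : F2 | u.norm ≤ n ∧ ¬ R u} := by
    ext u
    have := hQ u
    simp only [Set.mem_union, Set.mem_ofPred_eq]
    tauto
  have h1 : ({u : F2 | u.norm ≤ n}.ncard : ℝ) ≤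
      {u : F2 | u.norm ≤ n ∧ Q u}.ncard + {u : F2 | u.norm ≤ n ∧ ¬ R u}.ncard := by
    rw [e]
    exact_mod_cast Set.ncard_union_le _ _
  have h2 : ({u : F2 | u.norm ≤ n ∧ Q u}.ncard : ℝ) ≤ {u : F2 | u.norm ≤ n}.ncard := by
    exact Nat.cast_le.2 (Set.ncard_le_ncard (fun u hu => hu.1) f0)
  have h3 : (3 : ℝ) ^ n ≤ {u : F2 | u.norm ≤ n}.ncard := by exact_mod_cast ball_card n
  have p3 : (0 : ℝ) < 3 ^ n := by positivity
  have p4 := p3.trans_le h3
  have h4 := mul_le_mul_of_nonneg_left h3 (half_pos hε).le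
  have h5 := mul_pos hε p4
  rw [Real.dist_eq, abs_lt, lt_sub_iff_add_lt, sub_lt_iff_lt_add, lt_div_iff₀ p4, div_lt_iff₀ p4]
  constructor <;> linarith only [hn, h1, h4, h5, h2]

end Pool.Agent.Work.MP_c2f093_al.Gen
end

-- merged part: Pool.Agent.Work.MP_c2f093_al.Gen.Final
section
namespace Pool.Agent.Work.MP_c2f093_al.Gen

open Filter

theorem almost_all : Tendsto (fun n : ℕ =>
    ({u : FreeGroup (Fin 2) | u.norm ≤ n ∧ ∀ v : FreeGroup (Fin 2),
      (∀ A B : Matrix.SpecialLinearGroup (Fin 3) ℂ,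
        ((FreeGroup.lift ![A, B] u : Matrix.SpecialLinearGroup (Fin 3) ℂ) :
          Matrix (Fin 3) (Fin 3) ℂ).trace =
        ((FreeGroup.lift ![A, B] v : Matrix.SpecialLinearGroup (Fin 3) ℂ) :
          Matrix (Fin 3) (Fin 3) ℂ).trace) → IsConj u v}.ncard : ℝ) /
    ({u : FreeGroup (Fin 2) | u.norm ≤ n}.ncard : ℝ)) atTop (nhds 1) := by
  refine ball_tendsto Rigid _ ?_ ?_ cyc_small
  · intro u v huv hv w hw
    exact huv.trans (hv w ((TE.of_isConj huv).symm.trans hw))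
  · intro u hu v hv
    exact hu v (te_of_sl hv)

end Pool.Agent.Work.MP_c2f093_al.Gen
end
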