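import Mathlib
import Pool.Agent.Work.MP_c2f093_al.Reduce

-- merged part: Pool.Agent.Work.MP_c2f093_al.Gen.Defs
section
/-!
Definitions for the generic rigidity theorem: almost every word of `F(a,b)` is determined up to
conjugacy by its traces in `SL(3,C)`.

Part B (counting): words are lists of letters, heights are initial sums of a linear functional.
Part A (algebra): cyclic words are functions on `ZMod n`, states are functions `ZMod n → Bool`.
-/

namespace Pool.Agent.Work.MP_c2f093_al.Gen

open Finset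

/-! Part B -/

abbrev L := Fin 2 × Bool

/-- the inverse letter -/
def inv {α : Type} (x : α × Bool) : α × Bool := (x.1, !x.2)

/-- value of the linear functional `θ` on a letter -/
def wt (θ : ℤ × ℤ) (x : L) : ℤ := (if x.1 = 0 then θ.1 else θ.2) * (if x.2 then 1 else -1)

/-- height of the `i`-th vertex of the lattice path of `x` -/
def ht (θ : ℤ × ℤ) (x : List L) (i : ℕ) : ℤ := ((x.take i).map (wt θ)).sum

/-- total height of `x` -/
def tot (θ : ℤ × ℤ) (x : List L) : ℤ := (x.map (wt θ)).sum

/-- height gained along the cyclic arc from vertex `p` to vertex `q` -/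
def val (θ : ℤ × ℤ) (x : List L) (p q : ℕ) : ℤ :=
  ht θ x q - ht θ x p + if q < p then tot θ x else 0

/-- there is a unique arc of maximal height gain -/
def Uniq (θ : ℤ × ℤ) (x : List L) : Prop :=
  ∃ p q, p < x.length ∧ q < x.length ∧ p ≠ q ∧ ∀ p' q', p' < x.length → q' < x.length → p' ≠ q' →
    (p' = p ∧ q' = q) ∨ val θ x p' q' < val θ x p q

/-- some arc gains at least `s` more than the empty arc and than the full arc -/
def Marg (θ : ℤ × ℤ) (s : ℤ) (x : List L) : Prop :=
  ∃ p q, p < x.length ∧ q < x.length ∧ p ≠ q ∧ s ≤ val θ x p q ∧ tot θ x + s ≤ val θ x p q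

/-- the vertex `z` is an endpoint of an arc that is maximal up to `c` -/
def Near (θ : ℤ × ℤ) (c : ℤ) (x : List L) (z : ℕ) : Prop :=
  ∃ p q, p < x.length ∧ q < x.length ∧ p ≠ q ∧ (p = z ∨ q = z) ∧
    ∀ p' q', p' < x.length → q' < x.length → p' ≠ q' → val θ x p' q' < val θ x p q + c

/-- the `k`-th direction -/
def dir (k : ℕ) : ℤ × ℤ := ((k : ℤ), 1)

/-- no vertex is nearly extremal for two of the directions `1, ..., m` -/
def Sep (m : ℕ) (x : List L) : Prop :=
  ∀ k ∈ Icc 1 m, ∀ k' ∈ Icc 1 m, k ≠ k' → ∀ z,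
    ¬ (Near (dir k) (2 * m + 3) x z ∧ Near (dir k') (2 * m + 3) x z)

/-- the path of `l` stays in a cone -/
def Conf (η η' : ℤ × ℤ) (c : ℤ) (l : List L) : Prop :=
  ∀ i ≤ l.length, ht η l i ≤ c ∧ ht η' l i ≤ c

/-- from each block start `j * T` the height moves by less than `r / 2` in `2 * T` steps -/
def Slow (θ : ℤ × ℤ) (r : ℤ) (T : ℕ) (x : List L) : Prop :=
  ∀ j ≤ x.length / T, ∀ i ≤ 2 * T, 2 * |ht θ (x.rotate (j * T)) i| < r

/-- the arc from `p` to `q` has maximal height gain -/
def IsMax (θ : ℤ × ℤ) (x : List L) (p q : ℕ) : Prop :=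
  p < x.length ∧ q < x.length ∧ p ≠ q ∧
    ∀ p' q', p' < x.length → q' < x.length → p' ≠ q' → val θ x p' q' ≤ val θ x p q

/-- the loop inserted at a bottom vertex -/
def gadB : List L := [(1, false), (0, false), (1, true), (0, true)]

/-- the loop inserted at a top vertex -/
def gadT : List L := [(1, true), (0, true), (1, false), (0, false)]

/-- insert `G` at the vertex `p` -/
def ins (x : List L) (p : ℕ) (G : List L) : List L := x.take p ++ G ++ x.drop p

/-- insert the two loops -/
def sw (x : List L) (p q : ℕ) : List L :=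
  if p < q then ins (ins x q gadT) p gadB else ins (ins x p gadB) q gadT

/-- periodic extension of the height -/
def hp (θ : ℤ × ℤ) (x : List L) (i : ℕ) : ℤ :=
  ht θ x (i % x.length) + ((i / x.length : ℕ) : ℤ) * tot θ x

/-- the letter at the cyclic position `i` -/
def chr (x : List L) (i : ℕ) : L := x.getD (i % x.length) (0, true)

/-- the potential used for cones -/
noncomputable def phi (A μ x y : ℝ) : ℝ := y * Real.log y - A * (x ^ 2 / y) - μ * y ^ 2

/-- the increment of the martingale `2 * height + wt (last letter)` -/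
def inc (θ : ℤ × ℤ) (d e : L) : ℤ := 3 * wt θ e - wt θ d

/-- the three letters that may follow `d` -/
def nxt (d : L) : Finset L := univ.filter fun e : L => e ≠ inv d

/-- every trace equivalent word is conjugate -/
def Rigid (u : F2) : Prop := ∀ v, TE u v → IsConj u v

/-- all words of length `n` -/
def words : ℕ → Finset (List L)
  | 0 => {[]}
  | n + 1 => (univ ×ˢ words n).image fun p : L × List L => p.1 :: p.2

open Classical in
/-- reduced words of length `n` -/
noncomputable def red (n : ℕ) : Finset (List L) := (words n).filter FreeGroup.IsReduced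

open Classical in
/-- cyclically reduced words of length `n` -/
noncomputable def cyc (n : ℕ) : Finset (List L) := (words n).filter FreeGroup.IsCyclicallyReduced

open Classical in
/-- reduced continuations of length `j` after the letter `d` -/
noncomputable def cont (j : ℕ) (d : L) : Finset (List L) :=
  (words j).filter fun l => FreeGroup.IsReduced (d :: l)

open Classical in
/-- number of elements of `S` with property `P` -/
noncomputable def cnt (S : Finset (List L)) (P : List L → Prop) : ℕ := (S.filter P).card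

/-! Part A -/

abbrev I3 := Fin 2 ⊕ Unit
abbrev N3 := Matrix I3 I3 ℂ
abbrev N2 := Matrix (Fin 2) (Fin 2) ℂ

/-- first half of a letter -/
def fst {ι : Type} (x : ι × Bool) : (ι × Bool) × Bool :=
  if x.2 then ((x.1, false), true) else ((x.1, true), false)

/-- second half of a letter -/
def snd {ι : Type} (x : ι × Bool) : (ι × Bool) × Bool :=
  if x.2 then ((x.1, true), true) else ((x.1, false), false)

/-- every generator is replaced by a product of two new generators -/
def dbl {ι : Type} : FreeGroup ι →* FreeGroup (ι × Bool) :=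
  FreeGroup.lift fun i => FreeGroup.of (i, false) * FreeGroup.of (i, true)

/-- equality of traces in all three-dimensional representations -/
def TE3 {ι : Type} (u v : FreeGroup ι) : Prop :=
  ∀ ρ : FreeGroup ι →* N3, (ρ u).trace = (ρ v).trace

section cyclic
variable {ι : Type} {n : ℕ}

/-- the element of the free group spelled by a cyclic word, read from position `0` -/
def word (y : ZMod n → ι × Bool) : FreeGroup ι :=
  FreeGroup.mk ((List.range n).map fun j : ℕ => y (j : ZMod n))

/-- cyclically reduced -/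
def CycRed (y : ZMod n → ι × Bool) : Prop :=
  ∀ j, (y j).1 = (y (j + 1)).1 → (y j).2 = (y (j + 1)).2

/-- a state (`true` = two-dimensional block) may change along a letter only as its type allows:
type `some true` = start of an arc, `some false` = end of an arc. Letter `j` joins the vertices
`j` and `j + 1`. -/
def Valid (ty : ι → Option Bool) (y : ZMod n → ι × Bool) (X : ZMod n → Bool) : Prop :=
  ∀ j, X j = X (j + 1) ∨ ty (y j).1 = some (X (j + 1))

/-- weight of the first half of a letter -/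
def lw (l r : ι → ℤ) (x : ι × Bool) : ℤ := if x.2 then l x.1 else - r x.1

/-- weight of the second half of a letter -/
def rw' (l r : ι → ℤ) (x : ι × Bool) : ℤ := if x.2 then r x.1 else - l x.1

/-- weight of a state -/
def dg [NeZero n] (l r : ι → ℤ) (y : ZMod n → ι × Bool) (X : ZMod n → Bool) : ℤ :=
  ∑ j, ((if X j then lw l r (y j) else 0) + (if X (j + 1) then rw' l r (y j) else 0))

/-- number of arcs of a state -/
def kk [NeZero n] (X : ZMod n → Bool) : ℕ :=
  (univ.filter fun j => X j = true ∧ X (j + 1) = false).card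

/-- number of vertices of a state -/
def sz [NeZero n] (X : ZMod n → Bool) : ℕ := (univ.filter fun j => X j = true).card

/-- the state with the vertices `i + 1, ..., i + g` -/
def Arc (i : ZMod n) (g : ℕ) : ZMod n → Bool := fun j => decide ((j - i - 1).val < g)

/-- `X0` is the unique extremal state -/
def Ext [NeZero n] (ty : ι → Option Bool) (l r : ι → ℤ) (y : ZMod n → ι × Bool) (M : ℤ)
    (X0 : ZMod n → Bool) : Prop :=
  0 < M ∧ Valid ty y X0 ∧ kk X0 = 1 ∧ dg l r y X0 = M ∧
    ∀ X, Valid ty y X → dg l r y X ≤ M * kk X ∧ (dg l r y X = M * kk X → kk X = 0 ∨ X = X0)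

end cyclic

section matrices
variable {κ : Type}

/-- column vector of the attracting line of the letter `g` -/
noncomputable def colv (z : κ × Bool → ℂ) (g : κ × Bool) : Fin 2 → ℂ := ![1, z g]

/-- row vector killing the repelling line of the letter `g` -/
noncomputable def rowv (z : κ × Bool → ℂ) (g : κ × Bool) : Fin 2 → ℂ :=
  ![- z (inv g) / (z g - z (inv g)), 1 / (z g - z (inv g))]

/-- the two by two matrix of the letter `g`, with eigenvalues `t` and `1 / t` -/
noncomputable def Sm (z : κ × Bool → ℂ) (t : ℂ) (g : κ × Bool) : N2 :=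
  t • Matrix.vecMulVec (colv z g) (rowv z g) +
    t⁻¹ • Matrix.vecMulVec (colv z (inv g)) (rowv z (inv g))

variable {ι : Type}

/-- sign of a letter -/
def sg (x : ι × Bool) : ℂ := if x.2 then 1 else -1

/-- the block of the matrix of the letter `x` from state `s` to state `s'` -/
noncomputable def blk (z : (ι × Bool) × Bool → ℂ) (t : ℂ) (p q : Fin 2 → ℂ) (x : ι × Bool) :
    Bool → Bool → N3
  | true, true => Matrix.fromBlocks (Sm z t (fst x) * Sm z t (snd x)) 0 0 0
  | false, false => Matrix.fromBlocks 0 0 0 1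
  | true, false => sg x • Matrix.fromBlocks 0 (Sm z t (fst x) * Matrix.replicateCol Unit p) 0 0
  | false, true => sg x • Matrix.fromBlocks 0 0 (Matrix.replicateRow Unit q * Sm z t (snd x)) 0

/-- the projection of a state -/
def Ep : Bool → N3
  | true => Matrix.fromBlocks 1 0 0 0
  | false => Matrix.fromBlocks 0 0 0 1

/-- the value of a state -/
noncomputable def valX {n : ℕ} (z : (ι × Bool) × Bool → ℂ) (t : ℂ) (p q : Fin 2 → ℂ)
    (y : ZMod n → ι × Bool) (X : ZMod n → Bool) : ℂ :=
  ((List.range n).map fun j : ℕ =>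
    blk z t p q (y (j : ZMod n)) (X (j : ZMod n)) (X ((j : ZMod n) + 1))).prod.trace

end matrices

end Pool.Agent.Work.MP_c2f093_al.Gen
end

-- merged part: Pool.Agent.Work.MP_c2f093_al.Gen.A0
section
/-!
Three general facts.

`Sm_mul_inv`: `P g = vecMulVec (colv g) (rowv g)` and `P (inv g)` are complementary projections (direct computation
with `z g - z (inv g) ≠ 0`).
`trace_states`: `Ep true + Ep false = 1`, `Ep s * Ep s = Ep s`.  Write `n = m + 1`; prove by induction on the length that
`Ep s * (product) * Ep s'` is the sum over the intermediate states, or expand the product of the `(∑ s, Ep s) * N j`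
(for instance with `List.ofFn` and `Fin.consEquiv`) and use the cyclic invariance of the trace.
`char_indep`: the characters `(τ, ε) ↦ τ ^ d * ε ^ K` of `ℂˣ × ℂˣ` are distinct (evaluate at `(2, 1)` and `(1, 2)`), hence linearly
independent (`linearIndependent_monoidHom`); group both sums by the value of `(d, K)`.
-/

namespace Pool.Agent.Work.MP_c2f093_al.Gen

open Finset

theorem inv_inv' {α : Type} (x : α × Bool) : inv (inv x) = x := by
  simp [inv]

theorem inv_ne {α : Type} (x : α × Bool) : inv x ≠ x := by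
  rcases x with ⟨a, b⟩
  cases b <;> simp [inv]

theorem fst_inv {ι : Type} (x : ι × Bool) : fst (inv x) = inv (snd x) := by
  rcases x with ⟨a, b⟩
  cases b <;> simp [inv, fst, snd]

theorem snd_inv {ι : Type} (x : ι × Bool) : snd (inv x) = inv (fst x) := by
  rcases x with ⟨a, b⟩
  cases b <;> simp [inv, fst, snd]

theorem Sm_mul_inv {κ : Type} {z : κ × Bool → ℂ} (hz : Function.Injective z) {t : ℂ} (ht : t ≠ 0)
    (g : κ × Bool) : Sm z t g * Sm z t (inv g) = 1 := by
  have h1 : z g - z (inv g) ≠ 0 := sub_ne_zero.2 fun h => inv_ne g (hz h).symm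
  have h2 : z (inv g) - z g ≠ 0 := sub_ne_zero.2 fun h => inv_ne g (hz h)
  ext i j
  fin_cases i <;> fin_cases j <;>
    simp [Sm, colv, rowv, inv_inv', Matrix.mul_apply, Fin.sum_univ_two] <;>
    field_simp <;> ring

theorem A0_Ep_sum : ∑ s : Bool, Ep s = 1 := by
  rw [Fintype.sum_bool]
  simp only [Ep, Matrix.fromBlocks_add, add_zero, zero_add, Matrix.fromBlocks_one]

theorem A0_Ep_mul (s : Bool) : Ep s * Ep s = Ep s := by
  cases s <;> simp [Ep, Matrix.fromBlocks_multiply]

theorem A0_range_ofFn {R : Type} (n : ℕ) (g : ℕ → R) :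
    (List.range n).map g = List.ofFn fun i : Fin n => g i := by
  apply List.ext_getElem <;> simp

theorem A0_expand {n : ℕ} (f : Fin n → Bool → N3) :
    (List.ofFn fun j => ∑ s, f j s).prod =
      ∑ X : Fin n → Bool, (List.ofFn fun j => f j (X j)).prod := by
  have := (MultilinearMap.mkPiAlgebraFin ℂ n N3).map_sum (α := fun _ => Bool) f
  simpa only [MultilinearMap.mkPiAlgebraFin_apply] using this

theorem A0_push (Y : ℕ → Bool) (M : ℕ → N3) (k : ℕ) :
    Ep (Y 0) * ((List.range k).map fun j => Ep (Y j) * M j * Ep (Y (j + 1))).prod =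
      ((List.range k).map fun j => Ep (Y j) * M j).prod * Ep (Y k) := by
  induction k with
  | zero => simp
  | succ k ih =>
    simp only [List.range_succ, List.map_append, List.prod_append, List.map_cons, List.map_nil,
      List.prod_cons, List.prod_nil, mul_one]
    rw [← mul_assoc, ih]
    simp only [mul_assoc]
    rw [← mul_assoc (Ep (Y k)) (Ep (Y k)), A0_Ep_mul]

theorem A0_cyc (Y : ℕ → Bool) (M : ℕ → N3) (m : ℕ) (hY : Y (m + 1) = Y 0) :
    ((List.range (m + 1)).map fun j => Ep (Y j) * M j).prod.trace =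
      ((List.range (m + 1)).map fun j => Ep (Y j) * M j * Ep (Y (j + 1))).prod.trace := by
  have h1 : Ep (Y 0) * ((List.range (m + 1)).map fun j => Ep (Y j) * M j * Ep (Y (j + 1))).prod =
      ((List.range (m + 1)).map fun j => Ep (Y j) * M j * Ep (Y (j + 1))).prod := by
    rw [List.range_succ_eq_map]
    simp only [List.map_cons, List.prod_cons, ← mul_assoc, A0_Ep_mul]
  have h2 : Ep (Y 0) * ((List.range (m + 1)).map fun j => Ep (Y j) * M j).prod =
      ((List.range (m + 1)).map fun j => Ep (Y j) * M j).prod := by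
    rw [List.range_succ_eq_map]
    simp only [List.map_cons, List.prod_cons, ← mul_assoc, A0_Ep_mul]
  rw [← h1, A0_push, Matrix.trace_mul_comm, hY, h2]

theorem trace_states {n : ℕ} [NeZero n] (N : ZMod n → N3) :
    ((List.range n).map fun j : ℕ => N (j : ZMod n)).prod.trace =
      ∑ X : ZMod n → Bool, ((List.range n).map fun j : ℕ =>
        Ep (X (j : ZMod n)) * N (j : ZMod n) * Ep (X ((j : ZMod n) + 1))).prod.trace := by
  obtain ⟨m, rfl⟩ := Nat.exists_eq_succ_of_ne_zero (NeZero.ne n)
  have hc : ∀ i : Fin (m + 1), (((i : ℕ) : ZMod (m + 1))) = i := fun i =>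
    ZMod.natCast_zmod_val (n := m + 1) i
  have h1 : ((List.range (m + 1)).map fun j : ℕ => N (j : ZMod (m + 1))).prod =
      ∑ X : ZMod (m + 1) → Bool, ((List.range (m + 1)).map fun j : ℕ =>
        Ep (X (j : ZMod (m + 1))) * N (j : ZMod (m + 1))).prod := by
    simp only [A0_range_ofFn, hc]
    have := A0_expand (n := m + 1) fun j s => Ep s * N j
    simp only [← Finset.sum_mul, A0_Ep_sum, one_mul] at this
    exact this
  change ((List.range (m + 1)).map fun j : ℕ => N (j : ZMod (m + 1))).prod.trace = _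
  rw [h1, Matrix.trace_sum]
  refine Finset.sum_congr rfl fun X _ => ?_
  have := A0_cyc (fun j => X (j : ZMod (m + 1))) (fun j => N (j : ZMod (m + 1))) m (by simp)
  simpa only [Nat.cast_add, Nat.cast_one] using this

/-- the character `(τ, ε) ↦ τ ^ d * ε ^ K` -/
noncomputable def A0_chi (p : ℤ × ℕ) : ℂˣ × ℂˣ →* ℂ :=
  (Units.coeHom ℂ).comp
    (((zpowGroupHom p.1).comp (MonoidHom.fst ℂˣ ℂˣ)) * ((powMonoidHom p.2).comp (MonoidHom.snd ℂˣ ℂˣ)))

theorem A0_chi_apply (p : ℤ × ℕ) (x : ℂˣ × ℂˣ) :
    A0_chi p x = ((x.1 ^ p.1 * x.2 ^ p.2 : ℂˣ) : ℂ) := rfl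

theorem A0_chi_inj : Function.Injective A0_chi := by
  intro p q h
  have h2 : (2 : ℂ) ≠ 0 := two_ne_zero
  have e1 := DFunLike.congr_fun h (Units.mk0 2 h2, 1)
  have e2 := DFunLike.congr_fun h (1, Units.mk0 2 h2)
  simp only [A0_chi_apply, one_pow, mul_one, one_zpow, one_mul, Units.val_zpow_eq_zpow_val,
    Units.val_pow_eq_pow_val, Units.val_mk0] at e1 e2
  have f1 : (2 : ℝ) ^ p.1 = (2 : ℝ) ^ q.1 := by
    have := congrArg norm e1
    simpa [norm_zpow] using this
  have f2 : (2 : ℕ) ^ p.2 = (2 : ℕ) ^ q.2 := by exact_mod_cast e2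
  exact Prod.ext (zpow_right_injective₀ (by norm_num) (by norm_num) f1)
    (Nat.pow_right_injective le_rfl f2)

theorem A0_group {α : Type} (A : Finset α) (d : α → ℤ) (K : α → ℕ) (c : α → ℂ)
    (S : Finset (ℤ × ℕ)) (hS : ∀ a ∈ A, (d a, K a) ∈ S) (x : ℂˣ × ℂˣ) :
    ∑ p ∈ S, (∑ a ∈ A.filter (fun a => d a = p.1 ∧ K a = p.2), c a) * A0_chi p x =
      ∑ a ∈ A, ((x.1 ^ d a * x.2 ^ K a : ℂˣ) : ℂ) * c a := by
  rw [← Finset.sum_fiberwise_of_maps_to hS]
  refine Finset.sum_congr rfl fun p _ => ?_
  rw [Finset.sum_mul]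
  refine Finset.sum_congr (Finset.filter_congr fun a _ => by simp [Prod.ext_iff]) fun a ha => ?_
  rw [← (Finset.mem_filter.1 ha).2, A0_chi_apply, mul_comm]

theorem char_indep {α β : Type} (A : Finset α) (B : Finset β) (d : α → ℤ) (K : α → ℕ) (c : α → ℂ)
    (d' : β → ℤ) (K' : β → ℕ) (c' : β → ℂ)
    (h : ∀ τ ε : ℂˣ, ∑ a ∈ A, ((τ ^ d a * ε ^ K a : ℂˣ) : ℂ) * c a =
      ∑ b ∈ B, ((τ ^ d' b * ε ^ K' b : ℂˣ) : ℂ) * c' b) (d₀ : ℤ) (K₀ : ℕ) :
    ∑ a ∈ A.filter (fun a => d a = d₀ ∧ K a = K₀), c a =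
      ∑ b ∈ B.filter (fun b => d' b = d₀ ∧ K' b = K₀), c' b := by
  classical
  have hli : LinearIndependent ℂ fun p : ℤ × ℕ => (A0_chi p : ℂˣ × ℂˣ → ℂ) :=
    (linearIndependent_monoidHom (ℂˣ × ℂˣ) ℂ).comp A0_chi A0_chi_inj
  set S : Finset (ℤ × ℕ) := insert (d₀, K₀)
    (A.image (fun a => (d a, K a)) ∪ B.image (fun b => (d' b, K' b))) with hS
  have hA : ∀ a ∈ A, (d a, K a) ∈ S := fun a ha =>
    mem_insert_of_mem (mem_union_left _ (mem_image_of_mem _ ha))
  have hB : ∀ b ∈ B, (d' b, K' b) ∈ S := fun b hb =>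
    mem_insert_of_mem (mem_union_right _ (mem_image_of_mem _ hb))
  have key := linearIndependent_iff'.1 hli S
    (fun p => ∑ a ∈ A.filter (fun a => d a = p.1 ∧ K a = p.2), c a -
      ∑ b ∈ B.filter (fun b => d' b = p.1 ∧ K' b = p.2), c' b) (by
      funext x
      simp only [Finset.sum_apply, Pi.smul_apply, smul_eq_mul, sub_mul, Finset.sum_sub_distrib,
        Pi.zero_apply]
      rw [A0_group A d K c S hA, A0_group B d' K' c' S hB, h, sub_self])
    (d₀, K₀) (mem_insert_self _ _)
  exact sub_eq_zero.1 key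

end Pool.Agent.Work.MP_c2f093_al.Gen
end

-- merged part: Pool.Agent.Work.MP_c2f093_al.Gen.A1
section
/-!
State sum.  For a generator `i` put `rho i = Hl * T * Hr` with
`Hl = fromBlocks (tau ^ l i • Sm (fst (i,true))) 0 0 1`, `Hr = fromBlocks (tau ^ r i • Sm (snd (i,true))) 0 0 1`,
`T = 1 + eps • fromBlocks 0 (col p) 0 0` if `ty i = some false`, `T = 1 + fromBlocks 0 0 (row q) 0` if
`ty i = some true`, `T = 1` if `ty i = none`.  The inverse is `Hr⁻¹ * (2 - T) * Hl⁻¹`
(`Sm g * Sm (inv g) = 1`, `fst (inv x) = inv (snd x)`).  Build the homomorphism through units.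
One has `Ep s * rho x * Ep s' = (tau ^ ([s] lw x + [s'] rw' x) * eps ^ [s = true ∧ s' = false]) • blk x s s'` if the
transition is allowed (`s = s'` or `ty x.1 = some s'`) and `0` otherwise; conclude with `trace_states`
(scalars leave the product, a forbidden transition kills it).  `class_eq` and `class_one` follow with `char_indep`
(the trace of `1` is `3 * tau ^ 0 * eps ^ 0`).
-/

namespace Pool.Agent.Work.MP_c2f093_al.Gen

open Finset

/-- the diagonal factors -/
noncomputable def A1_H {κ : Type} (z : κ × Bool → ℂ) (t : ℂ) (τ : ℂˣ) (k : ℤ) (g : κ × Bool) : N3 :=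
  Matrix.fromBlocks (((τ ^ k : ℂˣ) : ℂ) • Sm z t g) 0 0 1

/-- the unipotent factors -/
noncomputable def A1_T (ε : ℂˣ) (p q : Fin 2 → ℂ) (s : ℂ) : Option Bool → N3
  | none => Matrix.fromBlocks 1 0 0 1
  | some false => Matrix.fromBlocks 1 ((s * ε) • Matrix.replicateCol Unit p) 0 1
  | some true => Matrix.fromBlocks 1 0 (s • Matrix.replicateRow Unit q) 1

/-- the matrix of a letter -/
noncomputable def A1_R {ι : Type} (z : (ι × Bool) × Bool → ℂ) (ty : ι → Option Bool) (l r : ι → ℤ)
    (t : ℂ) (τ ε : ℂˣ) (p q : Fin 2 → ℂ) (x : ι × Bool) : N3 :=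
  A1_H z t τ (lw l r x) (fst x) * A1_T ε p q (sg x) (ty x.1) * A1_H z t τ (rw' l r x) (snd x)

theorem A1_HH {κ : Type} {z : κ × Bool → ℂ} (hz : Function.Injective z) {t : ℂ} (ht : t ≠ 0)
    (τ : ℂˣ) (k : ℤ) (g : κ × Bool) : A1_H z t τ k g * A1_H z t τ (-k) (inv g) = 1 := by
  rw [A1_H, A1_H, Matrix.fromBlocks_multiply, smul_mul_smul_comm, Sm_mul_inv hz ht, ← Units.val_mul,
    ← zpow_add]
  simp

theorem A1_TT (ε : ℂˣ) (p q : Fin 2 → ℂ) (s : ℂ) (o : Option Bool) :
    A1_T ε p q s o * A1_T ε p q (-s) o = 1 := by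
  rcases o with _ | _ | _ <;> simp [A1_T, Matrix.fromBlocks_multiply]

theorem A1_RR {ι : Type} {z : (ι × Bool) × Bool → ℂ} (hz : Function.Injective z)
    (ty : ι → Option Bool) (l r : ι → ℤ) {t : ℂ} (ht : t ≠ 0) (τ ε : ℂˣ) (p q : Fin 2 → ℂ)
    (x : ι × Bool) : A1_R z ty l r t τ ε p q x * A1_R z ty l r t τ ε p q (inv x) = 1 := by
  have h1 : lw l r (inv x) = -rw' l r x := by rcases x with ⟨i, _ | _⟩ <;> simp [lw, rw', inv]
  have h2 : rw' l r (inv x) = -lw l r x := by rcases x with ⟨i, _ | _⟩ <;> simp [lw, rw', inv]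
  have h3 : sg (inv x) = -sg x := by rcases x with ⟨i, _ | _⟩ <;> simp [sg, inv]
  have h4 : (inv x).1 = x.1 := rfl
  rw [A1_R, A1_R, h1, h2, h3, h4, fst_inv, snd_inv, mul_assoc (A1_H z t τ (-_) _),
    mul_assoc _ (A1_H z t τ (rw' l r x) _), ← mul_assoc (A1_H z t τ (rw' l r x) _), A1_HH hz ht,
    one_mul, mul_assoc, ← mul_assoc (A1_T ε p q (sg x) _), A1_TT, one_mul, A1_HH hz ht]

theorem A1_blk {ι : Type} (z : (ι × Bool) × Bool → ℂ) (ty : ι → Option Bool) (l r : ι → ℤ)
    (t : ℂ) (τ ε : ℂˣ) (p q : Fin 2 → ℂ) (x : ι × Bool) (s s' : Bool) :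
    Ep s * A1_R z ty l r t τ ε p q x * Ep s' = (if s = s' ∨ ty x.1 = some s' then
      ((τ ^ ((if s then lw l r x else 0) + if s' then rw' l r x else 0) *
        ε ^ (if s = true ∧ s' = false then 1 else 0) : ℂˣ) : ℂ) else 0) • blk z t p q x s s' := by
  rw [A1_R]
  generalize ty x.1 = o
  rcases o with _ | _ | _ <;> cases s <;> cases s' <;>
    simp [A1_H, A1_T, Ep, blk, Matrix.fromBlocks_multiply, Matrix.fromBlocks_smul, smul_smul,
      zpow_add₀ τ.ne_zero, mul_comm, mul_left_comm, mul_assoc]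

theorem A1_smul {α : Type} (c : α → ℂ) (N : α → N3) (w : List α) :
    (w.map fun j => c j • N j).prod = (w.map c).prod • (w.map N).prod := by
  induction w with
  | nil => simp
  | cons a w ih => simp only [List.map_cons, List.prod_cons, ih, smul_mul_smul_comm]

theorem A1_prod {n : ℕ} [NeZero n] (c : ZMod n → ℂ) :
    ((List.range n).map fun j : ℕ => c (j : ZMod n)).prod = ∏ j, c j := by
  refine Eq.trans ?_ (Finset.prod_nbij' (s := range n) (fun j : ℕ => (j : ZMod n)) ZMod.val
    (fun _ _ => mem_univ _) (fun j _ => mem_range.2 j.val_lt)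
    (fun j hj => ZMod.val_natCast_of_lt (mem_range.1 hj)) (fun j _ => ZMod.natCast_zmod_val j)
    (f := fun j : ℕ => c (j : ZMod n)) fun _ _ => rfl)
  rfl

theorem A1_zpow {α : Type} (s : Finset α) (τ : ℂˣ) (d : α → ℤ) :
    ∏ j ∈ s, τ ^ d j = τ ^ ∑ j ∈ s, d j := by
  classical
  induction s using Finset.induction_on with
  | empty => simp
  | insert a s ha ih => rw [prod_insert ha, sum_insert ha, ih, zpow_add]

open Classical in
theorem state_sum {ι : Type} {z : (ι × Bool) × Bool → ℂ} (hz : Function.Injective z)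
    (ty : ι → Option Bool) (l r : ι → ℤ) {t : ℂ} (ht : t ≠ 0) (τ ε : ℂˣ) (p q : Fin 2 → ℂ) :
    ∃ ρ : FreeGroup ι →* N3, ∀ (n : ℕ) [NeZero n] (y : ZMod n → ι × Bool),
      (ρ (word y)).trace = ∑ X ∈ univ.filter (Valid ty y),
        ((τ ^ dg l r y X * ε ^ kk X : ℂˣ) : ℂ) * valX z t p q y X := by
  let U : ι → N3ˣ := fun i => ⟨A1_R z ty l r t τ ε p q (i, true), A1_R z ty l r t τ ε p q (i, false),
    A1_RR hz ty l r ht τ ε p q (i, true), A1_RR hz ty l r ht τ ε p q (i, false)⟩
  refine ⟨(Units.coeHom N3).comp (FreeGroup.lift U), fun n _ y => ?_⟩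
  have h1 : ((Units.coeHom N3).comp (FreeGroup.lift U)) (word y) =
      ((List.range n).map fun j : ℕ => A1_R z ty l r t τ ε p q (y (j : ZMod n))).prod := by
    rw [word, MonoidHom.comp_apply, FreeGroup.lift_mk, map_list_prod, List.map_map, List.map_map]
    refine congrArg List.prod (List.map_congr_left fun j _ => ?_)
    simp only [Function.comp_apply]
    rcases y (j : ZMod n) with ⟨i, _ | _⟩ <;> rfl
  rw [h1, trace_states fun j => A1_R z ty l r t τ ε p q (y j), sum_filter]
  refine sum_congr rfl fun X _ => ?_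
  simp only [A1_blk]
  rw [A1_smul, Matrix.trace_smul, smul_eq_mul, A1_prod fun j =>
    if X j = X (j + 1) ∨ ty (y j).1 = some (X (j + 1)) then
      ((τ ^ ((if X j then lw l r (y j) else 0) + if X (j + 1) then rw' l r (y j) else 0) *
        ε ^ (if X j = true ∧ X (j + 1) = false then 1 else 0) : ℂˣ) : ℂ) else 0,
    Fintype.prod_ite_zero, ← Units.coe_prod, prod_mul_distrib, A1_zpow, prod_pow_eq_pow_sum,
    ← card_filter]
  by_cases hX : Valid ty y X
  · rw [if_pos hX, if_pos (show ∀ j, _ from hX)]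
    rfl
  · rw [if_neg hX, if_neg (show ¬ ∀ j, _ from hX), zero_mul]

open Classical in
/-- comparison of coefficients -/
theorem class_eq {ι : Type} {z : (ι × Bool) × Bool → ℂ} (hz : Function.Injective z)
    (ty : ι → Option Bool) (l r : ι → ℤ) {n n' : ℕ} [NeZero n] [NeZero n']
    (y : ZMod n → ι × Bool) (y' : ZMod n' → ι × Bool) (h : TE3 (word y) (word y'))
    {t : ℂ} (ht : t ≠ 0) (p q : Fin 2 → ℂ) (d : ℤ) (K : ℕ) :
    ∑ X ∈ univ.filter (fun X => Valid ty y X ∧ dg l r y X = d ∧ kk X = K), valX z t p q y X =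
    ∑ X ∈ univ.filter (fun X => Valid ty y' X ∧ dg l r y' X = d ∧ kk X = K), valX z t p q y' X := by
  have h1 := char_indep (univ.filter (Valid ty y)) (univ.filter (Valid ty y')) (dg l r y) kk
    (valX z t p q y) (dg l r y') kk (valX z t p q y') (fun τ ε => by
      obtain ⟨ρ, hρ⟩ := state_sum hz ty l r ht τ ε p q
      rw [← hρ, ← hρ]
      exact h ρ) d K
  rw [filter_filter, filter_filter] at h1
  convert h1

open Classical in
/-- comparison of coefficients with the trivial word -/
theorem class_one {ι : Type} {z : (ι × Bool) × Bool → ℂ} (hz : Function.Injective z)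
    (ty : ι → Option Bool) (l r : ι → ℤ) {n : ℕ} [NeZero n]
    (y : ZMod n → ι × Bool) (h : TE3 (word y) 1)
    {t : ℂ} (ht : t ≠ 0) (p q : Fin 2 → ℂ) (d : ℤ) :
    ∑ X ∈ univ.filter (fun X => Valid ty y X ∧ dg l r y X = d ∧ kk X = 1), valX z t p q y X = 0 := by
  have h1 := char_indep (univ.filter (Valid ty y)) (univ : Finset Unit) (dg l r y) kk
    (valX z t p q y) (fun _ => 0) (fun _ => 0) (fun _ => 3) (fun τ ε => by
      obtain ⟨ρ, hρ⟩ := state_sum hz ty l r ht τ ε p q
      rw [← hρ, h ρ]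
      norm_num) d 1
  rw [filter_filter] at h1
  convert h1
  simp

end Pool.Agent.Work.MP_c2f093_al.Gen
end

-- merged part: Pool.Agent.Work.MP_c2f093_al.Gen.A2
section
/-!
Leading terms in `t`.  `Sm z t g = t • (P g + (1/t)^2 • P (inv g))` with `P g = col g * row g` of rank one and
`row g ⬝ col g' ≠ 0` unless `g' = inv g`.  So `blk x s s' = t ^ ([s] + [s']) • B (1/t)` with `B` continuous and
`B 0 = c • vecMulVec (C (fst x) s) (R (snd x) s')`, `c ≠ 0`, where `C g true = (col g, 0)`, `C g false = (0, 1)`,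
`R g true = (row g, 0)`, `R g false = (0, 1)` (for `p = ![0,1]`, `q = ![1,0]`).  The trace of a cyclic product of
rank one matrices is the product of the pairings `R (snd (y j)) s ⬝ C (fst (y (j+1))) s ≠ 0`
(`fst (y (j+1)) = inv (snd (y j)) = fst (inv (y j))` is excluded by `CycRed`).  The exponents add up to `2 * sz X`.
`asym`: otherwise divide by `t ^ (2 * a i₀)` and let `s = 1 / t` tend to `0` in `nhdsWithin 0 {0}ᶜ`.
`faithful`: for `w ≠ []` the product is `t ^ w.length • F (1 / t)` with `F` continuous and `F 0` a nonzero multiple of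
`vecMulVec (colv (head w)) (rowv (last w))`, whose entry `0 1` is not zero.
-/

namespace Pool.Agent.Work.MP_c2f093_al.Gen

open Finset

/-- the leading term of `M` has degree `k` and is a nonzero multiple of `vecMulVec u v` -/
def A2_RL {a b : Type} (k : ℕ) (M : ℂ → Matrix a b ℂ) (u : a → ℂ) (v : b → ℂ) : Prop :=
  ∃ (B : ℂ → Matrix a b ℂ) (c : ℂ), Continuous B ∧ c ≠ 0 ∧ B 0 = c • Matrix.vecMulVec u v ∧
    ∀ t : ℂ, t ≠ 0 → M t = t ^ k • B t⁻¹

theorem A2_mul {a b d : Type} [Fintype b] {k k' : ℕ} {M : ℂ → Matrix a b ℂ} {N : ℂ → Matrix b d ℂ}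
    {u : a → ℂ} {v u' : b → ℂ} {v' : d → ℂ} (h : A2_RL k M u v) (h' : A2_RL k' N u' v')
    (hp : v ⬝ᵥ u' ≠ 0) : A2_RL (k + k') (fun t => M t * N t) u v' := by
  obtain ⟨B, c, h1, h2, h3, h4⟩ := h
  obtain ⟨B', c', h1', h2', h3', h4'⟩ := h'
  refine ⟨fun s => B s * B' s, c * c' * (v ⬝ᵥ u'), h1.matrix_mul h1',
    mul_ne_zero (mul_ne_zero h2 h2') hp, ?_, fun t ht => ?_⟩
  · simp only [h3, h3', Matrix.smul_mul, Matrix.mul_smul, Matrix.vecMulVec_mul_vecMulVec]
    ext i j
    simp only [Matrix.smul_apply, Matrix.vecMulVec_apply, Pi.smul_apply, smul_eq_mul]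
    ring
  · simp only [h4 t ht, h4' t ht, Matrix.smul_mul, Matrix.mul_smul, smul_smul, pow_add, mul_comm]

theorem A2_const {a b : Type} (u : a → ℂ) (v : b → ℂ) :
    A2_RL 0 (fun _ => Matrix.vecMulVec u v) u v :=
  ⟨fun _ => Matrix.vecMulVec u v, 1, continuous_const, one_ne_zero, by simp, fun t _ => by simp⟩

theorem A2_map {a b a' b' : Type} {k : ℕ} {M : ℂ → Matrix a b ℂ} {u : a → ℂ} {v : b → ℂ}
    (h : A2_RL k M u v) (Φ : Matrix a b ℂ → Matrix a' b' ℂ) (hc : Continuous Φ)
    (hs : ∀ (c : ℂ) N, Φ (c • N) = c • Φ N) {u' : a' → ℂ} {v' : b' → ℂ} {e : ℂ} (he : e ≠ 0)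
    (hΦ : Φ (Matrix.vecMulVec u v) = e • Matrix.vecMulVec u' v') :
    A2_RL k (fun t => Φ (M t)) u' v' := by
  obtain ⟨B, c, h1, h2, h3, h4⟩ := h
  refine ⟨fun s => Φ (B s), c * e, hc.comp h1, mul_ne_zero h2 he, ?_, fun t ht => ?_⟩
  · simp only [h3, hs, hΦ, smul_smul]
  · simp only [h4 t ht, hs]

theorem A2_Sm {κ : Type} (z : κ × Bool → ℂ) (g : κ × Bool) :
    A2_RL 1 (fun t => Sm z t g) (colv z g) (rowv z g) := by
  refine ⟨fun s => Matrix.vecMulVec (colv z g) (rowv z g) +
    s ^ 2 • Matrix.vecMulVec (colv z (inv g)) (rowv z (inv g)), 1, by fun_prop, one_ne_zero,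
    by simp, fun t ht => ?_⟩
  simp only [Sm, pow_one, smul_add, smul_smul]
  congr 2
  field_simp

theorem A2_den {κ : Type} {z : κ × Bool → ℂ} (hz : Function.Injective z) (g : κ × Bool) :
    z g - z (inv g) ≠ 0 := fun h => inv_ne g (hz (sub_eq_zero.mp h)).symm

theorem A2_pair {κ : Type} {z : κ × Bool → ℂ} (hz : Function.Injective z) {g g' : κ × Bool}
    (h : g' ≠ inv g) : rowv z g ⬝ᵥ colv z g' ≠ 0 := by
  have h1 := A2_den hz g
  have h2 : z g' - z (inv g) ≠ 0 := fun h3 => h (hz (sub_eq_zero.mp h3))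
  have e : rowv z g ⬝ᵥ colv z g' = (z g' - z (inv g)) / (z g - z (inv g)) := by
    simp [rowv, colv, dotProduct, Fin.sum_univ_two]
    field_simp
    ring
  rw [e]
  exact div_ne_zero h2 h1

/-- the column of the leading term -/
noncomputable def A2_C {κ : Type} (z : κ × Bool → ℂ) (g : κ × Bool) : Bool → I3 → ℂ
  | true => Sum.elim (colv z g) 0
  | false => Sum.elim 0 1

/-- the row of the leading term -/
noncomputable def A2_R {κ : Type} (z : κ × Bool → ℂ) (g : κ × Bool) : Bool → I3 → ℂ
  | true => Sum.elim (rowv z g) 0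
  | false => Sum.elim 0 1

theorem A2_pair3 {κ : Type} {z : κ × Bool → ℂ} (hz : Function.Injective z) {g g' : κ × Bool}
    (h : g' ≠ inv g) (s : Bool) : A2_R z g s ⬝ᵥ A2_C z g' s ≠ 0 := by
  cases s
  · simp [A2_R, A2_C]
  · simpa [A2_R, A2_C] using A2_pair hz h

theorem A2_sg {ι : Type} (x : ι × Bool) : sg x ≠ 0 := by
  unfold sg
  split_ifs <;> simp

theorem A2_blk {ι : Type} {z : (ι × Bool) × Bool → ℂ} (hz : Function.Injective z) (x : ι × Bool)
    (s s' : Bool) : A2_RL (s.toNat + s'.toNat) (fun t => blk z t ![0, 1] ![1, 0] x s s')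
      (A2_C z (fst x) s) (A2_R z (snd x) s') := by
  cases s <;> cases s'
  · have e : (Matrix.fromBlocks 0 0 0 1 : N3)
        = Matrix.vecMulVec (A2_C z (fst x) false) (A2_R z (snd x) false) := by
      ext (i | i) (j | j) <;> simp [A2_C, A2_R, Matrix.vecMulVec_apply]
    simp only [blk, e]
    exact A2_const _ _
  · have h1 := A2_mul (A2_const (fun _ : Unit => (1 : ℂ)) ![1, 0]) (A2_Sm z (snd x))
      (by simp [colv])
    have e : Matrix.vecMulVec (fun _ : Unit => (1 : ℂ)) ![1, 0]
        = Matrix.replicateRow Unit ![1, 0] := by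
      ext i j
      simp [Matrix.vecMulVec_apply]
    rw [e] at h1
    refine A2_map h1 (fun N => sg x • (Matrix.fromBlocks 0 0 N 0 : N3))
      ((continuous_const.matrix_fromBlocks continuous_const continuous_id
        continuous_const).const_smul (sg x)) (fun c N => ?_) (A2_sg x) ?_
    · ext (i | i) (j | j) <;> simp [mul_left_comm]
    · ext (i | i) (j | j) <;> simp [A2_C, A2_R, Matrix.vecMulVec_apply]
  · have h1 := A2_mul (A2_Sm z (fst x)) (A2_const ![0, 1] (fun _ : Unit => (1 : ℂ)))
      (by simpa [rowv] using A2_den hz (fst x))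
    have e : Matrix.vecMulVec ![0, 1] (fun _ : Unit => (1 : ℂ))
        = Matrix.replicateCol Unit ![0, 1] := by
      ext i j
      simp [Matrix.vecMulVec_apply]
    rw [e] at h1
    refine A2_map h1 (fun N => sg x • (Matrix.fromBlocks 0 N 0 0 : N3))
      ((continuous_const.matrix_fromBlocks continuous_id continuous_const
        continuous_const).const_smul (sg x)) (fun c N => ?_) (A2_sg x) ?_
    · ext (i | i) (j | j) <;> simp [mul_left_comm]
    · ext (i | i) (j | j) <;> simp [A2_C, A2_R, Matrix.vecMulVec_apply]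
  · have h0 : fst x ≠ inv (fst x) → snd x ≠ inv (fst x) := by
      obtain ⟨i, b⟩ := x
      cases b <;> simp [fst, snd, inv]
    have h1 := A2_mul (A2_Sm z (fst x)) (A2_Sm z (snd x)) (A2_pair hz (h0 (inv_ne _).symm))
    refine A2_map h1 (fun N => (Matrix.fromBlocks N 0 0 0 : N3))
      (continuous_id.matrix_fromBlocks continuous_const continuous_const continuous_const)
      (fun c N => ?_) one_ne_zero ?_
    · ext (i | i) (j | j) <;> simp
    · ext (i | i) (j | j) <;> simp [A2_C, A2_R, Matrix.vecMulVec_apply]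

theorem A2_next {ι : Type} {x x' : ι × Bool} (h : x.1 = x'.1 → x.2 = x'.2) :
    fst x' ≠ inv (snd x) := by
  obtain ⟨i, b⟩ := x
  obtain ⟨i', b'⟩ := x'
  cases b <;> cases b' <;> simp_all [fst, snd, inv, eq_comm]

theorem A2_sum {n : ℕ} [NeZero n] (g : ZMod n → ℕ) :
    ∑ j ∈ range n, g (j : ZMod n) = ∑ a, g a := by
  refine sum_nbij' (fun j : ℕ => (j : ZMod n)) ZMod.val (fun _ _ => mem_univ _)
    (fun a _ => mem_range.2 (ZMod.val_lt a)) (fun j hj => ZMod.val_cast_of_lt (mem_range.1 hj))
    (fun a _ => ZMod.natCast_zmod_val a) fun _ _ => rfl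

theorem A2_sz {n : ℕ} [NeZero n] (X : ZMod n → Bool) :
    ∑ j ∈ range n, ((X (j : ZMod n)).toNat + (X ((j : ZMod n) + 1)).toNat) = 2 * sz X := by
  have h1 : ∑ a, (X a).toNat = sz X := by
    rw [sz, card_filter]
    refine sum_congr rfl fun a _ => ?_
    cases X a <;> simp
  have h2 : ∑ a, (X (a + 1)).toNat = ∑ a, (X a).toNat :=
    Equiv.sum_comp (Equiv.addRight (1 : ZMod n)) fun a => (X a).toNat
  rw [A2_sum fun a => (X a).toNat + (X (a + 1)).toNat, sum_add_distrib, h2, h1, two_mul]

theorem lead {ι : Type} {z : (ι × Bool) × Bool → ℂ} (hz : Function.Injective z)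
    {n : ℕ} [NeZero n] (y : ZMod n → ι × Bool) (hy : CycRed y) (X : ZMod n → Bool) :
    ∃ f : ℂ → ℂ, Continuous f ∧ f 0 ≠ 0 ∧
      ∀ t : ℂ, t ≠ 0 → valX z t ![0, 1] ![1, 0] y X = t ^ (2 * sz X) * f t⁻¹ := by
  have key : ∀ k : ℕ, A2_RL
      (∑ j ∈ range (k + 1), ((X (j : ZMod n)).toNat + (X ((j : ZMod n) + 1)).toNat))
      (fun t => ((List.range (k + 1)).map fun j : ℕ => blk z t ![0, 1] ![1, 0] (y (j : ZMod n))
        (X (j : ZMod n)) (X ((j : ZMod n) + 1))).prod)
      (A2_C z (fst (y 0)) (X 0)) (A2_R z (snd (y (k : ZMod n))) (X ((k : ZMod n) + 1))) := by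
    intro k
    induction k with
    | zero => simpa using A2_blk hz (y 0) (X 0) (X 1)
    | succ k ih =>
      have h1 := A2_mul ih (A2_blk hz (y ((k : ZMod n) + 1)) (X ((k : ZMod n) + 1))
        (X ((k : ZMod n) + 1 + 1))) (A2_pair3 hz (A2_next (hy k)) _)
      rw [sum_range_succ]
      simp only [List.range_succ (n := k + 1), List.map_append, List.prod_append, List.map_cons,
        List.map_nil, List.prod_cons, List.prod_nil, mul_one, Nat.cast_succ]
      exact h1
  obtain ⟨m, hm⟩ := Nat.exists_eq_succ_of_ne_zero (NeZero.ne n)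
  have h0 : (m : ZMod n) + 1 = 0 := by
    rw [← Nat.cast_succ, ← hm, ZMod.natCast_self]
  have h1 := key m
  rw [← Nat.succ_eq_add_one, ← hm, A2_sz] at h1
  obtain ⟨B, c, h2, h3, h4, h5⟩ := h1
  refine ⟨fun s => (B s).trace, h2.matrix_trace, ?_, fun t ht => ?_⟩
  · simp only [h4, Matrix.trace_smul, Matrix.trace_vecMulVec, smul_eq_mul]
    refine mul_ne_zero h3 ?_
    rw [dotProduct_comm, ← h0]
    exact A2_pair3 hz (A2_next (hy m)) _
  · have h6 := congrArg Matrix.trace (h5 t ht)
    rw [Matrix.trace_smul, smul_eq_mul] at h6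
    exact h6

/-- comparison of the largest terms -/
theorem asym {α β : Type} (A : Finset α) (B : Finset β) (a : α → ℕ) (b : β → ℕ)
    (f : α → ℂ → ℂ) (g : β → ℂ → ℂ) (hf : ∀ i ∈ A, Continuous (f i)) (hg : ∀ j ∈ B, Continuous (g j))
    (h : ∀ t : ℂ, t ≠ 0 → ∑ i ∈ A, t ^ (2 * a i) * f i t⁻¹ = ∑ j ∈ B, t ^ (2 * b j) * g j t⁻¹)
    (i₀ : α) (hi₀ : i₀ ∈ A) (hmax : ∀ i ∈ A, i ≠ i₀ → a i < a i₀) (h0 : f i₀ 0 ≠ 0) :
    ∃ j ∈ B, a i₀ ≤ b j := by
  by_contra hcon
  push Not at hcon
  have hle : ∀ i ∈ A, a i ≤ a i₀ := fun i hi => by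
    by_cases h1 : i = i₀
    · rw [h1]
    · exact (hmax i hi h1).le
  have hp : ∀ s : ℂ, s ≠ 0 → ∀ k, k ≤ a i₀ →
      s ^ (2 * (a i₀ - k)) = s ^ (2 * a i₀) * s⁻¹ ^ (2 * k) := by
    intro s hs k hk
    rw [show 2 * a i₀ = 2 * (a i₀ - k) + 2 * k by omega, pow_add, mul_assoc, ← mul_pow,
      mul_inv_cancel₀ hs, one_pow, mul_one]
  have e : (fun s : ℂ => ∑ i ∈ A, s ^ (2 * (a i₀ - a i)) * f i s)
      = fun s : ℂ => ∑ j ∈ B, s ^ (2 * (a i₀ - b j)) * g j s := by
    refine Continuous.ext_on (dense_compl_singleton (0 : ℂ))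
      (continuous_finsetSum _ fun i hi => (continuous_pow _).mul (hf i hi))
      (continuous_finsetSum _ fun j hj => (continuous_pow _).mul (hg j hj)) fun s hs => ?_
    have hs' : s ≠ 0 := hs
    have h1 := h s⁻¹ (inv_ne_zero hs')
    rw [inv_inv] at h1
    calc ∑ i ∈ A, s ^ (2 * (a i₀ - a i)) * f i s
        = s ^ (2 * a i₀) * ∑ i ∈ A, s⁻¹ ^ (2 * a i) * f i s := by
          rw [mul_sum]
          exact sum_congr rfl fun i hi => by rw [hp s hs' _ (hle i hi), mul_assoc]
      _ = ∑ j ∈ B, s ^ (2 * (a i₀ - b j)) * g j s := by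
          rw [h1, mul_sum]
          exact sum_congr rfl fun j hj => by rw [hp s hs' _ (hcon j hj).le, mul_assoc]
  have e0 := congrFun e 0
  rw [sum_eq_single_of_mem i₀ hi₀, sum_eq_zero] at e0
  · simp only [Nat.sub_self, mul_zero, pow_zero, one_mul] at e0
    exact h0 e0
  · intro j hj
    have := hcon j hj
    rw [zero_pow (by omega), zero_mul]
  · intro i hi h1
    have := hmax i hi h1
    rw [zero_pow (by omega), zero_mul]

/-- the two-dimensional representation is faithful modulo scalars -/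
theorem faithful {κ : Type} [DecidableEq κ] {z : κ × Bool → ℂ} (hz : Function.Injective z)
    (w : List (κ × Bool))
    (h : ∀ t : ℂ, t ≠ 0 → (w.map (Sm z t)).prod 0 1 = 0) (hw : FreeGroup.IsReduced w) : w = [] := by
  have key : ∀ (l : List (κ × Bool)) (a : κ × Bool), FreeGroup.IsReduced (a :: l) →
      ∃ g, A2_RL (1 + l.length) (fun t => ((a :: l).map (Sm z t)).prod) (colv z a) (rowv z g) := by
    intro l
    induction l with
    | nil => exact fun a _ => ⟨a, by simpa using A2_Sm z a⟩
    | cons b l ih =>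
      intro a ha
      obtain ⟨h1, h2⟩ := FreeGroup.isReduced_cons_cons.1 ha
      obtain ⟨g, hg⟩ := ih b h2
      have h3 : b ≠ inv a := by
        rintro rfl
        simpa [inv] using h1
      refine ⟨g, ?_⟩
      have h4 := A2_mul (A2_Sm z a) hg (A2_pair hz h3)
      rw [List.length_cons, add_comm l.length]
      exact h4
  cases w with
  | nil => rfl
  | cons a l =>
    exfalso
    obtain ⟨g, B, c, h1, h2, h3, h4⟩ := key l a hw
    have e : (fun s => B s 0 1) = fun _ => 0 := by
      refine Continuous.ext_on (dense_compl_singleton (0 : ℂ)) (h1.matrix_elem 0 1)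
        continuous_const fun s hs => ?_
      have hs' : s⁻¹ ≠ 0 := inv_ne_zero hs
      have h5 := h s⁻¹ hs'
      have h6 : ((a :: l).map (Sm z s⁻¹)).prod = _ := h4 s⁻¹ hs'
      rw [h6, inv_inv, Matrix.smul_apply, smul_eq_mul] at h5
      exact (mul_eq_zero.mp h5).resolve_left (pow_ne_zero _ hs')
    have e0 : B 0 0 1 = 0 := congrFun e 0
    rw [h3] at e0
    have h7 := A2_den hz g
    simp [Matrix.vecMulVec_apply, colv, rowv, h2, h7] at e0

end Pool.Agent.Work.MP_c2f093_al.Gen
end

-- merged part: Pool.Agent.Work.MP_c2f093_al.Gen.A3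
section
/-!
Decoding: the value of a state with one arc is `± q * G * p` where `G` is the two by two matrix of the
half-letter word `snd (y i), fst (y (i+1)), snd (y (i+1)), ..., fst (y (i+g))`.

Plan.  (1) `valX` may be computed from any starting position (cyclic invariance of the trace: the list
`(range n).map fun j => f (i + j)` is a rotation of `(range n).map f`), so start at `i`: the blocks are `false → true`, then
`g - 1` blocks `true → true`, then `true → false`, then `n - g - 1` blocks `false → false`; the trace is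
`sg (y i) * sg (y (i+g)) * (q ⬝ᵥ G *ᵥ p)` (`val_arc`).  (2) From `h1` for all `p q`: `G = c • G'` with `c = ± 1`; from `h2` the same
sign for the complementary arcs, up to which `G * Gc = G' * Gc'` (or keep an arbitrary sign `c'`).  (3) `Sm_mul_inv` gives a
homomorphism `σ t : FreeGroup (ι × Bool) →* N2` with `σ t (mk w) = (w.map (Sm z t)).prod`; with
`W = mk (half y i g ++ half y (i+g) (n-g))` we get `σ t (W * W'⁻¹) = c • 1`, whose entry `0 1` vanishes, so `faithful`
applied to `(W * W'⁻¹).toWord` gives `W = W'`.  (4) `W` is conjugate to `dbl (word y)` (`dbl (mk [x]) = mk [fst x, snd x]`),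
and the retraction `(i, false) ↦ of i`, `(i, true) ↦ 1` undoes `dbl`.
-/

namespace Pool.Agent.Work.MP_c2f093_al.Gen

open Finset

/-- the half-letter word of an arc -/
def half {ι : Type} {n : ℕ} (y : ZMod n → ι × Bool) (i : ZMod n) (g : ℕ) : List ((ι × Bool) × Bool) :=
  (List.range g).flatMap fun j : ℕ => [snd (y (i + (j : ZMod n))), fst (y (i + (j : ZMod n) + 1))]

theorem A3_cyc {M α : Type} [Monoid M] (φ : M → α) (hφ : ∀ a b, φ (a * b) = φ (b * a)) {n : ℕ}
    [NeZero n] (f : ZMod n → M) (i : ZMod n) :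
    φ ((List.range n).map fun j : ℕ => f (i + (j : ZMod n))).prod =
      φ ((List.range n).map fun j : ℕ => f (j : ZMod n)).prod := by
  have key : ∀ i : ZMod n, φ ((List.range n).map fun j : ℕ => f (i + 1 + (j : ZMod n))).prod =
      φ ((List.range n).map fun j : ℕ => f (i + (j : ZMod n))).prod := by
    intro i
    obtain ⟨m, hm⟩ : ∃ m, n = m + 1 := ⟨n - 1, by have := NeZero.pos n; omega⟩
    have e1 : List.range n = List.range m ++ [m] := by rw [hm, List.range_succ]
    have e2 : List.range n = 0 :: (List.range m).map Nat.succ := by rw [hm, List.range_succ_eq_map]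
    have e3 : i + 1 + (m : ZMod n) = i := by
      have : ((m + 1 : ℕ) : ZMod n) = 0 := by rw [← hm]; exact ZMod.natCast_self n
      push_cast at this
      linear_combination this
    have e4 : ((fun j : ℕ => f (i + (j : ZMod n))) ∘ Nat.succ) =
        fun j : ℕ => f (i + 1 + (j : ZMod n)) := by
      funext j
      simp only [Function.comp, Nat.cast_succ]
      congr 1
      ring
    conv_lhs => rw [e1]
    conv_rhs => rw [e2]
    rw [List.map_append, List.prod_append, List.map_singleton, List.prod_singleton, e3, hφ,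
      List.map_cons, List.prod_cons, List.map_map, e4, Nat.cast_zero, add_zero]
  obtain ⟨k, rfl⟩ := ZMod.natCast_zmod_surjective i
  induction k with
  | zero => simp
  | succ k ih => rw [Nat.cast_succ, key, ih]

theorem A3_arc {n : ℕ} [NeZero n] (i : ZMod n) (g : ℕ) {k : ℕ} (hk : k < n) :
    Arc i g (i + (k : ZMod n) + 1) = decide (k < g) := by
  have : i + (k : ZMod n) + 1 - i - 1 = k := by ring
  simp only [Arc, this, ZMod.val_cast_of_lt hk]

theorem A3_arc_self {n : ℕ} [NeZero n] (i : ZMod n) {g : ℕ} (hgn : g < n) : Arc i g i = false := by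
  have h := A3_arc i g (k := n - 1) (by omega)
  have e : i + ((n - 1 : ℕ) : ZMod n) + 1 = i := by
    have : ((n - 1 + 1 : ℕ) : ZMod n) = 0 := by
      rw [show n - 1 + 1 = n by omega]; exact ZMod.natCast_self n
    push_cast at this
    linear_combination this
  rw [e] at h
  rw [h]
  exact decide_eq_false (by omega)

theorem A3_half_succ {ι : Type} {n : ℕ} (y : ZMod n → ι × Bool) (i : ZMod n) (m : ℕ) :
    half y i (m + 1) = half y i m ++ [snd (y (i + (m : ZMod n))), fst (y (i + (m : ZMod n) + 1))] := by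
  simp [half, List.range_succ]

theorem A3_trace (p q : Fin 2 → ℂ) (G : N2) :
    (Matrix.fromBlocks 0 0 0 (Matrix.replicateRow Unit q * (G * Matrix.replicateCol Unit p)) :
      N3).trace = q ⬝ᵥ G.mulVec p := by
  simp [Matrix.trace, Fintype.sum_sum_type, Matrix.mul_apply, Matrix.mulVec, dotProduct]

theorem val_arc {ι : Type} (z : (ι × Bool) × Bool → ℂ) (t : ℂ) (p q : Fin 2 → ℂ) {n : ℕ} [NeZero n]
    (y : ZMod n → ι × Bool) (i : ZMod n) (g : ℕ) (hg : 0 < g) (hgn : g < n) :
    valX z t p q y (Arc i g) = sg (y i) * sg (y (i + (g : ZMod n))) *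
      (q ⬝ᵥ (((half y i g).map (Sm z t)).prod).mulVec p) := by
  let F : ZMod n → N3 := fun j => blk z t p q (y j) (Arc i g j) (Arc i g (j + 1))
  let G : ℕ → N2 := fun m => ((half y i m).map (Sm z t)).prod
  let Pr : ℕ → N3 := fun m => ((List.range m).map fun j : ℕ => F (i + (j : ZMod n))).prod
  have hPr : ∀ m, Pr (m + 1) = Pr m * F (i + (m : ZMod n)) := fun m => by
    simp only [Pr, List.range_succ, List.map_append, List.prod_append, List.map_singleton,
      List.prod_singleton]
  have hG : ∀ m, G (m + 1) =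
      G m * Sm z t (snd (y (i + (m : ZMod n)))) * Sm z t (fst (y (i + ((m + 1 : ℕ) : ZMod n)))) :=
    fun m => by
      simp only [G, A3_half_succ, List.map_append, List.prod_append, List.map_cons, List.map_nil,
        List.prod_cons, List.prod_nil, mul_one, mul_assoc, Nat.cast_succ, add_assoc]
  have hF : ∀ m, m + 1 < n → F (i + ((m + 1 : ℕ) : ZMod n)) =
      blk z t p q (y (i + ((m + 1 : ℕ) : ZMod n))) (decide (m < g)) (decide (m + 1 < g)) := by
    intro m hm
    simp only [F]
    rw [A3_arc i g (k := m + 1) hm, Nat.cast_succ, ← add_assoc, A3_arc i g (k := m) (by omega)]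
  have hA : ∀ m, m < g → Pr (m + 1) = sg (y i) • Matrix.fromBlocks 0 0
      (Matrix.replicateRow Unit q * (G m * Sm z t (snd (y (i + (m : ZMod n)))))) 0 := by
    intro m
    induction m with
    | zero =>
      intro _
      have h0 : Arc i g (i + 1) = true := by
        have := A3_arc i g (k := 0) (by omega)
        simpa [hg] using this
      have h1 : Pr 0 = 1 := rfl
      have h2 : G 0 = 1 := rfl
      rw [hPr, h1, h2, one_mul, one_mul]
      simp only [F, Nat.cast_zero, add_zero, h0, A3_arc_self i hgn, blk]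
    | succ m ih =>
      intro hm
      rw [hPr, ih (by omega), hF m (by omega), decide_eq_true (by omega : m < g), decide_eq_true hm,
        hG]
      simp only [blk, smul_mul_assoc, Matrix.fromBlocks_multiply, Matrix.mul_zero, Matrix.zero_mul,
        add_zero, Matrix.mul_assoc]
  have hB : ∀ r, g + 1 + r ≤ n → Pr (g + 1 + r) = (sg (y i) * sg (y (i + (g : ZMod n)))) •
      Matrix.fromBlocks 0 0 0 (Matrix.replicateRow Unit q * (G g * Matrix.replicateCol Unit p)) := by
    intro r
    induction r with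
    | zero =>
      intro _
      obtain ⟨m, rfl⟩ : ∃ m, g = m + 1 := ⟨g - 1, by omega⟩
      rw [add_zero, hPr, hA m (by omega), hF m hgn, decide_eq_true (by omega : m < m + 1),
        decide_eq_false (lt_irrefl _), hG]
      simp only [blk, smul_mul_assoc, mul_smul_comm, Matrix.fromBlocks_multiply, Matrix.mul_zero,
        Matrix.zero_mul, add_zero, Matrix.mul_assoc, smul_smul, mul_comm]
    | succ r ih =>
      intro hr
      rw [← add_assoc, hPr, ih (by omega), show g + 1 + r = g + r + 1 by omega, hF _ (by omega),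
        decide_eq_false (by omega), decide_eq_false (by omega)]
      simp only [blk, smul_mul_assoc, Matrix.fromBlocks_multiply, Matrix.mul_zero,
        add_zero, zero_add, Matrix.mul_one]
  have hn : valX z t p q y (Arc i g) = (Pr n).trace :=
    (A3_cyc Matrix.trace Matrix.trace_mul_comm F i).symm
  have hB' := hB (n - (g + 1)) (by omega)
  rw [show g + 1 + (n - (g + 1)) = n by omega] at hB'
  rw [hn, hB', Matrix.trace_smul, smul_eq_mul, A3_trace]

theorem isConj_of_dbl {ι : Type} {u v : FreeGroup ι} (h : IsConj (dbl u) (dbl v)) : IsConj u v := by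
  let r : FreeGroup (ι × Bool) →* FreeGroup ι :=
    FreeGroup.lift fun x => if x.2 then 1 else FreeGroup.of x.1
  have hr : r.comp dbl = MonoidHom.id _ := by
    ext a
    simp [r, dbl]
  have h1 := r.map_isConj h
  rwa [← MonoidHom.comp_apply, ← MonoidHom.comp_apply, hr] at h1

theorem A3_dbl_one {ι : Type} (x : ι × Bool) :
    dbl (FreeGroup.mk [x]) = FreeGroup.mk [fst x, snd x] := by
  obtain ⟨a, b⟩ := x
  cases b
  · have e : ∀ {κ : Type} (c : κ), FreeGroup.mk [(c, false)] = (FreeGroup.of c)⁻¹ := fun c => rfl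
    have e' : FreeGroup.mk [fst (a, false), snd (a, false)] =
        FreeGroup.mk [((a, true), false)] * FreeGroup.mk [((a, false), false)] := rfl
    rw [e', e, e, e, map_inv]
    simp [dbl]
  · have e : ∀ {κ : Type} (c : κ), FreeGroup.mk [(c, true)] = FreeGroup.of c := fun c => rfl
    have e' : FreeGroup.mk [fst (a, true), snd (a, true)] =
        FreeGroup.mk [((a, false), true)] * FreeGroup.mk [((a, true), true)] := rfl
    rw [e', e, e, e]
    simp [dbl]

theorem dbl_mk {ι : Type} (w : List (ι × Bool)) :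
    dbl (FreeGroup.mk w) = FreeGroup.mk (w.flatMap fun x => [fst x, snd x]) := by
  induction w with
  | nil => exact map_one _
  | cons x w ih =>
    rw [List.flatMap_cons, ← FreeGroup.mul_mk, ← ih, ← A3_dbl_one, ← map_mul, FreeGroup.mul_mk]
    rfl

theorem A3_half_add {ι : Type} {n : ℕ} (y : ZMod n → ι × Bool) (i : ZMod n) (a b : ℕ) :
    half y i (a + b) = half y i a ++ half y (i + (a : ZMod n)) b := by
  induction b with
  | zero => simp [half]
  | succ b ih =>
    rw [← add_assoc, A3_half_succ, A3_half_succ, ih, List.append_assoc, Nat.cast_add, ← add_assoc]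

theorem half_conj {ι : Type} {n : ℕ} [NeZero n] (y : ZMod n → ι × Bool) (i : ZMod n) (g : ℕ)
    (hgn : g ≤ n) :
    IsConj (FreeGroup.mk (half y i g ++ half y (i + (g : ZMod n)) (n - g))) (dbl (word y)) := by
  let f : ZMod n → FreeGroup (ι × Bool) := fun j => FreeGroup.mk [fst (y j), snd (y j)]
  have h1 : ∀ m : ℕ, FreeGroup.mk [fst (y i)] * FreeGroup.mk (half y i m) =
      ((List.range m).map fun j : ℕ => f (i + (j : ZMod n))).prod *
        FreeGroup.mk [fst (y (i + (m : ZMod n)))] := by
    intro m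
    induction m with
    | zero => simp [half, ← FreeGroup.one_eq_mk]
    | succ m ih =>
      rw [A3_half_succ, ← FreeGroup.mul_mk, ← mul_assoc, ih, List.range_succ, List.map_append,
        List.prod_append, List.map_singleton, List.prod_singleton, mul_assoc, mul_assoc,
        Nat.cast_succ, ← add_assoc]
      rfl
  have h2 : ∀ m : ℕ, dbl (FreeGroup.mk ((List.range m).map fun j : ℕ => y (j : ZMod n))) =
      ((List.range m).map fun j : ℕ => f (j : ZMod n)).prod := by
    intro m
    induction m with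
    | zero => exact map_one _
    | succ m ih =>
      rw [List.range_succ, List.map_append, List.map_append, ← FreeGroup.mul_mk, map_mul, ih,
        List.prod_append, List.map_singleton, List.map_singleton, List.prod_singleton, A3_dbl_one]
  have h3 := A3_cyc ConjClasses.mk (fun a b => ConjClasses.mk_eq_mk_iff_isConj.2
    (isConj_iff.2 ⟨b, by group⟩)) f i
  rw [← A3_half_add, show g + (n - g) = n by omega, word, h2]
  refine IsConj.trans ?_ (ConjClasses.mk_eq_mk_iff_isConj.1 h3)
  refine isConj_iff.2 ⟨FreeGroup.mk [fst (y i)], ?_⟩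
  rw [h1, ZMod.natCast_self, add_zero, mul_inv_cancel_right]

theorem A3_sg_ne {ι : Type} (x : ι × Bool) : sg x ≠ 0 := by
  unfold sg
  split_ifs <;> simp

theorem A3_scal {s s' : ℂ} {G G' : N2} (hs : s ≠ 0)
    (h : ∀ p q : Fin 2 → ℂ, s * (q ⬝ᵥ G.mulVec p) = s' * (q ⬝ᵥ G'.mulVec p)) : ∃ c : ℂ, G = c • G' := by
  refine ⟨s' / s, ?_⟩
  ext a b
  have := h (Pi.single b 1) (Pi.single a 1)
  simp only [single_dotProduct, one_mul, Matrix.mulVec_single_one, Matrix.col_apply] at this
  rw [Matrix.smul_apply, smul_eq_mul, div_mul_eq_mul_div, eq_div_iff hs, ← this, mul_comm]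

theorem A3_rep {κ : Type} {z : κ × Bool → ℂ} (hz : Function.Injective z) {t : ℂ} (ht : t ≠ 0) :
    ∃ σ : FreeGroup κ →* N2, ∀ w, σ (FreeGroup.mk w) = (w.map (Sm z t)).prod := by
  let u : κ → N2ˣ := fun a => ⟨Sm z t (a, true), Sm z t (a, false), Sm_mul_inv hz ht (a, true),
    Sm_mul_inv hz ht (a, false)⟩
  refine ⟨(Units.coeHom N2).comp (FreeGroup.lift u), fun w => ?_⟩
  rw [MonoidHom.comp_apply, FreeGroup.lift_mk, map_list_prod, List.map_map]
  congr 2
  funext x
  obtain ⟨a, b⟩ := x
  cases b <;> rfl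

theorem decode {ι : Type} [DecidableEq ι] {z : (ι × Bool) × Bool → ℂ} (hz : Function.Injective z)
    {n n' : ℕ} [NeZero n] [NeZero n'] (y : ZMod n → ι × Bool) (y' : ZMod n' → ι × Bool)
    (i : ZMod n) (g : ℕ) (hg : 0 < g) (hgn : g < n)
    (i' : ZMod n') (g' : ℕ) (hg' : 0 < g') (hgn' : g' < n')
    (h1 : ∀ t : ℂ, t ≠ 0 → ∀ p q, valX z t p q y (Arc i g) = valX z t p q y' (Arc i' g'))
    (h2 : ∀ t : ℂ, t ≠ 0 → ∀ p q, valX z t p q y (Arc (i + (g : ZMod n)) (n - g)) =
      valX z t p q y' (Arc (i' + (g' : ZMod n')) (n' - g'))) :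
    IsConj (word y) (word y') := by
  have hW : FreeGroup.mk (half y i g ++ half y (i + (g : ZMod n)) (n - g)) *
      (FreeGroup.mk (half y' i' g' ++ half y' (i' + (g' : ZMod n')) (n' - g')))⁻¹ = 1 := by
    rw [← FreeGroup.toWord_eq_nil_iff]
    refine faithful hz _ (fun t ht => ?_) FreeGroup.isReduced_toWord
    obtain ⟨σ, hσ⟩ := A3_rep hz ht
    obtain ⟨c, hc⟩ := A3_scal (mul_ne_zero (A3_sg_ne _) (A3_sg_ne _)) fun p q =>
      (val_arc z t p q y i g hg hgn).symm.trans
        ((h1 t ht p q).trans (val_arc z t p q y' i' g' hg' hgn'))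
    obtain ⟨c', hc'⟩ := A3_scal (mul_ne_zero (A3_sg_ne _) (A3_sg_ne _)) fun p q =>
      (val_arc z t p q y (i + (g : ZMod n)) (n - g) (by omega) (by omega)).symm.trans
        ((h2 t ht p q).trans
          (val_arc z t p q y' (i' + (g' : ZMod n')) (n' - g') (by omega) (by omega)))
    have e : σ (FreeGroup.mk (half y i g ++ half y (i + (g : ZMod n)) (n - g))) =
        (c * c') • σ (FreeGroup.mk (half y' i' g' ++ half y' (i' + (g' : ZMod n')) (n' - g'))) := by
      rw [hσ, hσ, List.map_append, List.prod_append, List.map_append, List.prod_append, hc, hc',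
        smul_mul_smul_comm]
    rw [← hσ, FreeGroup.mk_toWord, map_mul, e, smul_mul_assoc, ← map_mul, mul_inv_cancel, map_one]
    simp
  rw [mul_inv_eq_one] at hW
  refine isConj_of_dbl ((half_conj y i g hgn.le).symm.trans ?_)
  rw [hW]
  exact half_conj y' i' g' hgn'.le

end Pool.Agent.Work.MP_c2f093_al.Gen
end

-- merged part: Pool.Agent.Work.MP_c2f093_al.Gen.A4
section
/-!
Combinatorics of states: arcs, complements, and the passage from a bound on single arcs to `Ext`.

`kk_not`: sum `[X j] - [X (j+1)]` over `ZMod n` (shift the index with `Equiv.addRight 1`).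
`peel`: take `j` with `X j = true`, `X (j+1) = false`; let `g` be the least natural number with `X (j - g) = false`
(`g ≤ n - 1` because `j - (n - 1) = j + 1`) and `i = j - g`.
`arc_trans`: the only changes of `Arc i g` are at the letters `i` and `i + g`.
`ext_of_arcs`: `dg` is additive on disjoint states; strong induction on `kk X` with `peel` for all valid `X` other than
the full state (the peeled arc starts at a letter of type `some true` and ends at one of type `some false`, and the
rest is valid).  In the case of equality the peeled arc is the extremal one and the rest, being disjoint from it, is empty.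
-/

namespace Pool.Agent.Work.MP_c2f093_al.Gen

open Finset

variable {ι : Type} {n : ℕ} [NeZero n]

/-- starts and ends are equally many -/
theorem kk_not (X : ZMod n → Bool) : kk (fun j => !X j) = kk X := by
  have h : ∑ j, (if X (j + 1) = true then (1 : ℤ) else 0) = ∑ j, if X j = true then 1 else 0 :=
    Equiv.sum_comp (Equiv.addRight (1 : ZMod n)) fun j => if X j = true then (1 : ℤ) else 0
  have e : ∑ j, ((if (!X j) = true ∧ (!X (j + 1)) = false then (1 : ℤ) else 0) +
      if X j = true then (1 : ℤ) else 0) =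
      ∑ j, ((if X j = true ∧ X (j + 1) = false then (1 : ℤ) else 0) +
        if X (j + 1) = true then (1 : ℤ) else 0) :=
    sum_congr rfl fun j _ => by cases X j <;> cases X (j + 1) <;> simp
  rw [sum_add_distrib, sum_add_distrib, h, add_left_inj] at e
  unfold kk
  rw [card_filter, card_filter]
  exact_mod_cast e

theorem sz_not (X : ZMod n → Bool) : sz (fun j => !X j) + sz X = n := by
  have h := card_filter_add_card_filter_not (s := (univ : Finset (ZMod n))) fun j => X j = true
  rw [card_univ, ZMod.card] at h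
  unfold sz
  rw [add_comm]
  simpa using h

theorem dg_not (l r : ι → ℤ) (y : ZMod n → ι × Bool) (X : ZMod n → Bool) :
    dg l r y (fun j => !X j) + dg l r y X = dg l r y (fun _ => true) := by
  unfold dg
  rw [← sum_add_distrib]
  refine sum_congr rfl fun j _ => ?_
  beta_reduce
  cases X j <;> cases X (j + 1) <;> simp [add_comm]

theorem const_of_kk_zero (X : ZMod n → Bool) (h : kk X = 0) :
    X = (fun _ => true) ∨ X = (fun _ => false) := by
  have h1 : ∀ j, X j = true → X (j + 1) = true := by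
    intro j hj
    by_contra hn
    exact filter_eq_empty_iff.1 (card_eq_zero.1 h) (mem_univ j) ⟨hj, by simpa using hn⟩
  by_cases hx : ∃ j, X j = true
  · obtain ⟨j, hj⟩ := hx
    have h2 : ∀ k : ℕ, X (j + k) = true := by
      intro k
      induction k with
      | zero => simpa using hj
      | succ k ih =>
        rw [Nat.cast_succ, ← add_assoc]
        exact h1 _ ih
    left
    funext i
    have := h2 (i - j).val
    rwa [ZMod.natCast_zmod_val, add_sub_cancel] at this
  · right
    funext i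
    by_contra hn
    exact hx ⟨i, by simpa using hn⟩

theorem arc_trans (i : ZMod n) (g : ℕ) (hg : 0 < g) (hgn : g < n) (j : ZMod n) :
    ((Arc i g j = false ∧ Arc i g (j + 1) = true) ↔ j = i) ∧
      ((Arc i g j = true ∧ Arc i g (j + 1) = false) ↔ j = i + (g : ZMod n)) := by
  have e1 : j + 1 - i - 1 = j - i - 1 + 1 := by ring
  have e2 : j = i ↔ (j - i - 1 + 1).val = 0 := by
    rw [ZMod.val_eq_zero, sub_add_cancel, sub_eq_zero]
  have e3 : j = i + (g : ZMod n) ↔ (j - i - 1 + 1).val = g := by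
    conv_rhs => rw [← ZMod.val_cast_of_lt hgn]
    rw [(ZMod.val_injective n).eq_iff, sub_add_cancel, sub_eq_iff_eq_add']
  have e4 : (j - i - 1 + 1).val = ((j - i - 1).val + 1) % n := by
    rw [← ZMod.val_natCast, Nat.cast_succ, ZMod.natCast_zmod_val]
  have h1 := ZMod.val_lt (j - i - 1)
  rw [e2, e3]
  simp only [Arc, e1, e4, decide_eq_true_eq, decide_eq_false_iff_not]
  rcases (Nat.succ_le_of_lt h1).eq_or_lt with h | h
  · rw [show ((j - i - 1).val + 1) % n = 0 by rw [← Nat.succ_eq_add_one, h, Nat.mod_self]]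
    omega
  · rw [Nat.mod_eq_of_lt h]
    omega

theorem kk_arc (i : ZMod n) (g : ℕ) (hg : 0 < g) (hgn : g < n) : kk (Arc i g) = 1 := by
  refine card_eq_one.2 ⟨i + (g : ZMod n), ?_⟩
  ext j
  simp only [mem_filter, mem_univ, true_and, mem_singleton]
  exact (arc_trans i g hg hgn j).2

/-- remove one maximal arc -/
theorem peel (X : ZMod n → Bool) (h : 1 ≤ kk X) :
    ∃ (i : ZMod n) (g : ℕ), 0 < g ∧ g < n ∧ X i = false ∧ X (i + (g : ZMod n) + 1) = false ∧
      (∀ j, Arc i g j = true → X j = true) ∧ kk X = kk (fun j => X j && !Arc i g j) + 1 := by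
  obtain ⟨j, hj⟩ := card_pos.1 h
  obtain ⟨-, h1, h2⟩ := mem_filter.1 hj
  have hn : 0 < n := Nat.pos_of_neZero n
  have h3 : X (j - ((n - 1 : ℕ) : ZMod n)) = false := by
    rw [Nat.cast_pred hn, ZMod.natCast_self, zero_sub, sub_neg_eq_add]
    exact h2
  have hex : ∃ m : ℕ, X (j - m) = false := ⟨_, h3⟩
  have g1 := Nat.find_spec hex
  have g2 : Nat.find hex ≤ n - 1 := Nat.find_min' hex h3
  have g3 : ∀ m < Nat.find hex, X (j - m) = true := fun m hm => by
    simpa using Nat.find_min hex hm
  generalize Nat.find hex = g at g1 g2 g3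
  have hg : 0 < g := by
    rcases Nat.eq_zero_or_pos g with rfl | hg
    · simp [h1] at g1
    · exact hg
  have hgn : g < n := by omega
  have hA : ∀ j', Arc (j - (g : ZMod n)) g j' = true → X j' = true := by
    intro j' hj'
    have k1 : (j' - (j - g) - 1).val < g := by simpa [Arc] using hj'
    have k2 := g3 (g - ((j' - (j - g) - 1).val + 1)) (by omega)
    rw [Nat.cast_sub k1, Nat.cast_succ, ZMod.natCast_zmod_val] at k2
    rw [← k2]
    congr 1
    ring
  have hT := arc_trans (j - (g : ZMod n)) g hg hgn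
  simp only [sub_add_cancel] at hT
  refine ⟨j - g, g, hg, hgn, g1, by rw [sub_add_cancel]; exact h2, hA, ?_⟩
  unfold kk
  rw [← card_insert_of_notMem (a := j) (by simp [((hT j).2.2 rfl).1])]
  congr 1
  ext j'
  simp only [mem_filter, mem_univ, true_and, mem_insert]
  constructor
  · rintro ⟨k1, k2⟩
    have k3 : Arc (j - (g : ZMod n)) g (j' + 1) = false := by
      by_contra k
      simp [hA _ (by simpa using k)] at k2
    cases k4 : Arc (j - (g : ZMod n)) g j'
    · simp [k1, k2]
    · exact Or.inl ((hT j').2.1 ⟨k4, k3⟩)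
  · rintro (rfl | ⟨k1, k2⟩)
    · exact ⟨h1, h2⟩
    · simp only [Bool.and_eq_true, Bool.not_eq_eq_eq_not, Bool.not_true] at k1
      refine ⟨k1.1, ?_⟩
      cases k4 : Arc (j - (g : ZMod n)) g (j' + 1)
      · simpa [k4] using k2
      · have := (hT j').1.1 ⟨k1.2, k4⟩
        rw [this, g1] at k1
        simp at k1

theorem A4_eq {X A : ZMod n → Bool} {i : ZMod n} (h1 : X i = false)
    (h2 : ∀ j, A j = true → X j = true) (h3 : kk (fun j => X j && !A j) = 0) : X = A := by
  rcases const_of_kk_zero _ h3 with h | h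
  · simpa [h1] using congrFun h i
  · funext j
    have k1 := congrFun h j
    have k2 := h2 j
    revert k1 k2
    cases X j <;> cases A j <;> simp

theorem arc_of_kk_one (X : ZMod n → Bool) (h : kk X = 1) :
    ∃ (i : ZMod n) (g : ℕ), 0 < g ∧ g < n ∧ X = Arc i g := by
  obtain ⟨i, g, hg, hgn, h1, -, h3, h4⟩ := peel X h.ge
  exact ⟨i, g, hg, hgn, A4_eq h1 h3 (by omega)⟩

theorem not_arc (i : ZMod n) (g : ℕ) (hg : 0 < g) (hgn : g < n) :
    (fun j => !Arc i g j) = Arc (i + (g : ZMod n)) (n - g) := by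
  funext j
  have h1 := ZMod.val_lt (j - i - 1)
  have e : j - (i + (g : ZMod n)) - 1 = ((j - i - 1).val : ZMod n) - g := by
    rw [ZMod.natCast_zmod_val]
    ring
  simp only [Arc]
  rw [e]
  generalize (j - i - 1).val = k at h1
  rcases lt_or_ge k g with h | h
  · have e2 : (k : ZMod n) - g = ((k + n - g : ℕ) : ZMod n) := by
      rw [Nat.cast_sub (by omega), Nat.cast_add, ZMod.natCast_self, add_zero]
    rw [e2, ZMod.val_cast_of_lt (by omega), decide_eq_true h, decide_eq_false (by omega)]
    rfl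
  · rw [← Nat.cast_sub h, ZMod.val_cast_of_lt (by omega), decide_eq_false (by omega),
      decide_eq_true (by omega)]
    rfl

/-- a bound on single arcs gives the bound on all states -/
theorem ext_of_arcs (ty : ι → Option Bool) (l r : ι → ℤ) (y : ZMod n → ι × Bool) (M : ℤ) (hM : 0 < M)
    (i₀ : ZMod n) (g₀ : ℕ) (hg : 0 < g₀) (hgn : g₀ < n)
    (hs : ty (y i₀).1 = some true) (he : ty (y (i₀ + (g₀ : ZMod n))).1 = some false)
    (hd : dg l r y (Arc i₀ g₀) = M) (hfull : dg l r y (fun _ => true) ≤ 0)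
    (harc : ∀ (i : ZMod n) (g : ℕ), 0 < g → g < n → ty (y i).1 = some true →
      ty (y (i + (g : ZMod n))).1 = some false → (i = i₀ ∧ g = g₀) ∨ dg l r y (Arc i g) < M) :
    Ext ty l r y M (Arc i₀ g₀) := by
  have key : ∀ (k : ℕ) (X : ZMod n → Bool), Valid ty y X → X ≠ (fun _ => true) → kk X = k →
      dg l r y X ≤ M * k ∧ (dg l r y X = M * k → k = 0 ∨ X = Arc i₀ g₀) := by
    intro k
    induction k with
    | zero =>
      intro X _ hX hk
      rw [(const_of_kk_zero X hk).resolve_left hX]
      simp [dg]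
    | succ k ih =>
      intro X hV _ hk
      obtain ⟨i, g, p1, p2, p3, p4, p5, p6⟩ := peel X (by omega)
      have hT := arc_trans i g p1 p2
      have a1 := ((hT i).1.2 rfl).2
      have a2 := ((hT _).2.2 rfl).1
      have t1 : ty (y i).1 = some true := by
        have := hV i
        rw [p3, p5 _ a1] at this
        simpa using this
      have t2 : ty (y (i + (g : ZMod n))).1 = some false := by
        have := hV (i + g)
        rw [p4, p5 _ a2] at this
        simpa using this
      have hY : Valid ty y fun j => X j && !Arc i g j := by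
        intro j
        cases k1 : Arc i g j <;> cases k2 : Arc i g (j + 1)
        · simpa [k1, k2] using hV j
        · left
          rw [(hT j).1.1 ⟨k1, k2⟩]
          simp [p3, a1]
        · left
          rw [(hT j).2.1 ⟨k1, k2⟩]
          simp [p4, a2]
        · left
          simp [k1, k2]
      obtain ⟨q1, q2⟩ := ih _ hY (fun h => by simpa [p3] using congrFun h i) (by omega)
      have hadd : dg l r y X = dg l r y (Arc i g) + dg l r y fun j => X j && !Arc i g j := by
        unfold dg
        rw [← sum_add_distrib]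
        refine sum_congr rfl fun j _ => ?_
        have b1 := p5 j
        have b2 := p5 (j + 1)
        revert b1 b2
        beta_reduce
        cases X j <;> cases X (j + 1) <;> cases Arc i g j <;> cases Arc i g (j + 1) <;>
          simp [add_comm]
      rw [hadd, Nat.cast_succ, mul_add, mul_one]
      rcases harc i g p1 p2 t1 t2 with ⟨rfl, rfl⟩ | h
      · refine ⟨by linarith, fun h => Or.inr ?_⟩
        rcases q2 (by linarith) with h0 | h0
        · exact A4_eq p3 p5 (by omega)
        · have := congrFun h0 (i + 1)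
          simp [a1] at this
      · exact ⟨by linarith, fun h' => absurd h' (by linarith)⟩
  refine ⟨hM, fun j => ?_, kk_arc _ _ hg hgn, hd, fun X hX => ?_⟩
  · have hT := arc_trans i₀ g₀ hg hgn j
    cases k1 : Arc i₀ g₀ j <;> cases k2 : Arc i₀ g₀ (j + 1)
    · exact Or.inl rfl
    · exact Or.inr (hT.1.1 ⟨k1, k2⟩ ▸ hs)
    · exact Or.inr (hT.2.1 ⟨k1, k2⟩ ▸ he)
    · exact Or.inl rfl
  · by_cases h : X = fun _ => true
    · have : kk X = 0 := by simp [h, kk]
      rw [this, h]
      exact ⟨by simpa using hfull, fun _ => Or.inl rfl⟩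
    · exact key _ X hX h rfl

end Pool.Agent.Work.MP_c2f093_al.Gen
end

-- merged part: Pool.Agent.Work.MP_c2f093_al.Gen.A5
section
/-!
The abstract rigidity theorem (submodularity of the number of arcs and the degree count).
-/

namespace Pool.Agent.Work.MP_c2f093_al.Gen

open Finset

section lattice
variable {ι : Type} {n : ℕ} [NeZero n]

omit [NeZero n] in
lemma A5_valid_or {ty : ι → Option Bool} {y : ZMod n → ι × Bool} {X Y : ZMod n → Bool}
    (hX : Valid ty y X) (hY : Valid ty y Y) : Valid ty y (fun j => X j || Y j) := by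
  intro j
  have key : ∀ (o : Option Bool) (a a' b b' : Bool), (a = a' ∨ o = some a') → (b = b' ∨ o = some b') →
      ((a || b) = (a' || b') ∨ o = some (a' || b')) := by decide
  exact key _ _ _ _ _ (hX j) (hY j)

omit [NeZero n] in
lemma A5_valid_and {ty : ι → Option Bool} {y : ZMod n → ι × Bool} {X Y : ZMod n → Bool}
    (hX : Valid ty y X) (hY : Valid ty y Y) : Valid ty y (fun j => X j && Y j) := by
  intro j
  have key : ∀ (o : Option Bool) (a a' b b' : Bool), (a = a' ∨ o = some a') → (b = b' ∨ o = some b') →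
      ((a && b) = (a' && b') ∨ o = some (a' && b')) := by decide
  exact key _ _ _ _ _ (hX j) (hY j)

omit [NeZero n] in
lemma A5_valid_not {ty : ι → Option Bool} {y : ZMod n → ι × Bool} {X : ZMod n → Bool} :
    Valid (fun i => (ty i).map not) y X ↔ Valid ty y (fun j => !X j) := by
  have key : ∀ (o : Option Bool) (a a' : Bool),
      (a = a' ∨ o.map not = some a') ↔ ((!a) = (!a') ∨ o = some (!a')) := by decide
  exact forall_congr' fun j => key _ _ _

omit [NeZero n] in
lemma A5_valid_const (ty : ι → Option Bool) (y : ZMod n → ι × Bool) (b : Bool) :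
    Valid ty y (fun _ => b) := fun _ => Or.inl rfl

lemma A5_dg_mod (l r : ι → ℤ) (y : ZMod n → ι × Bool) (X Y : ZMod n → Bool) :
    dg l r y (fun j => X j || Y j) + dg l r y (fun j => X j && Y j) = dg l r y X + dg l r y Y := by
  simp only [dg, ← sum_add_distrib]
  refine sum_congr rfl fun j _ => ?_
  by_cases h1 : X j = true <;> by_cases h2 : X (j + 1) = true <;> by_cases h3 : Y j = true <;>
    by_cases h4 : Y (j + 1) = true <;> simp [h1, h2, h3, h4] <;> ring

lemma A5_dg_neg (l r : ι → ℤ) (y : ZMod n → ι × Bool) (X : ZMod n → Bool) :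
    dg (fun i => - l i) (fun i => - r i) y X = - dg l r y X := by
  simp only [dg, ← sum_neg_distrib]
  refine sum_congr rfl fun j _ => ?_
  simp only [lw, rw']
  cases X j <;> cases X (j + 1) <;> cases (y j).2 <;> simp <;> ring

lemma A5_dg_false (l r : ι → ℤ) (y : ZMod n → ι × Bool) : dg l r y (fun _ => false) = 0 := by
  simp [dg]

lemma A5_kk_const (b : Bool) : kk (fun _ : ZMod n => b) = 0 := by
  cases b <;> simp [kk]

lemma A5_sz_true : sz (fun _ : ZMod n => true) = n := by
  simp [sz]

lemma A5_sz_false : sz (fun _ : ZMod n => false) = 0 := by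
  simp [sz]

lemma A5_kk_sub (X Y : ZMod n → Bool) :
    kk (fun j => X j || Y j) + kk (fun j => X j && Y j) ≤ kk X + kk Y := by
  simp only [kk, card_filter, ← sum_add_distrib]
  refine sum_le_sum fun j _ => ?_
  cases X j <;> cases X (j + 1) <;> cases Y j <;> cases Y (j + 1) <;> simp

lemma A5_sz_lt {X Y : ZMod n → Bool} (h : ∀ j, X j = true → Y j = true) (hne : X ≠ Y) :
    sz X < sz Y := by
  apply card_lt_card
  refine ⟨fun j hj => ?_, fun hs => hne ?_⟩
  · simp only [mem_filter, mem_univ, true_and] at hj ⊢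
    exact h j hj
  · funext j
    have h1 := h j
    have h2 : Y j = true → X j = true := fun hj => by
      have := hs (mem_filter.2 ⟨mem_univ j, hj⟩)
      exact (mem_filter.1 this).2
    revert h1 h2
    cases X j <;> cases Y j <;> simp

/-- a nonempty family closed under unions has a unique largest member -/
lemma A5_top (D : (ZMod n → Bool) → Prop) (hne : ∃ X, D X)
    (hD : ∀ X Y, D X → D Y → D (fun j => X j || Y j)) :
    ∃ X1, D X1 ∧ ∀ X, D X → X ≠ X1 → sz X < sz X1 := by
  classical
  obtain ⟨X0, hX0⟩ := hne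
  obtain ⟨X1, hX1, hmax⟩ := exists_max_image (univ.filter D) sz ⟨X0, by simpa using hX0⟩
  have hD1 : D X1 := by simpa using hX1
  refine ⟨X1, hD1, fun X hX hne => ?_⟩
  have h1 := hmax _ (mem_filter.2 ⟨mem_univ _, hD X X1 hX hD1⟩)
  have h2 : X1 = fun j => X j || X1 j := by
    by_contra hc
    have := A5_sz_lt (X := X1) (Y := fun j => X j || X1 j) (fun j hj => by simp [hj]) hc
    omega
  refine A5_sz_lt (fun j hj => ?_) hne
  rw [h2]; simp [hj]

/-- the extremal class of an arbitrary word is a lattice -/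
lemma A5_class (ty : ι → Option Bool) (l r : ι → ℤ) (y : ZMod n → ι × Bool) {M : ℤ} (hM : 0 < M) :
    ∃ (d : ℤ) (K : ℕ), M * K ≤ d ∧ (∃ X, Valid ty y X ∧ dg l r y X = d ∧ kk X = K) ∧
      (∀ X, Valid ty y X → dg l r y X - M * kk X = d - M * K → kk X ≤ K) ∧
      ∀ X Y, (Valid ty y X ∧ dg l r y X = d ∧ kk X = K) → (Valid ty y Y ∧ dg l r y Y = d ∧ kk Y = K) →
        (Valid ty y (fun j => X j || Y j) ∧ dg l r y (fun j => X j || Y j) = d ∧
          kk (fun j => X j || Y j) = K) ∧
        (Valid ty y (fun j => X j && Y j) ∧ dg l r y (fun j => X j && Y j) = d ∧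
          kk (fun j => X j && Y j) = K) := by
  classical
  obtain ⟨Z, hZ, hZmax⟩ := exists_max_image (univ.filter (Valid ty y))
    (fun X => dg l r y X - M * kk X) ⟨fun _ => false, by simpa using A5_valid_const ty y false⟩
  have hF : ∀ X, Valid ty y X → dg l r y X - M * kk X ≤ dg l r y Z - M * kk Z :=
    fun X hX => hZmax X (by simpa using hX)
  obtain ⟨W, hW, hWmax⟩ := exists_max_image
    (univ.filter (fun X => Valid ty y X ∧ dg l r y X - M * kk X = dg l r y Z - M * kk Z)) kk
    ⟨Z, by simpa using hZ⟩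
  simp only [mem_filter, mem_univ, true_and] at hW hWmax
  have hK : ∀ X, Valid ty y X → dg l r y X - M * kk X = dg l r y W - M * kk W → kk X ≤ kk W :=
    fun X hX h => hWmax X ⟨hX, h.trans hW.2⟩
  refine ⟨dg l r y W, kk W, ?_, ⟨W, hW.1, rfl, rfl⟩, hK, ?_⟩
  · have := hF _ (A5_valid_const ty y false)
    rw [A5_dg_false, A5_kk_const] at this
    have h2 := hW.2
    push_cast at this
    linarith
  · rintro X Y ⟨hX, hXd, hXk⟩ ⟨hY, hYd, hYk⟩
    have hU := A5_valid_or hX hY
    have hI := A5_valid_and hX hY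
    have h1 := hF _ hU
    have h2 := hF _ hI
    have h3 := A5_dg_mod l r y X Y
    have h4 := A5_kk_sub X Y
    have h5 := hW.2
    rw [hXk, hYk] at h4
    rw [hXd, hYd] at h3
    have h4' : M * ((kk (fun j => X j || Y j) : ℤ) + kk (fun j => X j && Y j)) ≤
        M * ((kk W : ℤ) + kk W) := by
      apply mul_le_mul_of_nonneg_left _ hM.le
      exact_mod_cast h4
    have e1 : dg l r y (fun j => X j || Y j) - M * kk (fun j => X j || Y j) =
        dg l r y W - M * kk W := by linarith
    have e2 : dg l r y (fun j => X j && Y j) - M * kk (fun j => X j && Y j) =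
        dg l r y W - M * kk W := by linarith
    have k1 := hK _ hU e1
    have k2 := hK _ hI e2
    have h6 : M * ((kk (fun j => X j || Y j) : ℤ) + kk (fun j => X j && Y j)) =
        M * ((kk W : ℤ) + kk W) := by linarith
    have h7 : kk (fun j => X j || Y j) + kk (fun j => X j && Y j) = kk W + kk W := by
      exact_mod_cast mul_left_cancel₀ hM.ne' h6
    have k3 : kk (fun j => X j || Y j) = kk W := by omega
    have k4 : kk (fun j => X j && Y j) = kk W := by omega
    rw [k3] at e1
    rw [k4] at e2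
    exact ⟨⟨hU, by linarith, k3⟩, ⟨hI, by linarith, k4⟩⟩

end lattice

lemma A5_z (ι : Type) [Fintype ι] : ∃ z : (ι × Bool) × Bool → ℂ, Function.Injective z :=
  ⟨fun g => ((Fintype.equivFin _ g : ℕ) : ℂ), fun a b h => by
    have h1 : ((Fintype.equivFin _ a : ℕ)) = (Fintype.equivFin _ b : ℕ) := Nat.cast_injective (R := ℂ) h
    exact (Fintype.equivFin _).injective (Fin.ext h1)⟩

/-- a class with a unique largest member is matched by a member at least as large -/
lemma A5_transfer {ι : Type} {z : (ι × Bool) × Bool → ℂ} (hz : Function.Injective z)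
    (ty : ι → Option Bool) (l r : ι → ℤ) {n n' : ℕ} [NeZero n] [NeZero n']
    (y : ZMod n → ι × Bool) (y' : ZMod n' → ι × Bool) (hy : CycRed y) (hy' : CycRed y')
    (h : TE3 (word y) (word y')) (d : ℤ) (K : ℕ) (X1 : ZMod n → Bool)
    (h1 : Valid ty y X1 ∧ dg l r y X1 = d ∧ kk X1 = K)
    (hmax : ∀ X, (Valid ty y X ∧ dg l r y X = d ∧ kk X = K) → X ≠ X1 → sz X < sz X1) :
    ∃ X', (Valid ty y' X' ∧ dg l r y' X' = d ∧ kk X' = K) ∧ sz X1 ≤ sz X' := by
  classical
  choose f hfc hf0 hf using lead hz y hy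
  choose g hgc hg0 hg using lead hz y' hy'
  obtain ⟨X', hX', hle⟩ := asym
    (univ.filter (fun X => Valid ty y X ∧ dg l r y X = d ∧ kk X = K))
    (univ.filter (fun X => Valid ty y' X ∧ dg l r y' X = d ∧ kk X = K)) sz sz f g
    (fun i _ => hfc i) (fun j _ => hgc j)
    (fun t ht => by
      have := class_eq hz ty l r y y' h ht ![0, 1] ![1, 0] d K
      simp only [hf _ t ht, hg _ t ht] at this
      convert this)
    X1 (by simpa using h1) (fun X hX => hmax X (by simpa using hX)) (hf0 X1)
  exact ⟨X', by simpa using hX', hle⟩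

lemma A5_single {ι : Type} {z : (ι × Bool) × Bool → ℂ} (hz : Function.Injective z)
    (ty : ι → Option Bool) (l r : ι → ℤ) {n n' : ℕ} [NeZero n] [NeZero n']
    (y : ZMod n → ι × Bool) (y' : ZMod n' → ι × Bool)
    (h : TE3 (word y) (word y')) (d : ℤ) (K : ℕ) (X0 : ZMod n → Bool) (X1 : ZMod n' → Bool)
    (h0 : ∀ X, (Valid ty y X ∧ dg l r y X = d ∧ kk X = K) ↔ X = X0)
    (h1 : ∀ X, (Valid ty y' X ∧ dg l r y' X = d ∧ kk X = K) ↔ X = X1)
    (t : ℂ) (ht : t ≠ 0) (p q : Fin 2 → ℂ) : valX z t p q y X0 = valX z t p q y' X1 := by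
  classical
  have := class_eq hz ty l r y y' h ht p q d K
  simp only [h0, h1, filter_eq', mem_univ, if_true, sum_singleton] at this
  exact this

lemma A5_full {ι : Type} {z : (ι × Bool) × Bool → ℂ} (hz : Function.Injective z)
    (ty : ι → Option Bool) (l r : ι → ℤ) {n n' : ℕ} [NeZero n] [NeZero n']
    (y : ZMod n → ι × Bool) (y' : ZMod n' → ι × Bool) (hy : CycRed y) (hy' : CycRed y')
    (h : TE3 (word y) (word y')) :
    n ≤ n' ∧ dg l r y' (fun _ => true) = dg l r y (fun _ => true) := by
  obtain ⟨X', ⟨-, hd, hk⟩, hle⟩ := A5_transfer hz ty l r y y' hy hy' h (dg l r y (fun _ => true)) 0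
    (fun _ => true) ⟨A5_valid_const _ _ _, rfl, A5_kk_const _⟩
    (fun X _ hne => A5_sz_lt (fun _ _ => rfl) hne)
  rw [A5_sz_true] at hle
  rcases const_of_kk_zero X' hk with rfl | rfl
  · rw [A5_sz_true] at hle
    exact ⟨hle, hd⟩
  · rw [A5_sz_false] at hle
    exact absurd (Nat.le_zero.1 hle) (NeZero.ne n)

lemma A5_ext_class {ι : Type} {ty : ι → Option Bool} {l r : ι → ℤ} {n : ℕ} [NeZero n]
    {y : ZMod n → ι × Bool} {M : ℤ} {X0 : ZMod n → Bool} (hE : Ext ty l r y M X0) (X : ZMod n → Bool) :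
    (Valid ty y X ∧ dg l r y X = M ∧ kk X = 1) ↔ X = X0 := by
  obtain ⟨-, hV, hk, hd, hall⟩ := hE
  constructor
  · rintro ⟨h1, h2, h3⟩
    rcases (hall X h1).2 (by rw [h2, h3]; simp) with h | h
    · omega
    · exact h
  · rintro rfl
    exact ⟨hV, hd, hk⟩

/-- the classes of the second representation are the complements -/
lemma A5_class_not {ι : Type} (ty : ι → Option Bool) (l r : ι → ℤ) {n : ℕ} [NeZero n]
    (y : ZMod n → ι × Bool) (M : ℤ) (Y : ZMod n → Bool) :
    (Valid (fun i => (ty i).map not) y Y ∧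
      dg (fun i => - l i) (fun i => - r i) y Y = M - dg l r y (fun _ => true) ∧ kk Y = 1) ↔
    (Valid ty y (fun j => !Y j) ∧ dg l r y (fun j => !Y j) = M ∧ kk (fun j => !Y j) = 1) := by
  rw [A5_valid_not, A5_dg_neg, kk_not]
  have := dg_not l r y Y
  constructor
  · rintro ⟨h1, h2, h3⟩
    exact ⟨h1, by linarith, h3⟩
  · rintro ⟨h1, h2, h3⟩
    exact ⟨h1, by linarith, h3⟩

lemma A5_not_eq {n : ℕ} (X Y : ZMod n → Bool) : (fun j => !X j) = Y ↔ X = fun j => !Y j := by
  constructor
  · rintro rfl; funext j; simp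
  · rintro rfl; funext j; simp

theorem conj_of_ext {ι : Type} [Fintype ι] [DecidableEq ι] (ty : ι → Option Bool) (l r : ι → ℤ)
    {n n' : ℕ} [NeZero n] [NeZero n'] (y : ZMod n → ι × Bool) (y' : ZMod n' → ι × Bool)
    (hy : CycRed y) (hy' : CycRed y') {M : ℤ} {X0 : ZMod n → Bool} (hE : Ext ty l r y M X0)
    (h : TE3 (word y) (word y')) : IsConj (word y) (word y') := by
  obtain ⟨z, hz⟩ := A5_z ι
  have h' : TE3 (word y') (word y) := fun ρ => (h ρ).symm
  have hC0 := A5_ext_class hE
  obtain ⟨hM, hV0, hk0, hd0, hall⟩ := hE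
  obtain ⟨d, K, hdK, hne, hKmax, hcl⟩ := A5_class ty l r y' hM
  obtain ⟨X1, hX1, hX1max⟩ := A5_top (fun X => Valid ty y' X ∧ dg l r y' X = d ∧ kk X = K) hne
    (fun X Y hX hY => (hcl X Y hX hY).1)
  obtain ⟨X, ⟨hXv, hXd, hXk⟩, hle1⟩ := A5_transfer hz ty l r y' y hy' hy h' d K X1 hX1 hX1max
  have hd : d = M * K := by
    have := (hall X hXv).1
    rw [hXd, hXk] at this
    exact le_antisymm this hdK
  obtain ⟨X', ⟨hX'v, hX'd, hX'k⟩, -⟩ := A5_transfer hz ty l r y y' hy hy' h M 1 X0 ⟨hV0, hd0, hk0⟩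
    (fun X hX hne => absurd ((hC0 X).1 hX) hne)
  have hK1 : 1 ≤ K := by
    have := hKmax X' hX'v (by rw [hX'd, hX'k, hd]; simp)
    omega
  have hXX : X = X0 := by
    rcases (hall X hXv).2 (by rw [hXd, hXk, hd]) with h0 | h0
    · omega
    · exact h0
  subst hXX
  have hK : K = 1 := by omega
  subst hK
  have hdM : d = M := by rw [← hXd, hd0]
  subst hdM
  obtain ⟨hn1, hΘ⟩ := A5_full hz ty l r y y' hy hy' h
  obtain ⟨hn2, -⟩ := A5_full hz ty l r y' y hy' hy h'
  have hc2 := A5_class_not ty l r y d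
  have hc2' := A5_class_not ty l r y' d
  rw [hΘ] at hc2'
  have hnn : ∀ Z : ZMod n' → Bool, (fun j => !(!Z j)) = Z := fun Z => by funext j; simp
  obtain ⟨Y1, hY1, hY1max⟩ := A5_top (fun Y => Valid (fun i => (ty i).map not) y' Y ∧
      dg (fun i => - l i) (fun i => - r i) y' Y = d - dg l r y (fun _ => true) ∧ kk Y = 1)
    ⟨fun j => !X1 j, (hc2' _).2 (by rw [hnn]; exact hX1)⟩
    (fun Y Z hY hZ => (hc2' _).2 (by
      have := (hcl _ _ ((hc2' Y).1 hY) ((hc2' Z).1 hZ)).2
      simpa only [Bool.not_or] using this))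
  obtain ⟨Y, hY, hle2⟩ := A5_transfer hz _ _ _ y' y hy' hy h' _ 1 Y1 hY1 hY1max
  have hYX : (fun j => !Y j) = X := (hC0 _).1 ((hc2 Y).1 hY)
  have s1 := sz_not Y
  rw [hYX] at s1
  have s2 := sz_not X1
  have hY1X : (fun j => !X1 j) = Y1 := by
    by_contra hc
    have := hY1max _ ((hc2' _).2 (by rw [hnn]; exact hX1)) hc
    omega
  have hC1 : ∀ Z, (Valid ty y' Z ∧ dg l r y' Z = d ∧ kk Z = 1) ↔ Z = X1 := by
    intro Z
    refine ⟨fun hZ => ?_, fun hZ => hZ ▸ hX1⟩
    by_contra hc
    have a1 := hX1max Z hZ hc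
    have a2 := hY1max (fun j => !Z j) ((hc2' _).2 (by rw [hnn]; exact hZ)) (by
      rw [← hY1X]
      intro he
      apply hc
      rw [← hnn Z, ← hnn X1]
      funext j
      rw [congrFun he j])
    have a3 := sz_not Z
    rw [← hY1X] at a2
    omega
  have e1 := A5_single hz ty l r y y' h d 1 X X1 hC0 hC1
  have e2 := A5_single hz (fun i => (ty i).map not) (fun i => - l i) (fun i => - r i) y y' h
    (d - dg l r y (fun _ => true)) 1 (fun j => !X j) (fun j => !X1 j)
    (fun Z => by rw [hc2, hC0, A5_not_eq]) (fun Z => by rw [hc2', hC1, A5_not_eq])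
  obtain ⟨i, g, hg, hgn, rfl⟩ := arc_of_kk_one X hk0
  obtain ⟨i', g', hg', hgn', rfl⟩ := arc_of_kk_one X1 hX1.2.2
  rw [not_arc i g hg hgn, not_arc i' g' hg' hgn'] at e2
  exact decode hz y y' i g hg hgn i' g' hg' hgn' e1 e2

theorem not_te_one {ι : Type} [Fintype ι] [DecidableEq ι] (ty : ι → Option Bool) (l r : ι → ℤ)
    {n : ℕ} [NeZero n] (y : ZMod n → ι × Bool)
    (hy : CycRed y) {M : ℤ} {X0 : ZMod n → Bool} (hE : Ext ty l r y M X0) : ¬ TE3 (word y) 1 := by
  classical
  intro h
  obtain ⟨z, hz⟩ := A5_z ι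
  have hC0 := A5_ext_class hE
  obtain ⟨f, hfc, hf0, hf⟩ := lead hz y hy X0
  have hz0 : ∀ s : ℂ, s ≠ 0 → f s = 0 := by
    intro s hs
    have := class_one hz ty l r y h (inv_ne_zero hs) ![0, 1] ![1, 0] M
    simp only [hC0, filter_eq', mem_univ, if_true, sum_singleton] at this
    rw [hf _ (inv_ne_zero hs), inv_inv] at this
    exact (mul_eq_zero.1 this).resolve_left (pow_ne_zero _ (inv_ne_zero hs))
  have hcl : f = fun _ => 0 :=
    Continuous.ext_on (dense_compl_singleton (0 : ℂ)) hfc continuous_const (fun s hs => hz0 s hs)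
  exact hf0 (by rw [hcl])

end Pool.Agent.Work.MP_c2f093_al.Gen
end

-- merged part: Pool.Agent.Work.MP_c2f093_al.Gen.H
section
/-!
Heights, periodic heights and the letters next to a maximal arc.
-/

namespace Pool.Agent.Work.MP_c2f093_al.Gen

open Finset

theorem wt_inv (θ : ℤ × ℤ) (e : L) : wt θ (inv e) = - wt θ e := by
  rcases e with ⟨a, _ | _⟩ <;> simp [wt, inv]

theorem wt_smul (σ : ℤ) (θ : ℤ × ℤ) (e : L) : wt (σ • θ) e = σ * wt θ e := by
  unfold wt
  split_ifs <;> simp

theorem ht_smul (σ : ℤ) (θ : ℤ × ℤ) (x : List L) (i : ℕ) : ht (σ • θ) x i = σ * ht θ x i := by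
  unfold ht
  rw [← List.sum_map_mul_left]
  exact congrArg List.sum (List.map_congr_left fun e _ => wt_smul σ θ e)

theorem ht_zero (θ : ℤ × ℤ) (x : List L) : ht θ x 0 = 0 := by
  simp [ht]

theorem ht_nil (θ : ℤ × ℤ) (i : ℕ) : ht θ [] i = 0 := by
  simp [ht]

theorem ht_cons_succ (θ : ℤ × ℤ) (e : L) (x : List L) (i : ℕ) :
    ht θ (e :: x) (i + 1) = wt θ e + ht θ x i := by
  simp [ht]

theorem ht_succ (θ : ℤ × ℤ) (x : List L) (i : ℕ) (h : i < x.length) :
    ht θ x (i + 1) = ht θ x i + wt θ (chr x i) := by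
  unfold ht chr
  rw [List.take_add_one, List.map_append, List.sum_append, Nat.mod_eq_of_lt h,
    List.getD_eq_getElem?_getD, List.getElem?_eq_getElem h]
  simp

theorem ht_of_le (θ : ℤ × ℤ) (x : List L) (i : ℕ) (h : x.length ≤ i) : ht θ x i = tot θ x := by
  unfold ht tot
  rw [List.take_of_length_le h]

theorem ht_take (θ : ℤ × ℤ) (x : List L) (i k : ℕ) (h : i ≤ k) : ht θ (x.take k) i = ht θ x i := by
  unfold ht
  rw [List.take_take, min_eq_left h]

theorem ht_drop (θ : ℤ × ℤ) (x : List L) (i k : ℕ) :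
    ht θ (x.drop k) i = ht θ x (k + i) - ht θ x k := by
  unfold ht
  rw [List.take_add, List.map_append, List.sum_append]
  ring

theorem ht_append (θ : ℤ × ℤ) (x y : List L) (i : ℕ) :
    ht θ (x ++ y) i = ht θ x i + ht θ y (i - x.length) := by
  unfold ht
  rw [List.take_append, List.map_append, List.sum_append]

theorem tot_append (θ : ℤ × ℤ) (x y : List L) : tot θ (x ++ y) = tot θ x + tot θ y := by
  unfold tot
  rw [List.map_append, List.sum_append]

theorem H_tot_invRev (θ : ℤ × ℤ) (x : List L) : tot θ (FreeGroup.invRev x) = - tot θ x := by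
  induction x with
  | nil => simp [tot]
  | cons e x ih =>
    rw [FreeGroup.invRev_cons, tot_append, ih]
    have h1 : tot θ (FreeGroup.invRev [e]) = wt θ (inv e) := by
      simp [tot, FreeGroup.invRev, inv]
    have h2 : tot θ (e :: x) = wt θ e + tot θ x := by simp [tot]
    rw [h1, h2, wt_inv]
    ring



theorem ht_invRev (θ : ℤ × ℤ) (x : List L) (i : ℕ) (h : i ≤ x.length) :
    ht θ (FreeGroup.invRev x) i = ht θ x (x.length - i) - ht θ x x.length := by
  have h1 : (FreeGroup.invRev x).take i = FreeGroup.invRev (x.drop (x.length - i)) := by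
    unfold FreeGroup.invRev
    rw [List.take_reverse, List.length_map, List.map_drop]
  have h2 : ht θ (FreeGroup.invRev x) i = tot θ ((FreeGroup.invRev x).take i) := rfl
  rw [h2, h1, H_tot_invRev, ← ht_of_le θ (x.drop (x.length - i)) i (by simp; omega), ht_drop,
    Nat.sub_add_cancel h]
  ring

theorem chr_add_length (x : List L) (i : ℕ) : chr x (i + x.length) = chr x i := by
  unfold chr
  rw [Nat.add_mod_right]

theorem chr_of_lt (x : List L) (i : ℕ) (h : i < x.length) : chr x i = x[i] := by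
  unfold chr
  rw [Nat.mod_eq_of_lt h, List.getD_eq_getElem?_getD, List.getElem?_eq_getElem h, Option.getD_some]

theorem hp_of_le (θ : ℤ × ℤ) (x : List L) (i : ℕ) (h : i ≤ x.length) : hp θ x i = ht θ x i := by
  unfold hp
  rcases h.lt_or_eq with h | rfl
  · rw [Nat.mod_eq_of_lt h, Nat.div_eq_of_lt h]
    simp
  · rcases Nat.eq_zero_or_pos x.length with h0 | h0
    · rw [h0]
      simp
    · rw [Nat.mod_self, Nat.div_self h0, ht_zero, ht_of_le θ x _ le_rfl]
      simp

theorem hp_add_length (θ : ℤ × ℤ) (x : List L) (i : ℕ) :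
    hp θ x (i + x.length) = hp θ x i + tot θ x := by
  unfold hp
  rcases Nat.eq_zero_or_pos x.length with h0 | h0
  · obtain rfl := List.length_eq_zero_iff.1 h0
    simp [tot]
  · rw [Nat.add_mod_right, Nat.add_div_right _ h0]
    push_cast
    ring

theorem H_hp_mul (θ : ℤ × ℤ) (x : List L) (i k : ℕ) :
    hp θ x (i + x.length * k) = hp θ x i + k * tot θ x := by
  induction k with
  | zero => simp
  | succ k ih =>
    rw [Nat.mul_succ, ← add_assoc, hp_add_length, ih]
    push_cast
    ring

theorem H_chr_mod (x : List L) (i : ℕ) : chr x (i % x.length) = chr x i := by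
  unfold chr
  rw [Nat.mod_mod]



theorem hp_succ (θ : ℤ × ℤ) (x : List L) (hx : x ≠ []) (i : ℕ) :
    hp θ x (i + 1) = hp θ x i + wt θ (chr x i) := by
  have h0 : 0 < x.length := List.length_pos_iff.2 hx
  have h1 := Nat.mod_lt i h0
  have h2 := Nat.mod_add_div i x.length
  have h3 : i + 1 = i % x.length + 1 + x.length * (i / x.length) := by omega
  rw [h3, H_hp_mul, hp_of_le θ x _ h1, ht_succ θ x _ h1, H_chr_mod]
  unfold hp
  ring

theorem ht_rotate (θ : ℤ × ℤ) (x : List L) (r i : ℕ) (h : i ≤ x.length) :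
    ht θ (x.rotate r) i = hp θ x (r + i) - hp θ x r := by
  induction i with
  | zero => simp [ht_zero]
  | succ i ih =>
    have h1 : i < (x.rotate r).length := by rw [List.length_rotate]; omega
    have hx : x ≠ [] := List.length_pos_iff.1 (by omega)
    rw [ht_succ θ _ i h1, ih (by omega), ← add_assoc, hp_succ θ x hx, chr_of_lt _ _ h1,
      List.getElem_rotate, ← chr_of_lt, H_chr_mod, add_comm i r]
    ring

theorem val_eq_hp (θ : ℤ × ℤ) (x : List L) (p g : ℕ) (hg : g < x.length) :
    val θ x (p % x.length) ((p + g) % x.length) = hp θ x (p + g) - hp θ x p := by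
  have h0 : 0 < x.length := by omega
  have h1 := Nat.mod_lt p h0
  have h2 := Nat.mod_add_div p x.length
  have e1 : hp θ x (p + g) - hp θ x p = hp θ x (p % x.length + g) - ht θ x (p % x.length) := by
    have h3 : p + g = p % x.length + g + x.length * (p / x.length) := by omega
    rw [h3, H_hp_mul]
    conv_lhs => rw [hp.eq_1 θ x p]
    ring
  have e2 : (p + g) % x.length = (p % x.length + g) % x.length := by simp
  rw [e1, e2]
  unfold val
  generalize p % x.length = a at *
  rcases lt_or_ge (a + g) x.length with h | h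
  · rw [Nat.mod_eq_of_lt h, if_neg (by omega), hp_of_le θ x _ h.le, add_zero]
  · obtain ⟨b, hb⟩ := Nat.exists_eq_add_of_le' h
    rw [hb, Nat.add_mod_right, Nat.mod_eq_of_lt (by omega), if_pos (by omega), hp_add_length,
      hp_of_le θ x _ (by omega)]
    ring

theorem H_ne_inv (a b : L) : b ≠ inv a ↔ (a.1 = b.1 → a.2 = b.2) := by
  revert a b
  decide



theorem cyc_iff (x : List L) (hx : x ≠ []) :
    FreeGroup.IsCyclicallyReduced x ↔ ∀ i, chr x (i + 1) ≠ inv (chr x i) := by
  have h0 : 0 < x.length := List.length_pos_iff.2 hx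
  have e1 : x.getLast? = some (chr x (x.length - 1)) := by
    rw [chr_of_lt x _ (by omega), List.getLast?_eq_getElem?, List.getElem?_eq_getElem]
  have e2 : x.head? = some (chr x 0) := by
    rw [chr_of_lt x _ h0, List.head?_eq_getElem?, List.getElem?_eq_getElem]
  have e3 : chr x (x.length - 1 + 1) = chr x 0 := by
    rw [Nat.sub_add_cancel h0, ← chr_add_length x 0, zero_add]
  unfold FreeGroup.IsCyclicallyReduced FreeGroup.IsReduced
  rw [List.isChain_iff_getElem, e1, e2]
  simp only [H_ne_inv, Option.mem_def, Option.some.injEq, forall_eq']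
  constructor
  · rintro ⟨k1, k2⟩ i
    have h1 := Nat.mod_lt i h0
    have e4 : chr x (i + 1) = chr x (i % x.length + 1) := by
      unfold chr
      rw [Nat.mod_add_mod]
    rw [e4, ← H_chr_mod x i]
    generalize i % x.length = a at *
    rcases lt_or_ge (a + 1) x.length with h | h
    · rw [chr_of_lt x _ h, chr_of_lt x _ h1]
      exact k1 a h
    · obtain rfl : a = x.length - 1 := by omega
      rw [e3]
      exact k2
  · intro k
    refine ⟨fun i h => ?_, ?_⟩
    · have := k i
      rwa [chr_of_lt x _ h, chr_of_lt x i (by omega)] at this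
    · have := k (x.length - 1)
      rwa [e3] at this

theorem Marg.mono {θ : ℤ × ℤ} {s s' : ℤ} {x : List L} (h : Marg θ s x) (hs : s' ≤ s) :
    Marg θ s' x := by
  obtain ⟨p, q, h1, h2, h3, h4, h5⟩ := h
  exact ⟨p, q, h1, h2, h3, by omega, by omega⟩

theorem exists_isMax (θ : ℤ × ℤ) (x : List L) (h : 2 ≤ x.length) : ∃ p q, IsMax θ x p q := by
  obtain ⟨⟨p, q⟩, h1, h2⟩ := ((range x.length ×ˢ range x.length).filter
      fun z : ℕ × ℕ => z.1 ≠ z.2).exists_max_image (fun z => val θ x z.1 z.2)
    ⟨(0, 1), by simp; omega⟩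
  simp only [mem_filter, mem_product, mem_range] at h1 h2
  exact ⟨p, q, h1.1.1, h1.1.2, h1.2, fun p' q' a b c => h2 (p', q') ⟨⟨a, b⟩, c⟩⟩

theorem IsMax.marg {θ : ℤ × ℤ} {s : ℤ} {x : List L} {p q : ℕ} (h : IsMax θ x p q)
    (hM : Marg θ s x) : s ≤ val θ x p q ∧ tot θ x + s ≤ val θ x p q := by
  obtain ⟨p', q', h1, h2, h3, h4, h5⟩ := hM
  have := h.2.2.2 p' q' h1 h2 h3
  exact ⟨by omega, by omega⟩

theorem H_sign {θ : ℤ × ℤ} (h1 : 0 < θ.1) (h2 : 0 < θ.2) (e : L) :
    (0 ≤ wt θ e → e.2 = true) ∧ (wt θ e ≤ 0 → e.2 = false) := by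
  rcases e with ⟨a, _ | _⟩ <;> by_cases h : a = 0 <;> simp [wt, h] <;> omega

theorem H_arc {θ : ℤ × ℤ} {x : List L} {p q : ℕ} (h : IsMax θ x p q) (hM : Marg θ 1 x)
    (a g : ℕ) (hg : g ≤ x.length) : hp θ x (a + g) - hp θ x a ≤ val θ x p q := by
  obtain ⟨k1, k2⟩ := h.marg hM
  have h0 : 0 < x.length := lt_of_le_of_lt (Nat.zero_le _) h.1
  rcases Nat.eq_zero_or_pos g with rfl | hg0
  · rw [add_zero]
    omega
  rcases hg.lt_or_eq with hg | rfl
  · rw [← val_eq_hp θ x a g hg]
    refine h.2.2.2 _ _ (Nat.mod_lt _ h0) (Nat.mod_lt _ h0) fun e => ?_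
    have e' : a ≡ a + g [MOD x.length] := e
    have := Nat.le_of_dvd hg0 ((Nat.modEq_iff_dvd' (Nat.le_add_right a g)).1 e' |>.trans
      (by rw [Nat.add_sub_cancel_left]))
    omega
  · rw [hp_add_length]
    omega



/-- a maximal arc starts at a local minimum and ends at a local maximum (compare with the arcs
obtained by moving one endpoint by one step; if the moved arc degenerates use `Marg`) -/
theorem max_signs {θ : ℤ × ℤ} (h1 : 0 < θ.1) (h2 : 0 < θ.2) {x : List L} {p q : ℕ}
    (h : IsMax θ x p q) (hM : Marg θ 1 x) :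
    (chr x p).2 = true ∧ (chr x (p + x.length - 1)).2 = false ∧
      (chr x q).2 = false ∧ (chr x (q + x.length - 1)).2 = true := by
  obtain ⟨hp', hq', hne, -⟩ := id h
  have hx : x ≠ [] := List.length_pos_iff.1 (by omega)
  obtain ⟨g, g1, g2⟩ : ∃ g, g + 1 < x.length ∧ (p + (g + 1) = q ∨ p + (g + 1) = q + x.length) := by
    rcases lt_or_gt_of_ne hne with k | k
    · exact ⟨q - p - 1, by omega, by omega⟩
    · exact ⟨q + x.length - p - 1, by omega, by omega⟩
  have e1 : (p + (g + 1)) % x.length = q := by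
    rcases g2 with k | k
    · rw [k, Nat.mod_eq_of_lt hq']
    · rw [k, Nat.add_mod_right, Nat.mod_eq_of_lt hq']
  have e2 : val θ x p q = hp θ x (p + (g + 1)) - hp θ x p := by
    rw [← val_eq_hp θ x p _ g1, e1, Nat.mod_eq_of_lt hp']
  have e3 : chr x q = chr x (p + (g + 1)) := by rw [← H_chr_mod x (p + (g + 1)), e1]
  have e4 : chr x (q + x.length - 1) = chr x (p + g) := by
    rcases g2 with k | k
    · rw [← chr_add_length x (p + g)]
      congr 1
      omega
    · congr 1
      omega
  have a1 := H_arc h hM (p + 1) g (by omega)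
  have a2 := H_arc h hM (p + x.length - 1) (g + 2) (by omega)
  have a3 := H_arc h hM p (g + 2) (by omega)
  have a4 := H_arc h hM p g (by omega)
  have b1 := hp_succ θ x hx p
  have b2 := hp_succ θ x hx (p + x.length - 1)
  have b3 := hp_succ θ x hx (p + (g + 1))
  have b4 := hp_succ θ x hx (p + g)
  rw [show p + 1 + g = p + (g + 1) by omega] at a1
  rw [show p + x.length - 1 + (g + 2) = p + (g + 1) + x.length by omega, hp_add_length] at a2
  rw [show p + x.length - 1 + 1 = p + x.length by omega, hp_add_length] at b2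
  rw [show p + (g + 2) = p + (g + 1) + 1 by omega] at a3
  rw [show p + g + 1 = p + (g + 1) by omega] at b4
  rw [e3, e4]
  exact ⟨(H_sign h1 h2 _).1 (by omega), (H_sign h1 h2 _).2 (by omega),
    (H_sign h1 h2 _).2 (by omega), (H_sign h1 h2 _).1 (by omega)⟩

end Pool.Agent.Work.MP_c2f093_al.Gen
end
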